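import Pool.Agent.Y227.SO.Uniform

set_option autoImplicit false

/-!
The torsion cosets for a small proportion of bad classes.
-/

open Polynomial Filter Topology Pool.Agent.W432.WB

namespace Pool.Agent.Y227.SO

open Pool.Agent.W432.TC Pool.Agent.W432.HK Pool.Agent.Y227.SS Pool.Agent.TH571.GP

variable {m n : ℕ}

/-- The exponents of the operators with a small proportion of bad classes. -/
def XE (m n : ℕ) (ε : ℝ) : Set (ExponentIndex m n → ℚ) :=
  {x | ∃ (b : Fin (n + 1) → ℤ[X]) (α : Fin m → AlgebraicClosure ℚ)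
    (Q : Fin (n + 1) → (AlgebraicClosure ℚ)[X]) (N : ℕ), OpData b α Q x N ∧
      ¬ BadPrimes b N ε ∧ ¬ FullAlg b}

/-- The conditions on the points of the cosets. -/
def Good (z : ExponentIndex m n → ℝ) : Prop :=
  WeylBoth z ∧ SemistableWeights ℂ (fun j l => z (Sum.inl (j, l))) (fun l => z (Sum.inr l))

/-- The gap at `ε`. -/
def GapAt (m n : ℕ) (ε : ℝ) : Prop :=
  ∀ (b : Fin (n + 1) → ℤ[X]) (α : Fin m → AlgebraicClosure ℚ)
      (Q : Fin (n + 1) → (AlgebraicClosure ℚ)[X]) (x : ExponentIndex m n → ℚ) (N : ℕ),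
      OpData b α Q x N → ¬ BadPrimes b N ε → ∀ a : ℤ, IsCoprime a (N : ℤ) →
        WeylBoth (fun i => (a : ℝ) * x i) ∧
        SemistableWeights ℂ (fun j l => (a : ℝ) * x (Sum.inl (j, l)))
          (fun l => (a : ℝ) * x (Sum.inr l)) ∧
        (¬ Reducible b → StableWeights ℂ (fun j l => (a : ℝ) * x (Sum.inl (j, l)))
          (fun l => (a : ℝ) * x (Sum.inr l)))

lemma GapAt.mono {ε ε' : ℝ} (h : GapAt m n ε) (hε : ε' ≤ ε) : GapAt m n ε' := by
  intro b α Q x N hop hnb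
  exact h b α Q x N hop fun hb => hnb (hb.mono hε)

/-- The cosets for a set of exponents. -/
lemma cosets_of (hm : 1 ≤ m) (hn : 1 ≤ n) {ε : ℝ} (hgap : GapAt m n ε)
    (𝒴 : Set (ExponentIndex m n → ℚ)) (h𝒴 : 𝒴 ⊆ XE m n ε) :
    ∃ 𝒟 : Finset (AddSubgroup (ExponentIndex m n → ℤ) × (ExponentIndex m n → ℚ)),
      (∀ C ∈ 𝒟, (∀ (d : ℤ) (k : ExponentIndex m n → ℤ), d ≠ 0 → d • k ∈ C.1 → k ∈ C.1) ∧
        (∀ k : ExponentIndex m n → ℤ, (∀ x ∈ 𝒴, ∃ z : ℤ, ∑ i, (k i : ℚ) * x i = z) → k ∈ C.1) ∧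
        C.2 ∈ 𝒴 ∧ ∀ z, InCoset C.1 C.2 z → Good z) ∧
      ∀ x ∈ 𝒴, ∃ C ∈ 𝒟, InCoset C.1 C.2 (fun i => (x i : ℝ)) := by
  classical
  obtain ⟨𝒟, h𝒟, hcov⟩ := general_cosets 𝒴
  refine ⟨𝒟, fun C hC => ?_, hcov⟩
  obtain ⟨hsat, hgen, hCX, happ⟩ := h𝒟 C hC
  have htr : ∀ x ∈ 𝒴, ∃ z : ℤ, ∑ i, (traceRelation m n i : ℚ) * x i = z := by
    intro x hx
    obtain ⟨b, α, Q, N, hop, -⟩ := h𝒴 hx
    exact hop.trace hm hn
  have hτ : traceRelation m n ∈ C.1 := hgen _ htr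
  refine ⟨hsat, hgen, hCX, fun z hz => ⟨?_, ?_⟩⟩
  · by_contra hbad
    have he : ∃ e : ℤ, ∑ i, (traceRelation m n i : ℝ) * z i = e := by
      obtain ⟨e', he'⟩ := hz _ hτ
      obtain ⟨e, he⟩ := htr _ hCX
      have he2 : ∑ i, (traceRelation m n i : ℝ) * (C.2 i : ℝ) = e := by
        have := congrArg (fun q : ℚ => (q : ℝ)) he
        push_cast at this
        exact this
      refine ⟨e' + e, ?_⟩
      push_cast
      rw [← he', ← he2, ← Finset.sum_add_distrib]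
      exact Finset.sum_congr rfl fun i _ => by ring
    obtain ⟨δ, hδ, hδW⟩ := near_weyl he hbad
    obtain ⟨x, hxX, -, hxa⟩ := happ 1 (fun _ => z) (fun _ => hz) δ hδ
    obtain ⟨b, α, Q, N, hop, hnb, -⟩ := h𝒴 hxX
    obtain ⟨a, ha, hnear⟩ := hxa 0 N hop.pos hop.den
    exact hδW _ hnear (hgap b α Q x N hop hnb a ha).1
  · by_contra hbad
    obtain ⟨δ, hδ, hδW⟩ := semistable_open z hbad
    obtain ⟨x, hxX, -, hxa⟩ := happ 1 (fun _ => z) (fun _ => hz) δ hδ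
    obtain ⟨b, α, Q, N, hop, hnb, -⟩ := h𝒴 hxX
    obtain ⟨a, ha, hnear⟩ := hxa 0 N hop.pos hop.den
    exact hδW _ hnear (hgap b α Q x N hop hnb a ha).2.1

/-- The permutations of a structure. -/
noncomputable def sgm (σ : Fin m → Equiv.Perm (Fin n)) : Option (Fin m) → Equiv.Perm (Fin n) :=
  fun o => o.elim 1 σ

lemma sgm_some (σ : Fin m → Equiv.Perm (Fin n)) (j : Fin m) : sgm σ (some j) = σ j := rfl

lemma sgm_none (σ : Fin m → Equiv.Perm (Fin n)) : sgm σ none = 1 := rfl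

/-- The class sums are integers. -/
def ClassInt (σ : Fin m → Equiv.Perm (Fin n)) (x : ExponentIndex m n → ℚ) : Prop :=
  ∀ l, ∃ A : ℤ, ∑ j, x (Sum.inl (j, σ j l)) - x (Sum.inr l) = A

lemma int_of_Lsig {σ : Fin m → Equiv.Perm (Fin n)} {x : ExponentIndex m n → ℚ}
    (hx : ClassInt σ x) {k : ExponentIndex m n → ℤ} (hk : k ∈ Lsig (sgm σ)) :
    ∃ z : ℤ, ∑ i, (k i : ℚ) * x i = z := by
  choose z hz using hx
  refine ⟨∑ l, -(k (Sum.inr (sgm σ none l))) * z l, ?_⟩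
  rw [sum_Lsig hk]
  push_cast
  refine Finset.sum_congr rfl fun l _ => ?_
  rw [← hz l]
  rfl

/-- The target points. -/
noncomputable def tg (σ : Fin m → Equiv.Perm (Fin n)) (s : Fin n) : ExponentIndex m n → ℝ :=
  Sum.elim (fun p => if (σ p.1).symm p.2 = s then 0 else
      (((σ p.1).symm p.2 : Fin n) + 1 : ℝ) / (m * (n + 2)))
    (fun l => if l = s then 0 else m * (((l : Fin n) + 1 : ℝ) / (m * (n + 2))) - 1)

lemma tg_sum (σ : Fin m → Equiv.Perm (Fin n)) (s l : Fin n) :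
    ∑ j, tg σ s (Sum.inl (j, σ j l)) - tg σ s (Sum.inr l) = if l = s then 0 else 1 := by
  simp only [tg, Sum.elim_inl, Sum.elim_inr, Equiv.symm_apply_apply, Finset.sum_const,
    Finset.card_univ, Fintype.card_fin, nsmul_eq_mul]
  split_ifs with h
  · ring
  · ring

lemma tg_coset (σ : Fin m → Equiv.Perm (Fin n)) (s : Fin n) :
    ∀ k ∈ Lsig (sgm σ), ∃ z : ℤ,
      ∑ i, (k i : ℝ) * (tg σ s i - ((0 : ExponentIndex m n → ℚ) i : ℚ)) = z := by
  intro k hk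
  simp only [Pi.zero_apply, Rat.cast_zero, sub_zero]
  rw [sum_Lsig hk]
  refine ⟨∑ l, -(k (Sum.inr (sgm σ none l))) * (if l = s then 0 else 1), ?_⟩
  push_cast
  refine Finset.sum_congr rfl fun l _ => ?_
  have h1 := tg_sum σ s l
  have h2 : sgm σ none l = l := rfl
  simp only [sgm_some, h2]
  rw [h1]

/-- The width of the targets. -/
noncomputable def dlt (m n : ℕ) : ℝ := 1 / (4 * (m + 1) * (n + 2))

lemma dlt_pos (m n : ℕ) : 0 < dlt m n := by unfold dlt; positivity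

lemma tg_props (hm : 1 ≤ m) (σ : Fin m → Equiv.Perm (Fin n)) (s : Fin n) :
    ((m + 1 : ℕ) * dlt m n ≤ 1) ∧
    (∀ j, tg σ s (Sum.inl (j, σ j s)) = 0) ∧ (tg σ s (Sum.inr s) = 0) ∧
    (∀ j l, l ≠ σ j s → 2 * dlt m n ≤ tg σ s (Sum.inl (j, l)) ∧
      tg σ s (Sum.inl (j, l)) + 2 * dlt m n ≤ 1) ∧
    (∀ l, l ≠ s → tg σ s (Sum.inr l) + 2 * dlt m n ≤ 0) ∧
    (∀ l, l ≠ s → ∑ j, tg σ s (Sum.inl (j, σ j l)) - tg σ s (Sum.inr l) = 1) := by
  have hm1 : (1 : ℝ) ≤ m := by exact_mod_cast hm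
  have hm0 : (0 : ℝ) < m := by linarith
  have hn0 : (0 : ℝ) ≤ n := Nat.cast_nonneg _
  have hmn : (0 : ℝ) < m * (n + 2) := by positivity
  have h2δ : 2 * dlt m n ≤ 1 / (m * (n + 2)) := by
    rw [dlt, mul_one_div, div_le_div_iff₀ (by positivity) hmn]
    nlinarith
  have h2δ' : 2 * dlt m n ≤ 1 / (n + 2) := by
    rw [dlt, mul_one_div, div_le_div_iff₀ (by positivity) (by positivity)]
    nlinarith
  have ht1 : ∀ l : Fin n, 1 / (m * (n + 2)) ≤ ((l : ℝ) + 1) / (m * (n + 2)) ∧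
      m * (((l : ℝ) + 1) / (m * (n + 2))) ≤ n / (n + 2) ∧
      ((l : ℝ) + 1) / (m * (n + 2)) ≤ n / (n + 2) := by
    intro l
    have hl : (l : ℝ) + 1 ≤ n := by
      have := l.isLt
      exact_mod_cast this
    have hl0 : (0 : ℝ) ≤ l := Nat.cast_nonneg _
    have h3 : m * (((l : ℝ) + 1) / (m * (n + 2))) ≤ n / (n + 2) := by
      rw [mul_div_assoc', div_le_div_iff₀ hmn (by positivity)]
      nlinarith [mul_le_mul_of_nonneg_left hl (by positivity : (0 : ℝ) ≤ m * (n + 2))]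
    have h4 : 1 / (m * (n + 2)) ≤ ((l : ℝ) + 1) / (m * (n + 2)) := by
      rw [div_le_div_iff_of_pos_right hmn]
      linarith
    refine ⟨h4, h3, ?_⟩
    have h5 : 0 ≤ ((l : ℝ) + 1) / (m * (n + 2)) := le_trans (by positivity) h4
    nlinarith
  have hfrac : (n : ℝ) / (n + 2) + 1 / (n + 2) ≤ 1 := by
    rw [← add_div, div_le_one (by positivity)]
    linarith
  refine ⟨?_, ?_, ?_, ?_, ?_, ?_⟩
  · rw [dlt]
    push_cast
    rw [mul_one_div, div_le_one (by positivity)]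
    nlinarith
  · intro j
    simp [tg]
  · simp [tg]
  · intro j l h
    have hne : ¬ (σ j).symm l = s := fun h' => h (by rw [← h', Equiv.apply_symm_apply])
    have h1 := ht1 ((σ j).symm l)
    simp only [tg, Sum.elim_inl, if_neg hne]
    constructor <;> linarith
  · intro l h
    have h1 := ht1 l
    simp only [tg, Sum.elim_inr, if_neg h]
    linarith
  · intro l h
    rw [tg_sum, if_neg h]

/-- The torsion coset theorem with a small proportion of bad classes. -/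
theorem cosets_uniform (hm : 1 ≤ m) (hn : 1 ≤ n) :
    ∃ (ε : ℝ) (𝒟 : Finset (AddSubgroup (ExponentIndex m n → ℤ) × (ExponentIndex m n → ℚ))),
      0 < ε ∧ GapAt m n ε ∧
      (∀ C ∈ 𝒟, (∀ (d : ℤ) (k : ExponentIndex m n → ℤ), d ≠ 0 → d • k ∈ C.1 → k ∈ C.1) ∧
        traceRelation m n ∈ C.1 ∧
        (∃ k : Fin (n + 1) → ExponentIndex m n → ℤ, LinearIndependent ℤ k ∧ ∀ i, k i ∈ C.1) ∧
        ∀ z, InCoset C.1 C.2 z → Good z) ∧
      ∀ x ∈ XE m n ε, ∃ C ∈ 𝒟, InCoset C.1 C.2 (fun i => (x i : ℝ)) := by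
  classical
  obtain ⟨ε₁, hε₁, hgap₁⟩ := gap_all (m := m) (n := n) hm hn
  choose K Q E hE hKQ using fun (σ : Fin m → Equiv.Perm (Fin n)) (s : Fin n) =>
    Pool.Agent.Y227.UD.equidist (Lsig (sgm σ)) (0 : ExponentIndex m n → ℚ) (tg σ s) (tg_coset σ s)
      _ (dlt_pos m n)
  obtain ⟨ε₂, hε₂, hε₂E⟩ := Pool.Agent.Y227.UD.exists_lower
    (fun t : (Fin m → Equiv.Perm (Fin n)) × Fin n => E t.1 t.2) (fun t => hE t.1 t.2)
  let K' : ℕ := ∑ σ, ∑ s, K σ s + 1
  let Q' : ℕ := ∑ σ, ∑ s, Q σ s + 1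
  have hK' : ∀ σ s, K σ s ≤ K' := fun σ s =>
    (Finset.single_le_sum (f := fun s => K σ s) (fun _ _ => Nat.zero_le _) (Finset.mem_univ s)).trans
      ((Finset.single_le_sum (f := fun σ => ∑ s, K σ s) (fun _ _ => Nat.zero_le _)
        (Finset.mem_univ σ)).trans (Nat.le_succ _))
  have hQ' : ∀ σ s, Q σ s ≤ Q' := fun σ s =>
    (Finset.single_le_sum (f := fun s => Q σ s) (fun _ _ => Nat.zero_le _) (Finset.mem_univ s)).trans
      ((Finset.single_le_sum (f := fun σ => ∑ s, Q σ s) (fun _ _ => Nat.zero_le _)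
        (Finset.mem_univ σ)).trans (Nat.le_succ _))
  let box : Finset (ExponentIndex m n → ℤ) :=
    Fintype.piFinset fun _ => Finset.Icc (-(K' : ℤ)) K'
  set ε : ℝ := min ε₁ ε₂ with hεdef
  have hε : 0 < ε := lt_min hε₁ hε₂
  have hgap : GapAt m n ε := GapAt.mono (ε := ε₁) (fun b α Q x N h1 h2 => hgap₁ b α Q x N h1 h2)
    (min_le_left _ _)
  -- the sets of exponents
  let 𝒴₀ : Set (ExponentIndex m n → ℚ) := {x | x ∈ XE m n ε ∧ ¬ ∃ σ, ClassInt σ x}
  let 𝒴 : (Fin m → Equiv.Perm (Fin n)) → (ExponentIndex m n → ℤ) → ℕ →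
      Set (ExponentIndex m n → ℚ) := fun σ k q =>
    {x | x ∈ XE m n ε ∧ ClassInt σ x ∧ ∃ z : ℤ, (q : ℚ) * ∑ i, (k i : ℚ) * x i = z}
  obtain ⟨𝒟₀, h𝒟₀, hcov₀⟩ := cosets_of hm hn hgap 𝒴₀ (fun x hx => hx.1)
  choose 𝒟₁ h𝒟₁ hcov₁ using fun σ k q => cosets_of hm hn hgap (𝒴 σ k q) (fun x hx => hx.1)
  let 𝒟₂ : Finset (AddSubgroup (ExponentIndex m n → ℤ) × (ExponentIndex m n → ℚ)) :=
    (Finset.univ ×ˢ (box ×ˢ Finset.Icc 1 Q')).biUnion fun t :
      (Fin m → Equiv.Perm (Fin n)) × ((ExponentIndex m n → ℤ) × ℕ) =>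
      if t.2.1 ∈ Lsig (sgm t.1) then ∅ else 𝒟₁ t.1 t.2.1 t.2.2
  have htrX : ∀ x ∈ XE m n ε, ∃ z : ℤ, ∑ i, (traceRelation m n i : ℚ) * x i = z := by
    rintro x ⟨b, α, Q, N, hop, -⟩
    exact hop.trace hm hn
  refine ⟨ε, 𝒟₀ ∪ 𝒟₂, hε, hgap, fun C hC => ?_, fun x hx => ?_⟩
  · rcases Finset.mem_union.mp hC with hC | hC
    · obtain ⟨hsat, hgen, hCX, hgood⟩ := h𝒟₀ C hC
      have hτ : traceRelation m n ∈ C.1 := hgen _ fun x hx => htrX x hx.1
      refine ⟨hsat, hτ, ?_, hgood⟩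
      by_contra hrank
      obtain ⟨⟨σ, hσ⟩, hint⟩ := coset_structure hsat hτ (fun z hz => (hgood z hz).1) hrank
      refine hCX.2 ⟨fun j => (σ none).symm.trans (σ (some j)), fun l => ?_⟩
      obtain ⟨z, hz⟩ := hint _ (hσ ((σ none).symm l))
      refine ⟨z, ?_⟩
      rw [← hz, Fintype.sum_sum_type, Fintype.sum_prod_type]
      simp only [sumRel_inl, sumRel_inr, Equiv.trans_apply, Equiv.apply_symm_apply]
      push_cast
      simp only [ite_mul, one_mul, zero_mul, neg_mul, Finset.sum_ite_eq', Finset.mem_univ, if_true,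
        Finset.sum_neg_distrib]
      ring
    · obtain ⟨⟨σ, k, q⟩, ht, hC⟩ := Finset.mem_biUnion.mp hC
      simp only at hC
      split_ifs at hC with hk
      · exact absurd hC (Finset.notMem_empty _)
      · obtain ⟨hsat, hgen, hCX, hgood⟩ := h𝒟₁ σ k q C hC
        have hq := (Finset.mem_product.mp (Finset.mem_product.mp ht).2).2
        have hq1 := (Finset.mem_Icc.mp hq).1
        have hq0 : (q : ℤ) ≠ 0 := by
          have : (0 : ℤ) < (q : ℤ) := by exact_mod_cast hq1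
          exact this.ne'
        refine ⟨hsat, hgen _ fun x hx => htrX x hx.1, ?_, hgood⟩
        obtain ⟨f, hf1, hf2⟩ := indep_Lsig hk hq0
        refine ⟨f, hf1, fun i => ?_⟩
        have hsub : Lsig (sgm σ) ⊔ AddSubgroup.zmultiples ((q : ℤ) • k) ≤ C.1 := by
          refine sup_le (fun k' hk' => ?_) ?_
          · exact hgen _ fun x hx => int_of_Lsig hx.2.1 hk'
          · rw [AddSubgroup.zmultiples_le]
            refine hgen _ fun x hx => ?_
            obtain ⟨z, hz⟩ := hx.2.2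
            refine ⟨z, ?_⟩
            rw [← hz, Finset.mul_sum]
            refine Finset.sum_congr rfl fun i _ => ?_
            simp only [Pi.smul_apply, smul_eq_mul]
            push_cast
            ring
        exact hsub (hf2 i)
  · by_contra hnot
    -- the structure
    have hstr : ∃ σ, ClassInt σ x := by
      by_contra hno
      obtain ⟨C, hC, hin⟩ := hcov₀ x ⟨hx, hno⟩
      exact hnot ⟨C, Finset.mem_union_left _ hC, hin⟩
    obtain ⟨σ, hσ⟩ := hstr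
    -- the exponents are generic
    have hgen : ∀ k ∉ Lsig (sgm σ), (∀ i, |k i| ≤ K') → ∀ q : ℕ, 0 < q → q ≤ Q' →
        ¬ ∃ z : ℤ, (q : ℚ) * ∑ i, (k i : ℚ) * x i = z := by
      rintro k hk hkK q hq hqQ hz
      obtain ⟨C, hC, hin⟩ := hcov₁ σ k q x ⟨hx, hσ, hz⟩
      refine hnot ⟨C, Finset.mem_union_right _ ?_, hin⟩
      refine Finset.mem_biUnion.mpr ⟨(σ, k, q), ?_, ?_⟩
      · refine Finset.mem_product.mpr ⟨Finset.mem_univ _, Finset.mem_product.mpr ⟨?_, ?_⟩⟩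
        · exact Fintype.mem_piFinset.mpr fun i => Finset.mem_Icc.mpr (abs_le.mp (hkK i))
        · exact Finset.mem_Icc.mpr ⟨hq, hqQ⟩
      · simp only
        rw [if_neg hk]
        exact hC
    obtain ⟨b, α, Qc, N, hop, hnb, hnA⟩ := hx
    have hNpos := hop.pos
    have : NeZero N := ⟨hNpos.ne'⟩
    have hσR : ∀ l, ∃ A : ℤ, ∑ j, (x (Sum.inl (j, σ j l)) : ℝ) - x (Sum.inr l) = A := by
      intro l
      obtain ⟨A, hA⟩ := hσ l
      refine ⟨A, ?_⟩
      have := congrArg (fun q : ℚ => (q : ℝ)) hA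
      push_cast at this
      exact this
    have key : ∀ s, HasMonSol α Qc (fun j => x (Sum.inl (j, σ j s))) ∧
        ∀ j l, l ≠ σ j s → ∀ z : ℤ, x (Sum.inl (j, l)) - x (Sum.inl (j, σ j s)) ≠ z := by
      intro s
      obtain ⟨S, hS1, hS2⟩ := hKQ σ s x (by
        intro k hk
        obtain ⟨z, hz⟩ := int_of_Lsig hσ hk
        exact ⟨z, by simpa using hz⟩) (fun k hk hkK q hq hqQ => hgen k hk
          (fun i => (hkK i).trans (by exact_mod_cast hK' σ s)) q hq (hqQ.trans (hQ' σ s))) N hNpos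
            hop.den
      obtain ⟨hp1, hp2, hp3, hp4, hp5, hp6⟩ := tg_props hm σ s
      have hmon : ∀ u ∈ S, (BadAt b N (((u : (ZMod N)ˣ) : ZMod N).val : ℤ) ∨
          HasMonSol α Qc (fun j => x (Sum.inl (j, σ j s)))) ∧
          ∀ j l, l ≠ σ j s → ∀ z : ℤ, x (Sum.inl (j, l)) - x (Sum.inl (j, σ j s)) ≠ z :=
        fun u hu => mon_or hm hop (fun j => σ j) (fun j => (σ j).injective) hσR s (tg σ s)
          (dlt m n) hp1 hp2 hp3 hp4 hp5 hp6 _ (hS2 u hu _ (rep_unit u))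
      have hSne : S.Nonempty := by
        rw [← Finset.card_pos]
        have h4 : (0 : ℝ) < S.card := lt_of_lt_of_le
          (mul_pos (hE σ s) (by exact_mod_cast Nat.totient_pos.mpr hNpos)) hS1
        exact_mod_cast h4
      refine ⟨?_, ?_⟩
      · by_contra hno
        refine hnb ((collect b N hNpos (E σ s) S hS1 fun u hu => ⟨_, rep_unit u,
          (hmon u hu).1.resolve_right hno⟩).mono ?_)
        exact (min_le_right _ _).trans (hε₂E (σ, s))
      · obtain ⟨u, hu⟩ := hSne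
        exact (hmon u hu).2
    apply hnA
    refine fullAlg_of_mon b α Qc hop.fuchs (fun s j => x (Sum.inl (j, σ j s)))
      (fun s => (key s).1) ⟨0, hm⟩ fun s s' hss z => ?_
    exact (key s').2 _ _ (fun h => hss ((σ _).injective h)) z

end Pool.Agent.Y227.SO
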