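import Pool.Agent.Y227.SS.Defs
import Pool.Agent.W432.WB.Wron

set_option autoImplicit false

open Polynomial

namespace Pool.Agent.Y227.SO

open Pool.Agent.W432.PC (T)
open Pool.Agent.Y227.SS (mnr)

/-- The image of the rows of `v` under `T d/dx - B`. -/
noncomputable def opR {R : Type*} [CommRing R] {n s r : ℕ} (α : Fin n → R)
    (B : Matrix (Fin r) (Fin r) R[X]) (v : Matrix (Fin s) (Fin r) R[X]) :
    Matrix (Fin s) (Fin r) R[X] :=
  Matrix.of fun i l => T α * derivative (v i l) - B.mulVec (v i) l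

/-- The `K(x)`-span of the rows of some matrix of rank `s` is stable under `T d/dx - B`. -/
def HasStab {K : Type*} [Field K] {n r : ℕ} (α : Fin n → K)
    (B : Matrix (Fin r) (Fin r) K[X]) (s : ℕ) : Prop :=
  ∃ v : Matrix (Fin s) (Fin r) K[X], (∃ J, mnr v J ≠ 0) ∧
    ∃ (c : K[X]) (G : Matrix (Fin s) (Fin s) K[X]), c ≠ 0 ∧ c • opR α B v = G * v

/-- The differential operator `∑ k, b k ∂ ^ k` applied to the polynomial `f`. -/
noncomputable def opApply {R : Type*} [CommRing R] {n : ℕ} (b : Fin (n + 1) → R[X]) (f : R[X]) :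
    R[X] := ∑ k : Fin (n + 1), b k * derivative^[(k : ℕ)] f

/-- The operator `L = ∑ b k ∂ ^ k` of order `n` is reducible over the algebraic numbers: some
multiple `c L`, `c ≠ 0`, by a polynomial is the composition of two operators of positive orders
`t`, `s`, `t + s = n`, with polynomial coefficients. (Operators with polynomial coefficients over a
field of characteristic zero are determined by their action on polynomials.) -/
def Reducible {n : ℕ} (b : Fin (n + 1) → ℤ[X]) : Prop :=
  ∃ (s t : ℕ) (c : (AlgebraicClosure ℚ)[X]) (L₁ : Fin (t + 1) → (AlgebraicClosure ℚ)[X])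
    (L₂ : Fin (s + 1) → (AlgebraicClosure ℚ)[X]), 0 < s ∧ 0 < t ∧ s + t = n ∧ c ≠ 0 ∧
    ∀ f, c * opApply (fun k => (b k).map (Int.castRingHom (AlgebraicClosure ℚ))) f =
      opApply L₁ (opApply L₂ f)

open Pool.Agent.W432.WB (FullMod)

/-- There is a set of at least `ε * φ(N)` residue classes modulo `N`, prime to `N`, such that for
all large primes `p` in these classes the reduction of `∑ b k ∂ ^ k` modulo `p` does not have a full
basis of rational solutions. -/
def BadPrimes {n : ℕ} (b : Fin (n + 1) → ℤ[X]) (N : ℕ) (ε : ℝ) : Prop :=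
  ∃ (S : Finset (ZMod N)ˣ) (P₀ : ℕ), ε * N.totient ≤ S.card ∧
    ∀ p : ℕ, P₀ < p → (∃ v ∈ S, ((p : ℕ) : ZMod N) = ((v : (ZMod N)ˣ) : ZMod N)) →
      ∀ _hp : Fact p.Prime, ¬ FullMod b p

end Pool.Agent.Y227.SO
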