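import Pool.Agent.Y227.SO.Dens
import Pool.Agent.W432.HK.Rat

set_option autoImplicit false

/-!
Operators with full bases of rational solutions modulo a set of primes of large density are
Fuchsian with rational exponents.
-/

open Polynomial

namespace Pool.Agent.Y227.SO

open Pool.Agent.W432.PC (T Tc T_eq T_monic T_ne T_natDegree Tc_monic Tc_eval_ne T_map Tc_map
  exists_closed_point prod_dvd_of_dvd)
open Pool.Agent.W432.WB Pool.Agent.W432.HK

universe u

/-- Full bases of rational solutions modulo infinitely many primes. -/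
def InfGood {n : ℕ} (b : Fin (n + 1) → ℤ[X]) : Prop :=
  ∀ P : ℕ, ∃ p : ℕ, P < p ∧ ∃ _hp : Fact p.Prime, FullMod b p

/-- Regularity at a finite point. -/
theorem fuchs_at' {F : Type u} [Field F] [CharZero F] {n : ℕ} {b : Fin (n + 1) → ℤ[X]}
    (hb : b (Fin.last n) ≠ 0) (hfull : InfGood b) (x₀ : F) (k : Fin (n + 1)) :
    (X - C x₀) ^ (((b (Fin.last n)).map (Int.castRingHom F)).rootMultiplicity x₀) ∣
      (X - C x₀) ^ (n - (k : ℕ)) * (b k).map (Int.castRingHom F) := by
  classical
  set τ : F[X] := X - C x₀ with hτ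
  have hτ0 : τ ≠ 0 := X_sub_C_ne_zero x₀
  set bn : F[X] := (b (Fin.last n)).map (Int.castRingHom F) with hbn
  have hbn0 : bn ≠ 0 := (Polynomial.map_ne_zero_iff (Int.cast_injective)).mpr hb
  set e := bn.rootMultiplicity x₀ with he
  let G : Fin (n + 1) → F[X] := fun k => τ ^ (n - (k : ℕ)) * (b k).map (Int.castRingHom F)
  have hGn : G (Fin.last n) = bn := by simp [G, hbn]
  -- the largest common power
  let S : Set ℕ := {μ | ∀ k, τ ^ μ ∣ G k}
  have hS0 : (0 : ℕ) ∈ S := fun k => by rw [pow_zero]; exact one_dvd _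
  have hSb : ∀ μ ∈ S, μ ≤ e := by
    intro μ hμ
    have := hμ (Fin.last n)
    rw [hGn] at this
    exact (le_rootMultiplicity_iff hbn0).mpr this
  have hbdd : BddAbove S := ⟨e, hSb⟩
  set μ := sSup S with hμdef
  have hμ : μ ∈ S := Nat.sSup_mem ⟨0, hS0⟩ hbdd
  choose c hc using hμ
  have hne : ∃ k₁, (c k₁).eval x₀ ≠ 0 := by
    by_contra hno
    push Not at hno
    have h1 : μ + 1 ∈ S := by
      intro k
      obtain ⟨w, hw⟩ := dvd_iff_isRoot.mpr (hno k)
      rw [hc k, hw, pow_succ]
      exact ⟨w, by ring⟩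
    have h2 := le_csSup hbdd h1
    omega
  obtain ⟨k₁, hk₁⟩ := hne
  have hcn : (c (Fin.last n)).eval x₀ ≠ 0 := by
    intro h0
    -- descend
    let S' : Finset F := {x₀} ∪ (Finset.univ.biUnion fun k : Fin (n + 1) =>
      (c k).support.image (c k).coeff)
    obtain ⟨R, _, _, _, _, ι, hι, hS'⟩ := exists_ring S'
    obtain ⟨y₀, hy₀⟩ := hS' x₀ (by simp [S'])
    have hcl : ∀ k, ∃ P : R[X], P.map ι = c k := fun k => exists_lift ι (c k) fun i hi => hS' _ (by
      simp only [S', Finset.mem_union, Finset.mem_biUnion, Finset.mem_univ, true_and]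
      exact Or.inr ⟨k, Finset.mem_image.mpr ⟨i, hi, rfl⟩⟩)
    choose c' hc' using hcl
    have hev : ∀ k, ι ((c' k).eval y₀) = (c k).eval x₀ := by
      intro k
      rw [← hc' k, ← hy₀, eval_map_apply]
    have hg : (c' k₁).eval y₀ ≠ 0 := by
      intro h1
      apply hk₁
      rw [← hev, h1, map_zero]
    have hz : (c' (Fin.last n)).eval y₀ = 0 := by
      apply hι
      rw [hev, h0, map_zero]
    have hcastR : ι.comp (Int.castRingHom R) = Int.castRingHom F := RingHom.ext_int _ _
    have hrel : ∀ k : Fin (n + 1), (X - C y₀) ^ (n - (k : ℕ)) * (b k).map (Int.castRingHom R) =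
        (X - C y₀) ^ μ * c' k := by
      intro k
      apply map_injective ι hι
      rw [Polynomial.map_mul, Polynomial.map_mul, Polynomial.map_pow, Polynomial.map_pow,
        Polynomial.map_sub, map_X, map_C, hy₀, Polynomial.map_map, hcastR, hc']
      exact hc k
    obtain ⟨P₁, hP₁⟩ := exists_closed_point R hg
    obtain ⟨p, hpgt, hfact, hfullp⟩ := hfull (max P₁ (b (Fin.last n)).leadingCoeff.natAbs)
    have hpp : p.Prime := hfact.out
    simp only [max_lt_iff] at hpgt
    obtain ⟨𝔪, h𝔪, hpm, hgm⟩ := hP₁ p hpp hpgt.1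
    obtain ⟨K, _, _, _, φ, hφ⟩ := geo hpp hpm
    have hcast : φ.comp (Int.castRingHom R) = Int.castRingHom K := RingHom.ext_int _ _
    obtain ⟨f, hf, hdet⟩ := sols (K := K) hfullp (map_ne_of_large hb hpgt.2)
    have h1 := loc_point (p := p) (b := fun k => (b k).map (Int.castRingHom K)) hf hdet
      (x₀ := φ y₀) (c := fun k => (c' k).map φ) (fun y hy => by
        have h2 : (X - C (φ y₀)) ^ μ * ∑ k : Fin (n + 1), (c' k).map φ *
            ((X - C (φ y₀)) ^ (k : ℕ) * derivative^[(k : ℕ)] y) = 0 := by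
          have h3 := congrArg (fun x => (X - C (φ y₀)) ^ n * x) hy
          simp only [mul_zero, Finset.mul_sum] at h3
          rw [← h3, Finset.mul_sum]
          refine Finset.sum_congr rfl fun k _ => ?_
          have h4 := congrArg (Polynomial.map φ) (hrel k)
          rw [Polynomial.map_mul, Polynomial.map_mul, Polynomial.map_pow, Polynomial.map_pow,
            Polynomial.map_sub, map_X, map_C, Polynomial.map_map, hcast] at h4
          have h5 : (X - C (φ y₀)) ^ n = (X - C (φ y₀)) ^ (k : ℕ) *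
              (X - C (φ y₀)) ^ (n - (k : ℕ)) := by
            rw [← pow_add]
            congr 1
            have := k.isLt
            omega
          rw [h5]
          linear_combination (-((X - C (φ y₀)) ^ (k : ℕ) * derivative^[(k : ℕ)] y)) * h4
        exact (mul_eq_zero.mp h2).resolve_left (pow_ne_zero _ (X_sub_C_ne_zero _))) (by
        intro h2
        have h3 := congrFun h2 k₁
        simp only [Pi.zero_apply] at h3
        rw [eval_map_apply] at h3
        exact hφ _ hgm h3)
    apply h1.1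
    rw [eval_map_apply, hz, map_zero]
  -- conclusion
  have heμ : e = μ := by
    apply le_antisymm
    · by_contra hlt
      push Not at hlt
      have h1 : τ ^ (μ + 1) ∣ bn := (le_rootMultiplicity_iff hbn0).mp (by rw [← he]; omega)
      rw [← hGn, hc (Fin.last n), pow_succ] at h1
      have h2 := (mul_dvd_mul_iff_left (pow_ne_zero μ hτ0)).mp h1
      exact hcn (dvd_iff_isRoot.mp h2)
    · exact hSb μ (fun k => ⟨c k, hc k⟩)
  rw [heμ]
  exact ⟨c k, hc k⟩

/-- Regularity at infinity. -/
theorem fuchs_inf' {n : ℕ} {b : Fin (n + 1) → ℤ[X]} (hb : b (Fin.last n) ≠ 0) (hfull : InfGood b)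
    (k : Fin (n + 1)) (hk : b k ≠ 0) :
    (b k).natDegree + (n - (k : ℕ)) ≤ (b (Fin.last n)).natDegree := by
  classical
  let G : Fin (n + 1) → ℤ[X] := fun k => X ^ (n - (k : ℕ)) * b k
  have hGdeg : ∀ k, b k ≠ 0 → (G k).natDegree = (b k).natDegree + (n - (k : ℕ)) := by
    intro k hk
    simp only [G]
    rw [natDegree_mul (pow_ne_zero _ X_ne_zero) hk, natDegree_X_pow, add_comm]
  have hne : (Finset.univ.filter fun k : Fin (n + 1) => b k ≠ 0).Nonempty :=
    ⟨Fin.last n, Finset.mem_filter.mpr ⟨Finset.mem_univ _, hb⟩⟩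
  obtain ⟨k₁, hk₁, hmax⟩ := Finset.exists_max_image _ (fun k => (G k).natDegree) hne
  rw [Finset.mem_filter] at hk₁
  set D := (G k₁).natDegree with hD
  have hDle : ∀ k, (G k).natDegree ≤ D := by
    intro k
    by_cases h0 : b k = 0
    · simp [G, h0]
    · exact hmax k (Finset.mem_filter.mpr ⟨Finset.mem_univ _, h0⟩)
  have hG1 : G k₁ ≠ 0 := mul_ne_zero (pow_ne_zero _ X_ne_zero) hk₁.2
  have ha1 : (G k₁).coeff D ≠ 0 := leadingCoeff_ne_zero.mpr hG1
  have han : (G (Fin.last n)).coeff D ≠ 0 := by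
    intro h0
    obtain ⟨p, hpgt, hfact, hfullp⟩ := hfull (max ((G k₁).coeff D).natAbs
      (b (Fin.last n)).leadingCoeff.natAbs)
    simp only [max_lt_iff] at hpgt
    obtain ⟨f, hf, hdet⟩ := sols (K := ZMod p) hfullp (map_ne_of_large hb hpgt.2)
    have h1 := inf_point (p := p) (b := fun k => (b k).map (Int.castRingHom (ZMod p))) hf hdet
      (g := fun k => (G k).map (Int.castRingHom (ZMod p))) (D := D)
      (fun k => natDegree_map_le.trans (hDle k)) (fun y hy => by
        have h3 := congrArg (fun x => X ^ n * x) hy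
        simp only [mul_zero, Finset.mul_sum] at h3
        rw [← h3]
        refine Finset.sum_congr rfl fun k _ => ?_
        simp only [G]
        rw [Polynomial.map_mul, Polynomial.map_pow, map_X]
        have h5 : (X : (ZMod p)[X]) ^ n = X ^ (k : ℕ) * X ^ (n - (k : ℕ)) := by
          rw [← pow_add]
          congr 1
          have := k.isLt
          omega
        rw [h5]
        ring) (by
        intro h2
        have h3 := congrFun h2 k₁
        simp only [Pi.zero_apply, coeff_map, eq_intCast] at h3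
        have h4 := (ZMod.intCast_zmod_eq_zero_iff_dvd _ p).mp h3
        have h5 := Int.natAbs_dvd_natAbs.mpr h4
        rw [Int.natAbs_natCast] at h5
        have := Nat.le_of_dvd (Int.natAbs_pos.mpr ha1) h5
        omega)
    apply h1.1
    simp only [coeff_map, h0, map_zero]
  have h1 : D ≤ (G (Fin.last n)).natDegree := le_natDegree_of_ne_zero han
  rw [hGdeg _ hb, Fin.val_last, Nat.sub_self, add_zero] at h1
  rw [← hGdeg k hk]
  exact (hDle k).trans h1

/-- Katz, Honda: an operator with full bases of rational solutions modulo almost all primes is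
Fuchsian. -/
theorem isFuchs' {F : Type u} [Field F] [CharZero F] [IsAlgClosed F] {m n : ℕ}
    {b : Fin (n + 1) → ℤ[X]} (hb : b (Fin.last n) ≠ 0) (hfull : InfGood b) (hm : 0 < m)
    {α : Fin m → F} (hα : Function.Injective α)
    (hroot : ∀ x, ((b (Fin.last n)).map (Int.castRingHom F)).eval x = 0 → ∃ j, α j = x) :
    ∃ Q : Fin (n + 1) → F[X], IsFuchs b α Q := by
  classical
  set bn : F[X] := (b (Fin.last n)).map (Int.castRingHom F) with hbn
  have hbn0 : bn ≠ 0 := (Polynomial.map_ne_zero_iff (Int.cast_injective)).mpr hb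
  let e : Fin m → ℕ := fun j => bn.rootMultiplicity (α j)
  have hprod : bn = C bn.leadingCoeff * ∏ j, (X - C (α j)) ^ e j := by
    have h1 := (IsAlgClosed.splits bn).eq_prod_roots
    conv_lhs => rw [h1]
    congr 1
    rw [Finset.prod_multiset_map_count]
    have h2 : bn.roots.toFinset ⊆ Finset.univ.image α := by
      intro x hx
      rw [Multiset.mem_toFinset, mem_roots hbn0] at hx
      obtain ⟨j, hj⟩ := hroot x hx
      exact Finset.mem_image.mpr ⟨j, Finset.mem_univ j, hj⟩
    rw [Finset.prod_subset h2, Finset.prod_image fun a _ b _ hab => hα hab]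
    · refine Finset.prod_congr rfl fun j _ => ?_
      rw [count_roots]
    · intro x _ hx
      have : bn.roots.count x = 0 := by
        rw [Multiset.count_eq_zero]
        rwa [Multiset.mem_toFinset] at hx
      rw [this, pow_zero]
  have hdvd : ∀ k : Fin (n + 1), bn ∣ T α ^ (n - (k : ℕ)) * (b k).map (Int.castRingHom F) := by
    intro k
    rw [hprod]
    have hu : IsUnit (C bn.leadingCoeff) :=
      isUnit_C.mpr (isUnit_iff_ne_zero.mpr (leadingCoeff_ne_zero.mpr hbn0))
    rw [hu.mul_left_dvd]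
    refine prod_dvd_of_dvd hα e fun j => ?_
    have h1 := fuchs_at' hb hfull (α j) k
    have h2 : T α ^ (n - (k : ℕ)) * (b k).map (Int.castRingHom F) =
        Tc α j ^ (n - (k : ℕ)) * ((X - C (α j)) ^ (n - (k : ℕ)) *
          (b k).map (Int.castRingHom F)) := by
      rw [T_eq j, mul_pow]
      ring
    rw [h2]
    exact Dvd.dvd.mul_left h1 _
  choose Q hQ using hdvd
  refine ⟨Q, hα, ?_, hQ, ?_⟩
  · have h1 := hQ (Fin.last n)
    rw [Fin.val_last, Nat.sub_self, pow_zero, one_mul] at h1
    have h2 : bn * Q (Fin.last n) = bn * 1 := by rw [← h1, mul_one]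
    exact mul_left_cancel₀ hbn0 h2
  · intro k
    by_cases h0 : b k = 0
    · have h1 := hQ k
      rw [h0, Polynomial.map_zero, mul_zero] at h1
      have h2 := (mul_eq_zero.mp h1.symm).resolve_left hbn0
      rw [h2]; simp
    · have hbk : (b k).map (Int.castRingHom F) ≠ 0 :=
        (Polynomial.map_ne_zero_iff (Int.cast_injective)).mpr h0
      have hQ0 : Q k ≠ 0 := by
        intro h1
        have h2 := hQ k
        rw [h1, mul_zero] at h2
        exact (mul_ne_zero (pow_ne_zero _ T_ne) hbk) h2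
      have h1 := congrArg natDegree (hQ k)
      rw [natDegree_mul (pow_ne_zero _ T_ne) hbk, natDegree_mul hbn0 hQ0, natDegree_pow,
        T_natDegree, hbn, natDegree_map_eq_of_injective Int.cast_injective,
        natDegree_map_eq_of_injective Int.cast_injective] at h1
      have h2 := fuchs_inf' hb hfull k h0
      obtain ⟨m', rfl⟩ : ∃ m', m = m' + 1 := ⟨m - 1, by omega⟩
      simp only [Nat.add_sub_cancel]
      have h3 : (n - (k : ℕ)) * (m' + 1) = (n - (k : ℕ)) * m' + (n - (k : ℕ)) := by ring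
      rw [h3] at h1
      omega


section frob

open NumberField
open Pool.Agent.W401.Cheb (HasFrob xp)

/-- An irrational algebraic number is not fixed by Frobenius at infinitely many primes, at some
geometric point of any given finitely generated ring. -/
theorem exists_frob_point' {n : ℕ} {b : Fin (n + 1) → ℤ[X]} (hfew : FewBad b (1 / 4))
    (S : Finset (AlgebraicClosure ℚ)) (r : AlgebraicClosure ℚ)
    (hr : ∀ q : ℚ, (q : AlgebraicClosure ℚ) ≠ r) (B : ℕ) :
    ∃ (p : ℕ) (_ : Fact p.Prime) (R : Type) (_ : CommRing R) (ι : R →+* AlgebraicClosure ℚ)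
      (φ : R →+* AlgebraicClosure (ZMod p)), B < p ∧ FullMod b p ∧ Function.Injective ι ∧
      (∀ x ∈ S, ∃ y, ι y = x) ∧ ∃ r', ι r' = r ∧ φ r' ^ p ≠ φ r' := by
  classical
  have halg : Algebra.IsAlgebraic ℚ (AlgebraicClosure ℚ) := AlgebraicClosure.isAlgebraic ℚ
  have hgal0 : IsGalois ℚ (AlgebraicClosure ℚ) :=
    { to_isSeparable := inferInstance
      to_normal := normal_iff.mpr fun x =>
        ⟨Algebra.IsIntegral.isIntegral x, IsAlgClosed.splits _⟩ }
  let S' : Finset (AlgebraicClosure ℚ) := insert r S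
  let E₀ := FiniteGaloisIntermediateField.adjoin ℚ (S' : Set (AlgebraicClosure ℚ))
  let E : IntermediateField ℚ (AlgebraicClosure ℚ) := E₀.toIntermediateField
  have hmem : ∀ x ∈ S', x ∈ E := fun x hx =>
    FiniteGaloisIntermediateField.subset_adjoin ℚ (S' : Set (AlgebraicClosure ℚ)) hx
  have hfd : FiniteDimensional ℚ E := E₀.finiteDimensional
  have hgal : IsGalois ℚ E := E₀.isGalois
  have hnf : NumberField E := { to_charZero := inferInstance, to_finiteDimensional := hfd }
  let rE : E := ⟨r, hmem r (Finset.mem_insert_self r S)⟩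
  -- a Galois element moving `r`
  obtain ⟨g₀, hg₀⟩ : ∃ g : Gal(E/ℚ), g rE ≠ rE := by
    by_contra hno
    push Not at hno
    have h1 : rE ∈ IntermediateField.fixedField (⊤ : Subgroup Gal(E/ℚ)) := by
      rintro ⟨g, -⟩
      exact hno g
    rw [IsGalois.fixedField_top, IntermediateField.mem_bot] at h1
    obtain ⟨q, hq⟩ := h1
    apply hr q
    have h3 := congrArg (fun x : E => (x : AlgebraicClosure ℚ)) hq
    simpa [rE] using h3
  -- common denominators
  have hden : ∀ x : AlgebraicClosure ℚ, ∃ d : ℤ, d ≠ 0 ∧ IsIntegral ℤ ((d : AlgebraicClosure ℚ) * x) := by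
    intro x
    have hx : IsAlgebraic ℚ x := Algebra.IsAlgebraic.isAlgebraic x
    have hx' : IsAlgebraic ℤ x := (IsFractionRing.isAlgebraic_iff ℤ ℚ _).mpr hx
    obtain ⟨d, hd, h⟩ := hx'.exists_integral_multiple
    exact ⟨d, hd, by rwa [zsmul_eq_mul] at h⟩
  choose den hden0 hdeni using hden
  let D : ℤ := ∏ x ∈ S', den x
  have hD0 : D ≠ 0 := Finset.prod_ne_zero_iff.mpr fun x _ => hden0 x
  have hDi : ∀ x ∈ S', IsIntegral ℤ ((D : AlgebraicClosure ℚ) * x) := by
    intro x hx
    have h1 : (D : AlgebraicClosure ℚ) * x =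
        ((∏ y ∈ S'.erase x, den y : ℤ) : AlgebraicClosure ℚ) * ((den x : AlgebraicClosure ℚ) * x) := by
      simp only [D]
      rw [← Finset.mul_prod_erase S' den hx]
      push_cast
      ring
    rw [h1]
    exact (isIntegral_algebraMap (R := ℤ) (x := ∏ y ∈ S'.erase x, den y)).mul (hdeni x)
  have hint : ∀ x (hx : x ∈ S'), ∃ o : 𝓞 E, (o : E) = (D : E) * ⟨x, hmem x hx⟩ := by
    intro x hx
    have h1 : IsIntegral ℤ ((D : E) * (⟨x, hmem x hx⟩ : E)) := by
      have h2 := hDi x hx
      have h3 : IsIntegral ℤ (algebraMap E (AlgebraicClosure ℚ) ((D : E) * (⟨x, hmem x hx⟩ : E))) := by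
        rw [map_mul, map_intCast]
        exact h2
      exact (isIntegral_algebraMap_iff (algebraMap E (AlgebraicClosure ℚ)).injective).mp h3
    exact ⟨⟨_, h1⟩, rfl⟩
  obtain ⟨oR, hoR⟩ := hint r (Finset.mem_insert_self r S)
  -- the differences
  have hδ : ∀ g : Gal(E/ℚ), g rE ≠ rE → ∃ M : ℤ, M ≠ 0 ∧ ∃ δ' : 𝓞 E,
      (M : 𝓞 E) = (g • oR - oR) * δ' := by
    intro g hg
    have hδ : g • oR - oR ≠ 0 := by
      intro h0
      have h1 : ((g • oR : 𝓞 E) : E) = (oR : E) := by
        have := congrArg (fun x : 𝓞 E => (x : E)) (sub_eq_zero.mp h0)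
        exact this
      have h2 : ((g • oR : 𝓞 E) : E) = g ((oR : 𝓞 E) : E) := rfl
      rw [h2, hoR, map_mul, map_intCast] at h1
      have h3 : (D : E) ≠ 0 := by exact_mod_cast hD0
      exact hg (mul_left_cancel₀ h3 h1)
    have h1 : IsAlgebraic ℤ (g • oR - oR) :=
      (Algebra.IsIntegral.isIntegral (R := ℤ) (g • oR - oR)).isAlgebraic
    obtain ⟨M, hM0, hM⟩ := h1.exists_nonzero_dvd (mem_nonZeroDivisors_of_ne_zero hδ)
    refine ⟨M, hM0, ?_⟩
    obtain ⟨δ', h⟩ := hM
    exact ⟨δ', by simpa using h⟩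
  choose! M hM0 hM using hδ
  -- a large prime
  obtain ⟨p, hfact, g, hpB, hfullp, hg, hxp⟩ := FewBad.frob (le_refl _) hfew E rE g₀ hg₀
    (max B (max D.natAbs (Finset.univ.sup fun g => (M g).natAbs)))
  simp only [max_lt_iff] at hpB
  obtain ⟨hpB, hpD, hpM'⟩ := hpB
  have hpM : (M g).natAbs < p :=
    lt_of_le_of_lt (Finset.le_sup (f := fun g => (M g).natAbs) (Finset.mem_univ g)) hpM'
  have hp : p.Prime := hfact.out
  have hndvd : ∀ z : ℤ, z ≠ 0 → z.natAbs < p → (z : AlgebraicClosure (ZMod p)) ≠ 0 := by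
    intro z hz hlt h0
    have hch : CharP (AlgebraicClosure (ZMod p)) p :=
      charP_of_injective_algebraMap (algebraMap (ZMod p) _).injective p
    have h1 := (CharP.intCast_eq_zero_iff (AlgebraicClosure (ZMod p)) p z).mp h0
    have h2 := Int.natAbs_dvd_natAbs.mpr h1
    rw [Int.natAbs_natCast] at h2
    have := Nat.le_of_dvd (Int.natAbs_pos.mpr hz) h2
    omega
  obtain ⟨⟨φ₀, hφ₀⟩⟩ : Nonempty {φ : 𝓞 E →+* AlgebraicClosure (ZMod p) // HasFrob p φ g} := by
    unfold xp at hxp
    rw [dif_pos hp] at hxp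
    exact (Nat.card_ne_zero.mp hxp).1
  -- the ring
  let R := Localization.Away (D : 𝓞 E)
  have hDO : (D : 𝓞 E) ≠ 0 := by exact_mod_cast hD0
  have hle : Submonoid.powers (D : 𝓞 E) ≤ nonZeroDivisors (𝓞 E) :=
    powers_le_nonZeroDivisors_of_noZeroDivisors hDO
  have hDu : IsUnit ((algebraMap (𝓞 E) E) (D : 𝓞 E)) := by
    rw [isUnit_iff_ne_zero, map_intCast]
    exact_mod_cast hD0
  have hDu' : IsUnit (φ₀ (D : 𝓞 E)) := by
    rw [isUnit_iff_ne_zero, map_intCast]
    exact hndvd D hD0 hpD
  let ιE : R →+* E := IsLocalization.Away.lift (D : 𝓞 E) hDu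
  let ι : R →+* AlgebraicClosure ℚ := (algebraMap E (AlgebraicClosure ℚ)).comp ιE
  let φ : R →+* AlgebraicClosure (ZMod p) := IsLocalization.Away.lift (D : 𝓞 E) hDu'
  have hιE : ∀ x : 𝓞 E, ιE (algebraMap (𝓞 E) R x) = (x : E) := fun x =>
    IsLocalization.Away.lift_eq _ hDu x
  have hφe : ∀ x : 𝓞 E, φ (algebraMap (𝓞 E) R x) = φ₀ x := fun x =>
    IsLocalization.Away.lift_eq _ hDu' x
  have hιEinj : Function.Injective ιE := by
    unfold ιE IsLocalization.Away.lift
    rw [IsLocalization.lift_injective_iff]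
    intro x y
    constructor
    · intro h
      rw [IsLocalization.injective R hle h]
    · intro h
      have h2 : x = y := RingOfIntegers.coe_injective h
      rw [h2]
  have hel : ∀ x (hx : x ∈ S'), ∃ y : R, ι y = x ∧ ∀ o : 𝓞 E, (o : E) = (D : E) * ⟨x, hmem x hx⟩ →
      algebraMap (𝓞 E) R (D : 𝓞 E) * y = algebraMap (𝓞 E) R o := by
    intro x hx
    obtain ⟨o, ho⟩ := hint x hx
    let dd : Submonoid.powers (D : 𝓞 E) := ⟨(D : 𝓞 E), 1, pow_one _⟩
    let y : R := IsLocalization.mk' R o dd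
    have hy : algebraMap (𝓞 E) R (D : 𝓞 E) * y = algebraMap (𝓞 E) R o :=
      IsLocalization.mk'_spec' R o dd
    refine ⟨y, ?_, fun o' ho' => ?_⟩
    · have h1 := congrArg ιE hy
      rw [map_mul, hιE, hιE, ho] at h1
      have h2 : ((D : 𝓞 E) : E) = (D : E) := by simp
      rw [h2] at h1
      have h3 : (D : E) ≠ 0 := by exact_mod_cast hD0
      have h4 := mul_left_cancel₀ h3 h1
      show algebraMap E (AlgebraicClosure ℚ) (ιE y) = x
      rw [h4]
      rfl
    · have : o' = o := RingOfIntegers.coe_injective (ho'.trans ho.symm)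
      rw [this]
      exact hy
  refine ⟨p, hfact, R, inferInstance, ι, φ, hpB, hfullp, ?_, ?_, ?_⟩
  · exact (algebraMap E (AlgebraicClosure ℚ)).injective.comp hιEinj
  · intro x hx
    obtain ⟨y, hy, -⟩ := hel x (Finset.mem_insert_of_mem hx)
    exact ⟨y, hy⟩
  · obtain ⟨y, hy, hy2⟩ := hel r (Finset.mem_insert_self r S)
    refine ⟨y, hy, fun hfix => ?_⟩
    have h1 := congrArg φ (hy2 oR hoR)
    rw [map_mul, hφe, hφe, map_intCast] at h1
    -- Frobenius
    have h2 : φ₀ oR ^ p = φ₀ oR := by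
      rw [← h1, mul_pow, hfix]
      congr 1
      have hch : CharP (AlgebraicClosure (ZMod p)) p :=
        charP_of_injective_algebraMap (algebraMap (ZMod p) _).injective p
      have h3 : ((D : ℤ) : AlgebraicClosure (ZMod p)) =
          algebraMap (ZMod p) (AlgebraicClosure (ZMod p)) ((D : ℤ) : ZMod p) := by
        rw [map_intCast]
      rw [h3, ← map_pow, ZMod.pow_card]
    have h3 : φ₀ (g • oR) = φ₀ oR := by rw [hφ₀ oR, h2]
    have h4 : φ₀ (g • oR - oR) = 0 := by
      rw [map_sub, h3, sub_self]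
    obtain ⟨δ', hδ'⟩ := hM g hg
    have h5 : φ₀ (M g : 𝓞 E) = 0 := by rw [hδ', map_mul, h4, zero_mul]
    rw [map_intCast] at h5
    exact hndvd (M g) (hM0 g hg) hpM h5


end frob

section

variable {m n : ℕ} {b : Fin (n + 1) → ℤ[X]} {α : Fin m → AlgebraicClosure ℚ}
  {Q : Fin (n + 1) → (AlgebraicClosure ℚ)[X]}

/-- All the data needed at a geometric point. -/
theorem frob_data' (hb : b (Fin.last n) ≠ 0) (hfull : FewBad b (1 / 4)) (hF : IsFuchs b α Q)
    (r : AlgebraicClosure ℚ) (hr : ¬ ∃ q : ℚ, (q : AlgebraicClosure ℚ) = r) :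
    ∃ (p : ℕ) (_ : Fact p.Prime) (R : Type) (_ : CommRing R) (ι : R →+* AlgebraicClosure ℚ)
      (φ : R →+* AlgebraicClosure (ZMod p)) (α' : Fin m → R) (Q' : Fin (n + 1) → R[X]) (r' : R)
      (f : Fin n → (AlgebraicClosure (ZMod p))[X]),
      Function.Injective ι ∧ (∀ j, ι (α' j) = α j) ∧ (∀ k, (Q' k).map ι = Q k) ∧ ι r' = r ∧
      φ r' ^ p ≠ φ r' ∧ Function.Injective (fun j => φ (α' j)) ∧
      (∀ j, ∑ k : Fin (n + 1), (b k).map (Int.castRingHom (AlgebraicClosure (ZMod p))) *
        derivative^[(k : ℕ)] (f j) = 0) ∧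
      (Matrix.of fun j i : Fin n => derivative^[(i : ℕ)] (f j)).det ≠ 0 ∧
      (∀ y : (AlgebraicClosure (ZMod p))[X],
        ∑ k : Fin (n + 1), (b k).map (Int.castRingHom (AlgebraicClosure (ZMod p))) *
          derivative^[(k : ℕ)] y = 0 →
        ∑ k : Fin (n + 1), (Q' k).map φ * (T (fun j => φ (α' j)) ^ (k : ℕ) *
          derivative^[(k : ℕ)] y) = 0) := by
  classical
  push Not at hr
  let S : Finset (AlgebraicClosure ℚ) := (Finset.univ.image α) ∪
    (Finset.univ.image fun x : Fin m × Fin m => (α x.1 - α x.2)⁻¹) ∪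
    (Finset.univ.biUnion fun k : Fin (n + 1) => (Q k).support.image (Q k).coeff)
  obtain ⟨p, hfact, R, _, ι, φ, hpB, hfullp, hι, hS, r', hr', hφr⟩ :=
    exists_frob_point' hfull S r hr (b (Fin.last n)).leadingCoeff.natAbs
  have hα' : ∀ j, ∃ x, ι x = α j := fun j => hS _ (by
    simp only [S, Finset.mem_union, Finset.mem_image, Finset.mem_univ, true_and]
    exact Or.inl (Or.inl ⟨j, rfl⟩))
  choose α' hα' using hα'
  have hinv : ∀ i j, ∃ x, ι x = (α i - α j)⁻¹ := fun i j => hS _ (by
    simp only [S, Finset.mem_union, Finset.mem_image, Finset.mem_univ, true_and]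
    exact Or.inl (Or.inr ⟨(i, j), rfl⟩))
  have hQl : ∀ k, ∃ P : R[X], P.map ι = Q k := fun k => exists_lift ι (Q k) fun i hi => hS _ (by
    simp only [S, Finset.mem_union, Finset.mem_biUnion, Finset.mem_univ, true_and]
    exact Or.inr ⟨k, Finset.mem_image.mpr ⟨i, hi, rfl⟩⟩)
  choose Q' hQ' using hQl
  have hαe : (fun j => ι (α' j)) = α := funext hα'
  have hch : CharP (AlgebraicClosure (ZMod p)) p :=
    charP_of_injective_algebraMap (algebraMap (ZMod p) _).injective p
  have hbK := map_ne_of_large (K := AlgebraicClosure (ZMod p)) hb hpB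
  obtain ⟨f, hf, hdet⟩ := sols (K := AlgebraicClosure (ZMod p)) hfullp hbK
  have hinj : Function.Injective (fun j => φ (α' j)) := by
    intro i j hij
    by_contra hne
    obtain ⟨x, hx⟩ := hinv i j
    have h1 : (α' i - α' j) * x = 1 := by
      apply hι
      rw [map_mul, map_sub, hα', hα', hx, map_one]
      exact mul_inv_cancel₀ (sub_ne_zero.mpr fun h => hne (hF.inj h))
    have h2 := congrArg φ h1
    simp only at hij
    rw [map_mul, map_sub, hij, sub_self, zero_mul, map_one] at h2
    exact zero_ne_one h2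
  refine ⟨p, hfact, R, inferInstance, ι, φ, α', Q', r', f, hι, hα', hQ', hr', hφr, hinj, hf,
    hdet, fun y hy => ?_⟩
  have hcast : ι.comp (Int.castRingHom R) = Int.castRingHom (AlgebraicClosure ℚ) :=
    RingHom.ext_int _ _
  have hcast' : φ.comp (Int.castRingHom R) = Int.castRingHom (AlgebraicClosure (ZMod p)) :=
    RingHom.ext_int _ _
  have hbQ : ∀ k : Fin (n + 1), T α' ^ (n - (k : ℕ)) * (b k).map (Int.castRingHom R) =
      (b (Fin.last n)).map (Int.castRingHom R) * Q' k := by
    intro k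
    apply map_injective ι hι
    rw [Polynomial.map_mul, Polynomial.map_mul, Polynomial.map_pow, T_map, Polynomial.map_map,
      Polynomial.map_map, hcast, hQ', hαe]
    exact hF.eq k
  apply mul_left_cancel₀ hbK
  rw [mul_zero, Finset.mul_sum]
  have h2 := congrArg (fun x => T (fun j => φ (α' j)) ^ n * x) hy
  simp only [mul_zero, Finset.mul_sum] at h2
  rw [← h2]
  refine Finset.sum_congr rfl fun k _ => ?_
  have h4 := congrArg (Polynomial.map φ) (hbQ k)
  rw [Polynomial.map_mul, Polynomial.map_mul, Polynomial.map_pow, T_map, Polynomial.map_map,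
    Polynomial.map_map, hcast'] at h4
  have h3 : T (fun j => φ (α' j)) ^ n =
      T (fun j => φ (α' j)) ^ (k : ℕ) * T (fun j => φ (α' j)) ^ (n - (k : ℕ)) := by
    rw [← pow_add]
    congr 1
    have := k.isLt
    omega
  rw [h3]
  linear_combination (-(T (fun j => φ (α' j)) ^ (k : ℕ) * derivative^[(k : ℕ)] y)) * h4

/-- The exponents at the finite points are rational. -/
theorem loc_rat' (hb : b (Fin.last n) ≠ 0) (hfull : FewBad b (1 / 4)) (hF : IsFuchs b α Q) (j : Fin m)
    (r : AlgebraicClosure ℚ) (hr : (indLoc α Q j).eval r = 0) :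
    ∃ q : ℚ, (q : AlgebraicClosure ℚ) = r := by
  by_contra hcon
  obtain ⟨p, hfact, R, _, ι, φ, α', Q', r', f, hι, hα', hQ', hr', hφr, hinj, hf, hdet, hsol⟩ :=
    frob_data' hb hfull hF r hcon
  have hch : CharP (AlgebraicClosure (ZMod p)) p :=
    charP_of_injective_algebraMap (algebraMap (ZMod p) _).injective p
  have hQlast : Q' (Fin.last n) = 1 := by
    apply map_injective ι hι
    rw [hQ', hF.last, Polynomial.map_one]
  have hαe : (fun j => ι (α' j)) = α := funext hα'
  have hQe : (fun k => (Q' k).map ι) = Q := funext hQ'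
  -- the value
  have h1 := loc_point (p := p)
    (b := fun k => (b k).map (Int.castRingHom (AlgebraicClosure (ZMod p)))) hf hdet
    (x₀ := φ (α' j)) (c := fun k => (Q' k).map φ * Tc (fun j => φ (α' j)) j ^ (k : ℕ))
    (fun y hy => by
      rw [← hsol y hy]
      refine Finset.sum_congr rfl fun k _ => ?_
      rw [T_eq (α := fun j => φ (α' j)) j, mul_pow]
      ring) (by
      intro h0
      have h2 := congrFun h0 (Fin.last n)
      simp only [Pi.zero_apply, hQlast, Polynomial.map_one, one_mul, eval_pow] at h2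
      exact pow_ne_zero _ (Tc_eval_ne hinj j) h2)
  obtain ⟨-, h2⟩ := h1
  have h3 : dsum (fun k : Fin (n + 1) =>
      ((Q' k).map φ * Tc (fun j => φ (α' j)) j ^ (k : ℕ)).eval (φ (α' j))) =
      (indLoc α' Q' j).map φ := by
    rw [indLoc_map]
    unfold dsum indLoc
    refine Finset.sum_congr rfl fun k _ => ?_
    simp only
    rw [eval_mul, eval_pow, ← derivative_T_eval (fun j => φ (α' j)) j]
  have h4 : (indLoc α' Q' j).eval r' = 0 := by
    apply hι
    rw [map_zero, ← eval_map_apply, indLoc_map, hαe, hQe, hr']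
    exact hr
  obtain ⟨c, hc⟩ := h2 (φ r') (by
    rw [h3, eval_map_apply, h4, map_zero])
  apply hφr
  rw [← hc, ← map_pow, ZMod.pow_card]

/-- The degrees of the solutions at infinity are rational. -/
theorem inf_rat' (hb : b (Fin.last n) ≠ 0) (hfull : FewBad b (1 / 4)) (hF : IsFuchs b α Q) (hm : 0 < m)
    (r : AlgebraicClosure ℚ) (hr : (indInf m Q).eval r = 0) :
    ∃ q : ℚ, (q : AlgebraicClosure ℚ) = r := by
  by_contra hcon
  obtain ⟨p, hfact, R, _, ι, φ, α', Q', r', f, hι, hα', hQ', hr', hφr, hinj, hf, hdet, hsol⟩ :=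
    frob_data' hb hfull hF r hcon
  have hch : CharP (AlgebraicClosure (ZMod p)) p :=
    charP_of_injective_algebraMap (algebraMap (ZMod p) _).injective p
  have hQlast : Q' (Fin.last n) = 1 := by
    apply map_injective ι hι
    rw [hQ', hF.last, Polynomial.map_one]
  have hQe : (fun k => (Q' k).map ι) = Q := funext hQ'
  have hQdeg : ∀ k : Fin (n + 1), ((Q' k).map φ).natDegree ≤ (n - (k : ℕ)) * (m - 1) := by
    intro k
    refine natDegree_map_le.trans ?_
    rw [← natDegree_map_eq_of_injective hι, hQ']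
    exact hF.deg k
  have hcoeff : ∀ k : Fin (n + 1), n * m =
      ((n - (k : ℕ)) * (m - 1)) + ((n - (k : ℕ)) + (k : ℕ) * m) := by
    intro k
    have hk := k.isLt
    obtain ⟨m', rfl⟩ : ∃ m', m = m' + 1 := ⟨m - 1, by omega⟩
    obtain ⟨t, ht⟩ : ∃ t, n = t + (k : ℕ) := ⟨n - k, by omega⟩
    have h1 : n - (k : ℕ) = t := by omega
    rw [h1, Nat.add_sub_cancel]
    conv_lhs => rw [ht]
    ring
  have hTd : ∀ k : Fin (n + 1), (X ^ (n - (k : ℕ)) * T (fun j => φ (α' j)) ^ (k : ℕ)).natDegree =
      (n - (k : ℕ)) + (k : ℕ) * m := by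
    intro k
    rw [natDegree_mul (pow_ne_zero _ X_ne_zero) (pow_ne_zero _ T_ne), natDegree_X_pow,
      natDegree_pow, T_natDegree]
  have hTl : ∀ k : Fin (n + 1), (X ^ (n - (k : ℕ)) * T (fun j => φ (α' j)) ^ (k : ℕ)).coeff
      ((n - (k : ℕ)) + (k : ℕ) * m) = 1 := by
    intro k
    have h1 := ((monic_X_pow (n - (k : ℕ))).mul
      ((T_monic (α := fun j => φ (α' j))).pow (k : ℕ))).coeff_natDegree
    rwa [hTd k] at h1
  have hG : ∀ k : Fin (n + 1), ((Q' k).map φ *
      (X ^ (n - (k : ℕ)) * T (fun j => φ (α' j)) ^ (k : ℕ))).coeff (n * m) =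
      ((Q' k).map φ).coeff ((n - (k : ℕ)) * (m - 1)) := by
    intro k
    rw [hcoeff k, coeff_mul_add_eq_of_natDegree_le (hQdeg k) (hTd k).le, hTl, mul_one]
  have h1 := inf_point (p := p)
    (b := fun k => (b k).map (Int.castRingHom (AlgebraicClosure (ZMod p)))) hf hdet
    (g := fun k => (Q' k).map φ * (X ^ (n - (k : ℕ)) * T (fun j => φ (α' j)) ^ (k : ℕ)))
    (D := n * m)
    (fun k => by
      refine natDegree_mul_le.trans ?_
      rw [hTd, hcoeff k]
      have := hQdeg k
      omega)
    (fun y hy => by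
      have h2 := congrArg (fun x => X ^ n * x) (hsol y hy)
      simp only [mul_zero, Finset.mul_sum] at h2
      rw [← h2]
      refine Finset.sum_congr rfl fun k _ => ?_
      have h3 : (X : (AlgebraicClosure (ZMod p))[X]) ^ n = X ^ (n - (k : ℕ)) * X ^ (k : ℕ) := by
        rw [← pow_add]
        congr 1
        have := k.isLt
        omega
      rw [h3]
      ring) (by
      intro h0
      have h2 := congrFun h0 (Fin.last n)
      simp only [Pi.zero_apply] at h2
      rw [hG, hQlast] at h2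
      simp at h2)
  obtain ⟨-, h2⟩ := h1
  have h3 : dsum (fun k : Fin (n + 1) => ((Q' k).map φ *
      (X ^ (n - (k : ℕ)) * T (fun j => φ (α' j)) ^ (k : ℕ))).coeff (n * m)) =
      (indInf m Q').map φ := by
    rw [indInf_map]
    unfold dsum indInf
    refine Finset.sum_congr rfl fun k _ => ?_
    simp only
    rw [hG]
  have h4 : (indInf m Q').eval r' = 0 := by
    apply hι
    rw [map_zero, ← eval_map_apply, indInf_map, hQe, hr']
    exact hr
  obtain ⟨c, hc⟩ := h2 (φ r') (by
    rw [h3, eval_map_apply, h4, map_zero])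
  apply hφr
  rw [← hc, ← map_pow, ZMod.pow_card]

/-- Katz, Honda: an operator with full bases of rational solutions modulo almost all primes has
rational local exponents. -/
theorem hasExps' (hb : b (Fin.last n) ≠ 0) (hfull : FewBad b (1 / 4)) (hF : IsFuchs b α Q) (hm : 0 < m) :
    ∃ (lam : Fin m → Fin n → ℚ) (phi : Fin n → ℚ), HasExps α Q lam phi := by
  have hloc : ∀ j, ∃ lam : Fin n → ℚ, indLoc α Q j =
      C ((derivative (T α)).eval (α j) ^ n) *
        ∏ l, (X - C ((lam l : ℚ) : AlgebraicClosure ℚ)) := by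
    intro j
    have h1 : indLoc α Q j = dsum (fun k : Fin (n + 1) => (Q k).eval (α j) *
        (derivative (T α)).eval (α j) ^ (k : ℕ)) := rfl
    have h2 := dsum_top (fun k : Fin (n + 1) => (Q k).eval (α j) *
        (derivative (T α)).eval (α j) ^ (k : ℕ)) (by
      rw [hF.last, eval_one, one_mul, derivative_T_eval]
      exact pow_ne_zero _ (Tc_eval_ne hF.inj j))
    rw [← h1] at h2
    obtain ⟨lam, hlam⟩ := split_rat (n := n) (indLoc α Q j) h2.1
      (fun r _ hr => loc_rat' hb hfull hF j r hr)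
    refine ⟨lam, ?_⟩
    rw [h2.2, hF.last, eval_one, one_mul, Fin.val_last] at hlam
    exact hlam
  have hinf : ∃ phi : Fin n → ℚ, indInf m Q =
      ∏ l, (X - C ((phi l : ℚ) : AlgebraicClosure ℚ)) := by
    have h1 : indInf m Q = dsum (fun k : Fin (n + 1) =>
        (Q k).coeff ((n - (k : ℕ)) * (m - 1))) := rfl
    have h3 : (Q (Fin.last n)).coeff ((n - ((Fin.last n : Fin (n + 1)) : ℕ)) * (m - 1)) = 1 := by
      rw [hF.last]; simp
    have h2 := dsum_top (fun k : Fin (n + 1) => (Q k).coeff ((n - (k : ℕ)) * (m - 1))) (by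
      rw [h3]; exact one_ne_zero)
    rw [← h1] at h2
    obtain ⟨phi, hphi⟩ := split_rat (n := n) (indInf m Q) h2.1
      (fun r _ hr => inf_rat' hb hfull hF hm r hr)
    refine ⟨phi, ?_⟩
    rw [h2.2, h3, map_one, one_mul] at hphi
    exact hphi
  choose lam hlam using hloc
  obtain ⟨phi, hphi⟩ := hinf
  exact ⟨lam, phi, hlam, hphi⟩

end


end Pool.Agent.Y227.SO
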