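import Pool.Agent.Y227.SO.Cosets
import Pool.Agent.Y227.SO.Katz

set_option autoImplicit false

/-!
The density theorem for scalar operators.
-/

open Polynomial Pool.Agent.W432.WB

namespace Pool.Agent.Y227.SO

open Pool.Agent.W432.TC Pool.Agent.W432.HK Pool.Agent.Y227.SS

variable {m n : ℕ}

/-- For every `a` prime to `N` the conjugate exponents `a * lam`, `a * phi` satisfy the Weyl
inequalities and are the weights modulo the integers of a semistable parabolic bundle of parabolic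
degree zero, and of a stable one if `∑ b k ∂ ^ k` is irreducible. -/
def ConjGood (b : Fin (n + 1) → ℤ[X]) (lam : Fin m → Fin n → ℚ) (phi : Fin n → ℚ) (N : ℕ) : Prop :=
  ∀ a : ℤ, IsCoprime a (N : ℤ) → WeylBoth (fun i => (a : ℝ) * expVec lam phi i) ∧
    SemistableWeights ℂ (fun j l => (a : ℝ) * lam j l) (fun l => (a : ℝ) * phi l) ∧
    (¬ Reducible b →
      StableWeights ℂ (fun j l => (a : ℝ) * lam j l) (fun l => (a : ℝ) * phi l))

/-- The density theorem. -/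
theorem density (m n : ℕ) (hm : 1 ≤ m) (hn : 1 ≤ n) :
    ∃ (ε : ℝ) (𝒟 : Finset (TorsionCoset m n)), 0 < ε ∧
      (∀ C ∈ 𝒟, C.Connected ∧ traceRelation m n ∈ C.relations ∧ C.CodimGe (n + 1) ∧
        ∀ z, C.Mem z → WeylBoth z ∧
          SemistableWeights ℂ (fun j l => z (Sum.inl (j, l))) (fun l => z (Sum.inr l))) ∧
      ∀ (b : Fin (n + 1) → ℤ[X]) (α : Fin m → AlgebraicClosure ℚ),
        (∀ lam phi N, FuchsianWith b α lam phi → CommonDen lam phi N → BadPrimes b N ε ∨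
          (ConjGood b lam phi N ∧ (FullAlg b ∨ ∃ C ∈ 𝒟, C.Mem (expVec lam phi)))) ∧
        (ZerosAmong b α → FewBad b ε → ∃ lam phi, FuchsianWith b α lam phi ∧
          (∃ N, CommonDen lam phi N) ∧ (∀ N, CommonDen lam phi N → ConjGood b lam phi N) ∧
          (FullAlg b ∨ ∃ C ∈ 𝒟, C.Mem (expVec lam phi))) := by
  classical
  obtain ⟨ε₀, 𝒟, hε₀, hgap, hC, hcov⟩ := cosets_uniform (m := m) (n := n) hm hn
  have hin : ∀ z, (∃ C ∈ 𝒟, InCoset C.1 C.2 z) →
      ∃ C ∈ 𝒟.image fun C => (⟨C.1, C.2⟩ : TorsionCoset m n), C.Mem z := by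
    rintro z ⟨C, hC, hz⟩
    exact ⟨⟨C.1, C.2⟩, Finset.mem_image_of_mem _ hC, hz⟩
  have key : ∀ (b : Fin (n + 1) → ℤ[X]) (α : Fin m → AlgebraicClosure ℚ)
      (lam : Fin m → Fin n → ℚ) (phi : Fin n → ℚ) (N : ℕ), FuchsianWith b α lam phi →
      CommonDen lam phi N → ¬ BadPrimes b N ε₀ → ConjGood b lam phi N ∧
        (FullAlg b ∨ ∃ C ∈ 𝒟.image fun C => (⟨C.1, C.2⟩ : TorsionCoset m n),
          C.Mem (expVec lam phi)) := by
    rintro b α lam phi N ⟨hb, Q, hF, hE⟩ hN hnb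
    have hop : OpData b α Q (Sum.elim (fun p => lam p.1 p.2) phi : ExponentIndex m n → ℚ) N :=
      ⟨hb, hF, hE, hN.1, by
        rintro (⟨j, l⟩ | l)
        · exact hN.2.1 j l
        · exact hN.2.2 l⟩
    refine ⟨fun a ha => hgap b α Q _ N hop hnb a ha, ?_⟩
    by_cases hA : FullAlg b
    · exact Or.inl hA
    · exact Or.inr (hin _ (hcov _ ⟨b, α, Q, N, hop, hnb, hA⟩))
  refine ⟨min (ε₀ / 2) (1 / 4), 𝒟.image fun C => ⟨C.1, C.2⟩, lt_min (by positivity) (by norm_num),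
    ?_, fun b α => ⟨?_, ?_⟩⟩
  · intro C' hC'
    obtain ⟨C, hC1, rfl⟩ := Finset.mem_image.mp hC'
    obtain ⟨h1, h2, ⟨k, hk, hk2⟩, h4⟩ := hC C hC1
    refine ⟨fun d k hd hk => h1 d k hd hk, h2, ⟨k, hk2, fun c hc => ?_⟩, h4⟩
    rw [Fintype.linearIndependent_iff] at hk
    apply hk c
    ext1 i
    simpa using hc i
  · intro lam phi N hF hN
    refine or_iff_not_imp_left.mpr fun hnb => key b α lam phi N hF hN fun h => hnb (h.mono ?_)
    exact (min_le_left _ _).trans (by linarith)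
  · rintro ⟨hb, hα, hroot⟩ hfew
    have hfew4 : FewBad b (1 / 4) := hfew.mono (min_le_right _ _)
    have hinf : InfGood b := fun P => hfew4.inf (by norm_num) P
    obtain ⟨Q, hF⟩ := isFuchs' hb hinf hm hα hroot
    obtain ⟨lam, phi, hE⟩ := hasExps' hb hfew4 hF hm
    have hFW : FuchsianWith b α lam phi := ⟨hb, Q, hF, hE⟩
    have hnb : ∀ N, CommonDen lam phi N → ¬ BadPrimes b N ε₀ := fun N hN hbad =>
      hbad.dens hN.1 hε₀ (hfew.mono (min_le_left _ _))
    obtain ⟨N, hN⟩ := exists_commonDen lam phi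
    exact ⟨lam, phi, hFW, ⟨N, hN⟩, fun N' hN' => (key b α lam phi N' hFW hN' (hnb N' hN')).1,
      (key b α lam phi N hFW hN (hnb N hN)).2⟩

end Pool.Agent.Y227.SO
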