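import Pool.Agent.Y227.SO.Sub
import Pool.Agent.W432.WB.Descent

set_option autoImplicit false

/-!
Invariant subspaces of the companion system give factorisations of the operator.
-/

open Polynomial

namespace Pool.Agent.Y227.SO

section seq

variable {K : Type*} [Field K] {n s : ℕ}

/-- The operator `∑ k < N, w k ∂ ^ k` applied to `f`. -/
noncomputable def app (N : ℕ) (w : ℕ → K[X]) (f : K[X]) : K[X] :=
  ∑ l ∈ Finset.range N, w l * derivative^[l] f

/-- The action of `a n * ∂` on the coefficient vectors modulo the operator `∑ k ≤ n, a k ∂ ^ k`. -/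
noncomputable def dl (n : ℕ) (a w : ℕ → K[X]) : ℕ → K[X] := fun l =>
  if l < n then a n * derivative (w l) + (if l = 0 then 0 else a n * w (l - 1)) - w (n - 1) * a l
  else 0

lemma sum_shift (n : ℕ) (hn : 0 < n) (x y : ℕ → K[X]) :
    ∑ l ∈ Finset.range n, (if l = 0 then 0 else x (l - 1)) * y l + x (n - 1) * y n =
      ∑ l ∈ Finset.range n, x l * y (l + 1) := by
  obtain ⟨t, rfl⟩ : ∃ t, n = t + 1 := ⟨n - 1, by omega⟩
  rw [Finset.sum_range_succ', Finset.sum_range_succ]
  simp

lemma app_dl (hn : 0 < n) (a w : ℕ → K[X]) (f : K[X]) :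
    a n * derivative (app n w f) = app n (dl n a w) f +
      w (n - 1) * (app n a f + a n * derivative^[n] f) := by
  unfold app
  rw [derivative_sum, Finset.mul_sum]
  have h1 : ∀ l ∈ Finset.range n, a n * derivative (w l * derivative^[l] f) =
      a n * derivative (w l) * derivative^[l] f + a n * (w l * derivative^[l + 1] f) := by
    intro l _
    rw [derivative_mul, Function.iterate_succ_apply']
    ring
  rw [Finset.sum_congr rfl h1, Finset.sum_add_distrib, ← Finset.mul_sum,
    ← sum_shift n hn w (fun l => derivative^[l] f)]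
  have h2 : ∀ l ∈ Finset.range n, dl n a w l * derivative^[l] f =
      a n * derivative (w l) * derivative^[l] f +
      a n * ((if l = 0 then 0 else w (l - 1)) * derivative^[l] f) -
      w (n - 1) * (a l * derivative^[l] f) := by
    intro l hl
    unfold dl
    rw [if_pos (Finset.mem_range.mp hl)]
    split_ifs <;> ring
  rw [Finset.sum_congr rfl h2, Finset.sum_sub_distrib, Finset.sum_add_distrib, ← Finset.mul_sum,
    ← Finset.mul_sum]
  ring

/-- Orthogonality to the rows of `v`. -/
def Orth (n : ℕ) (v : Fin s → ℕ → K[X]) (w : ℕ → K[X]) : Prop :=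
  ∀ i, ∑ l ∈ Finset.range n, w l * v i l = 0

lemma orth_dl {a : ℕ → K[X]} (hn : 0 < n) {v : Fin s → ℕ → K[X]} {c : K[X]} (hc : c ≠ 0)
    {G : Matrix (Fin s) (Fin s) K[X]}
    (hG : ∀ i, ∀ l < n, c * (a n * derivative (v i l) - (if l + 1 < n then a n * v i (l + 1) else
      - ∑ k ∈ Finset.range n, a k * v i k)) = ∑ j, G i j * v j l)
    {w : ℕ → K[X]} (hw : Orth n v w) : Orth n v (dl n a w) := by
  intro i
  apply mul_left_cancel₀ hc
  rw [mul_zero]
  have h1 : ∑ l ∈ Finset.range n, w l * (c * (a n * derivative (v i l) -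
      (if l + 1 < n then a n * v i (l + 1) else - ∑ k ∈ Finset.range n, a k * v i k))) = 0 := by
    have h2 : ∀ l ∈ Finset.range n, w l * (c * (a n * derivative (v i l) -
      (if l + 1 < n then a n * v i (l + 1) else - ∑ k ∈ Finset.range n, a k * v i k))) =
        ∑ j, G i j * (w l * v j l) := by
      intro l hl
      rw [hG i l (Finset.mem_range.mp hl), Finset.mul_sum]
      exact Finset.sum_congr rfl fun j _ => by ring
    rw [Finset.sum_congr rfl h2, Finset.sum_comm]
    refine Finset.sum_eq_zero fun j _ => ?_
    rw [← Finset.mul_sum, hw j, mul_zero]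
  have h3 : ∑ l ∈ Finset.range n, derivative (w l) * v i l =
      - ∑ l ∈ Finset.range n, w l * derivative (v i l) := by
    have h4 := congrArg derivative (hw i)
    rw [derivative_sum, derivative_zero] at h4
    simp only [derivative_mul] at h4
    rw [Finset.sum_add_distrib] at h4
    exact eq_neg_of_add_eq_zero_left h4
  -- the sum with the next coordinates
  let y : ℕ → K[X] := fun l => if l < n then v i l else 0
  have h5 := sum_shift n hn w y
  have hyn : y n = 0 := if_neg (lt_irrefl n)
  rw [hyn, mul_zero, add_zero] at h5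
  have h6 : ∑ l ∈ Finset.range n, (if l = 0 then 0 else w (l - 1)) * y l =
      ∑ l ∈ Finset.range n, (if l = 0 then 0 else w (l - 1)) * v i l := by
    refine Finset.sum_congr rfl fun l hl => ?_
    simp only [y, if_pos (Finset.mem_range.mp hl)]
  rw [h6] at h5
  have h7 : ∑ l ∈ Finset.range n, w l * (if l + 1 < n then a n * v i (l + 1) else
      - ∑ k ∈ Finset.range n, a k * v i k) = a n * ∑ l ∈ Finset.range n, w l * y (l + 1) -
        w (n - 1) * ∑ k ∈ Finset.range n, a k * v i k := by
    obtain ⟨t, rfl⟩ : ∃ t, n = t + 1 := ⟨n - 1, by omega⟩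
    rw [Finset.sum_range_succ, Finset.sum_range_succ (fun l => w l * y (l + 1))]
    have h8 : ∀ l ∈ Finset.range t, w l * (if l + 1 < t + 1 then a (t + 1) * v i (l + 1) else
      - ∑ k ∈ Finset.range (t + 1), a k * v i k) = a (t + 1) * (w l * y (l + 1)) := by
      intro l hl
      have h9 : l + 1 < t + 1 := by have := Finset.mem_range.mp hl; omega
      simp only [y, if_pos h9]
      ring
    rw [Finset.sum_congr rfl h8, ← Finset.mul_sum, hyn, if_neg (lt_irrefl _), Nat.add_sub_cancel]
    ring
  have h10 : ∀ l ∈ Finset.range n, dl n a w l * v i l = a n * (derivative (w l) * v i l) +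
      a n * ((if l = 0 then 0 else w (l - 1)) * v i l) - w (n - 1) * (a l * v i l) := by
    intro l hl
    unfold dl
    rw [if_pos (Finset.mem_range.mp hl)]
    split_ifs <;> ring
  have h11 : ∑ l ∈ Finset.range n, w l * (c * (a n * derivative (v i l) -
      (if l + 1 < n then a n * v i (l + 1) else - ∑ k ∈ Finset.range n, a k * v i k))) =
      c * (a n * ∑ l ∈ Finset.range n, w l * derivative (v i l) -
        ∑ l ∈ Finset.range n, w l * (if l + 1 < n then a n * v i (l + 1) else
          - ∑ k ∈ Finset.range n, a k * v i k)) := by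
    rw [Finset.mul_sum, ← Finset.sum_sub_distrib, Finset.mul_sum]
    exact Finset.sum_congr rfl fun l _ => by ring
  rw [h11, h7] at h1
  rw [Finset.sum_congr rfl h10, Finset.sum_sub_distrib, Finset.sum_add_distrib, ← Finset.mul_sum,
    ← Finset.mul_sum, ← Finset.mul_sum, h3, h5]
  linear_combination -h1

/-- The iterates have a triangular shape. -/
lemma dl_iter {a w : ℕ → K[X]} {d : ℕ} (hd : d < n) (hw : ∀ l, d < l → w l = 0) (k : ℕ)
    (hk : d + k < n) :
    (dl n a)^[k] w (d + k) = a n ^ k * w d ∧ ∀ l, d + k < l → (dl n a)^[k] w l = 0 := by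
  induction k with
  | zero => exact ⟨by simp, hw⟩
  | succ k ih =>
    obtain ⟨ih1, ih2⟩ := ih (by omega)
    rw [Function.iterate_succ_apply']
    have h1 : (dl n a)^[k] w (n - 1) = 0 := ih2 _ (by omega)
    constructor
    · show dl n a ((dl n a)^[k] w) (d + (k + 1)) = _
      unfold dl
      rw [if_pos hk, if_neg (by omega)]
      change a n * derivative ((dl n a)^[k] w (d + (k + 1))) +
        a n * (dl n a)^[k] w (d + (k + 1) - 1) - (dl n a)^[k] w (n - 1) * a (d + (k + 1)) = _
      rw [ih2 (d + (k + 1)) (by omega), h1, show d + (k + 1) - 1 = d + k by omega, ih1, pow_succ]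
      simp
      ring
    · intro l hl
      show dl n a ((dl n a)^[k] w) l = _
      unfold dl
      split_ifs with h2 h3
      · omega
      · change a n * derivative ((dl n a)^[k] w l) + a n * (dl n a)^[k] w (l - 1) -
          (dl n a)^[k] w (n - 1) * a l = _
        rw [ih2 l (by omega), h1, ih2 (l - 1) (by omega)]
        simp
      · rfl

lemma orth_iter {a : ℕ → K[X]} {v : Fin s → ℕ → K[X]}
    (hcl : ∀ w, Orth n v w → Orth n v (dl n a w)) {w : ℕ → K[X]} (hw : Orth n v w) (k : ℕ) :
    Orth n v ((dl n a)^[k] w) := by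
  induction k with
  | zero => exact hw
  | succ k ih =>
    rw [Function.iterate_succ_apply']
    exact hcl _ ih

/-- The iterates as operators. -/
lemma app_iter {a w : ℕ → K[X]} {d : ℕ} (hd : d < n) (hw : ∀ l, d < l → w l = 0) (k : ℕ)
    (hk : d + k < n) :
    ∃ P : ℕ → K[X], ∀ f, app n ((dl n a)^[k] w) f = app (k + 1) P (app n w f) := by
  induction k with
  | zero => exact ⟨fun _ => 1, fun f => by simp [app]⟩
  | succ k ih =>
    obtain ⟨P, hP⟩ := ih (by omega)
    have h1 : (dl n a)^[k] w (n - 1) = 0 := (dl_iter hd hw k (by omega)).2 _ (by omega)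
    refine ⟨fun j => a n * (if j ≤ k then derivative (P j) else 0) +
      (if j = 0 then 0 else a n * P (j - 1)), fun f => ?_⟩
    have h2 := app_dl (by omega : 0 < n) a ((dl n a)^[k] w) f
    rw [h1, zero_mul, add_zero, hP f] at h2
    rw [Function.iterate_succ_apply', ← h2]
    set g := app n w f with hg
    unfold app
    rw [derivative_sum, Finset.mul_sum, Finset.sum_range_succ _ (k + 1)]
    have h3 := sum_shift (k + 1) (by omega) (fun j => a n * P j) (fun l => derivative^[l] g)
    have h4 : ∀ l ∈ Finset.range (k + 1), a n * derivative (P l * derivative^[l] g) =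
        a n * derivative (P l) * derivative^[l] g + a n * P l * derivative^[l + 1] g := by
      intro l _
      rw [derivative_mul, Function.iterate_succ_apply']
      ring
    rw [Finset.sum_congr rfl h4, Finset.sum_add_distrib, ← h3]
    have h5 : ∀ l ∈ Finset.range (k + 1), (a n * (if l ≤ k then derivative (P l) else 0) +
        (if l = 0 then 0 else a n * P (l - 1))) * derivative^[l] g =
        a n * derivative (P l) * derivative^[l] g +
          (if l = 0 then 0 else a n * P (l - 1)) * derivative^[l] g := by
      intro l hl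
      have : l ≤ k := by have := Finset.mem_range.mp hl; omega
      rw [if_pos this]
      ring
    rw [Finset.sum_congr rfl h5, Finset.sum_add_distrib]
    simp
    ring

/-- Triangular reduction. -/
lemma exists_reduce {a w : ℕ → K[X]} {d : ℕ} (hd : d < n) (hw : ∀ l, d < l → w l = 0)
    (hwd : w d ≠ 0) (ha : a n ≠ 0) (t : ℕ) (ht : d + t ≤ n) (x : ℕ → K[X])
    (hx : ∀ l, d + t ≤ l → x l = 0) :
    ∃ (e : K[X]) (q : ℕ → K[X]), e ≠ 0 ∧ ∀ l, d ≤ l →
      e * x l = ∑ k ∈ Finset.range t, q k * (dl n a)^[k] w l := by
  induction t generalizing x with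
  | zero => exact ⟨1, fun _ => 0, one_ne_zero, fun l hl => by rw [hx l (by omega)]; simp⟩
  | succ t ih =>
    obtain ⟨h1, h2⟩ := dl_iter (a := a) hd hw t (by omega)
    have h3 : (dl n a)^[t] w (d + t) ≠ 0 := by
      rw [h1]; exact mul_ne_zero (pow_ne_zero _ ha) hwd
    obtain ⟨e, q, he, hq⟩ := ih (by omega)
      (fun l => (dl n a)^[t] w (d + t) * x l - x (d + t) * (dl n a)^[t] w l) (by
        intro l hl
        rcases Nat.eq_or_lt_of_le hl with h4 | h4
        · subst h4; ring
        · rw [hx l (by omega), h2 l h4]; ring)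
    refine ⟨e * (dl n a)^[t] w (d + t), fun k => if k = t then e * x (d + t) else q k,
      mul_ne_zero he h3, fun l hl => ?_⟩
    rw [Finset.sum_range_succ]
    beta_reduce
    rw [if_pos rfl]
    have h5 : ∀ k ∈ Finset.range t, (if k = t then e * x (d + t) else q k) * (dl n a)^[k] w l =
        q k * (dl n a)^[k] w l := by
      intro k hk
      have : k ≠ t := by have := Finset.mem_range.mp hk; omega
      rw [if_neg this]
    rw [Finset.sum_congr rfl h5, ← hq l hl]
    ring

lemma app_add (N : ℕ) (w w' : ℕ → K[X]) (f : K[X]) :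
    app N (fun l => w l + w' l) f = app N w f + app N w' f := by
  unfold app
  rw [← Finset.sum_add_distrib]
  exact Finset.sum_congr rfl fun l _ => by ring

lemma app_mul (N : ℕ) (c : K[X]) (w : ℕ → K[X]) (f : K[X]) :
    app N (fun l => c * w l) f = c * app N w f := by
  unfold app
  rw [Finset.mul_sum]
  exact Finset.sum_congr rfl fun l _ => by ring

lemma app_extend {N N' : ℕ} (h : N ≤ N') {w : ℕ → K[X]} (hw : ∀ l, N ≤ l → w l = 0) (f : K[X]) :
    app N' w f = app N w f := by
  unfold app
  refine (Finset.sum_subset (Finset.range_mono h) fun l _ hl => ?_).symm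
  rw [hw l (by simpa using hl), zero_mul]

/-- Factorisation: `e L = P C`. -/
theorem exists_factor (hn : 0 < n) {a : ℕ → K[X]} (ha : a n ≠ 0) {v : Fin s → ℕ → K[X]}
    (hcl : ∀ w, Orth n v w → Orth n v (dl n a w))
    (hv : ∃ i, ∃ l < n, v i l ≠ 0) (hex : ∃ w, (∃ l < n, w l ≠ 0) ∧ Orth n v w) :
    ∃ (d t : ℕ) (e : K[X]) (P C : ℕ → K[X]), 0 < d ∧ 0 < t ∧ d + t = n ∧ e ≠ 0 ∧
      ∀ f, e * app (n + 1) a f = app (t + 1) P (app (d + 1) C f) := by
  classical
  -- a nonzero orthogonal vector of minimal order
  have hex' : ∃ d, ∃ w : ℕ → K[X], (d < n ∧ w d ≠ 0 ∧ (∀ l, d < l → w l = 0)) ∧ Orth n v w := by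
    obtain ⟨w, ⟨l, hl, hwl⟩, hw⟩ := hex
    let w' : ℕ → K[X] := fun l => if l < n then w l else 0
    have hw' : Orth n v w' := by
      intro i
      rw [← hw i]
      refine Finset.sum_congr rfl fun l hl => ?_
      simp only [w', if_pos (Finset.mem_range.mp hl)]
    have hne : ((Finset.range n).filter fun l => w' l ≠ 0).Nonempty :=
      ⟨l, Finset.mem_filter.mpr ⟨Finset.mem_range.mpr hl, by simpa only [w', if_pos hl] using hwl⟩⟩
    let d := ((Finset.range n).filter fun l => w' l ≠ 0).max' hne
    have hd := Finset.mem_filter.mp (Finset.max'_mem _ hne)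
    refine ⟨d, w', ⟨Finset.mem_range.mp hd.1, hd.2, fun l hl => ?_⟩, hw'⟩
    by_contra hne'
    have hln : l < n := by
      by_contra h
      exact hne' (if_neg h)
    have hmem : l ∈ (Finset.range n).filter fun l => w' l ≠ 0 :=
      Finset.mem_filter.mpr ⟨Finset.mem_range.mpr hln, hne'⟩
    have := Finset.le_max' _ l hmem
    omega
  obtain ⟨w, ⟨hdn, hwd, hw⟩, hworth⟩ := Nat.find_spec hex'
  set d := Nat.find hex' with hd
  have hmin : ∀ x : ℕ → K[X], Orth n v x → (∀ l, d ≤ l → x l = 0) → ∀ l, x l = 0 := by
    intro x hx hxl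
    by_contra hcon
    push Not at hcon
    obtain ⟨l₀, hl₀⟩ := hcon
    have hne : ((Finset.range d).filter fun l => x l ≠ 0).Nonempty := by
      refine ⟨l₀, Finset.mem_filter.mpr ⟨Finset.mem_range.mpr ?_, hl₀⟩⟩
      by_contra h
      exact hl₀ (hxl l₀ (by omega))
    let d' := ((Finset.range d).filter fun l => x l ≠ 0).max' hne
    have hd' := Finset.mem_filter.mp (Finset.max'_mem _ hne)
    have hlt : d' < d := Finset.mem_range.mp hd'.1
    refine Nat.find_min hex' hlt ⟨x, ⟨hlt.trans hdn, hd'.2, fun l hl => ?_⟩, hx⟩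
    by_contra hne'
    have hln : l < d := by
      by_contra h
      exact hne' (hxl l (by omega))
    have hmem : l ∈ (Finset.range d).filter fun l => x l ≠ 0 :=
      Finset.mem_filter.mpr ⟨Finset.mem_range.mpr hln, hne'⟩
    have := Finset.le_max' _ l hmem
    omega
  -- the order is positive
  have hd0 : 0 < d := by
    by_contra h0
    have h0' : d = 0 := by omega
    have hz : ∀ l, l < n → ∀ i, v i l = 0 := by
      intro l
      induction l using Nat.strong_induction_on with
      | _ l ih =>
        intro hl i
        obtain ⟨h1, h2⟩ := dl_iter (a := a) hdn hw l (by omega)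
        have h3 := orth_iter hcl hworth l i
        rw [Finset.sum_eq_single l] at h3
        · rw [h0', zero_add] at h1
          rw [h1] at h3
          have h4 : a n ^ l * w 0 ≠ 0 := mul_ne_zero (pow_ne_zero _ ha) (by rw [← h0']; exact hwd)
          exact (mul_eq_zero.mp h3).resolve_left h4
        · intro j _ hj
          rcases Nat.lt_or_gt_of_ne hj with h4 | h4
          · rw [ih j h4 (by omega) i, mul_zero]
          · rw [h2 j (by omega), zero_mul]
        · intro h4; exact absurd (Finset.mem_range.mpr hl) h4
    obtain ⟨i, l, hl, hvl⟩ := hv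
    exact hvl (hz l hl i)
  -- the relation
  obtain ⟨r, hr⟩ : ∃ r, n = d + (r + 1) := ⟨n - d - 1, by omega⟩
  have hlast := dl_iter (a := a) hdn hw r (by omega)
  set x := (dl n a)^[r + 1] w with hx
  have hxn : ∀ l, d + (r + 1) ≤ l → x l = 0 := by
    intro l hl
    rw [hx, Function.iterate_succ_apply']
    show dl n a _ l = 0
    unfold dl
    rw [if_neg (by omega)]
  obtain ⟨e, q, he, hq⟩ := exists_reduce (a := a) hdn hw hwd ha (r + 1) (by omega) x hxn
  have hzero : ∀ l, e * x l - ∑ k ∈ Finset.range (r + 1), q k * (dl n a)^[k] w l = 0 := by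
    refine hmin (fun l => e * x l - ∑ k ∈ Finset.range (r + 1), q k * (dl n a)^[k] w l) ?_ ?_
    · intro i
      have h1 : ∀ l ∈ Finset.range n, (e * x l - ∑ k ∈ Finset.range (r + 1),
          q k * (dl n a)^[k] w l) * v i l = e * (x l * v i l) -
          ∑ k ∈ Finset.range (r + 1), q k * ((dl n a)^[k] w l * v i l) := by
        intro l _
        rw [sub_mul, Finset.sum_mul]
        congr 1
        · ring
        · exact Finset.sum_congr rfl fun k _ => by ring
      rw [Finset.sum_congr rfl h1, Finset.sum_sub_distrib, ← Finset.mul_sum,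
        orth_iter hcl hworth (r + 1) i, mul_zero, Finset.sum_comm, zero_sub, neg_eq_zero]
      refine Finset.sum_eq_zero fun k _ => ?_
      rw [← Finset.mul_sum, orth_iter hcl hworth k i, mul_zero]
    · intro l hl
      rw [hq l hl, sub_self]
  -- the operators
  choose! P hP using fun k (hk : d + k < n) => app_iter (a := a) hdn hw k hk
  have hxapp : ∀ f, e * app n x f = ∑ k ∈ Finset.range (r + 1), q k * app n ((dl n a)^[k] w) f := by
    intro f
    unfold app
    rw [Finset.mul_sum]
    have h1 : ∀ l ∈ Finset.range n, e * (x l * derivative^[l] f) =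
        ∑ k ∈ Finset.range (r + 1), q k * ((dl n a)^[k] w l * derivative^[l] f) := by
      intro l _
      rw [← mul_assoc, sub_eq_zero.mp (hzero l), Finset.sum_mul]
      exact Finset.sum_congr rfl fun k _ => by ring
    rw [Finset.sum_congr rfl h1, Finset.sum_comm]
    exact Finset.sum_congr rfl fun k _ => by rw [Finset.mul_sum]
  have hmain : ∀ f, e * ((dl n a)^[r] w (n - 1)) * app (n + 1) a f =
      e * (a n * derivative (app n ((dl n a)^[r] w) f)) -
        ∑ k ∈ Finset.range (r + 1), q k * app n ((dl n a)^[k] w) f := by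
    intro f
    rw [← hxapp f, app_dl hn a ((dl n a)^[r] w) f, ← Function.iterate_succ_apply' (dl n a), ← hx]
    have h1 : app (n + 1) a f = app n a f + a n * derivative^[n] f := by
      unfold app
      rw [Finset.sum_range_succ]
    rw [h1]
    ring
  refine ⟨d, r + 1, e * ((dl n a)^[r] w (n - 1)), fun j =>
    e * (a n * (if j ≤ r then derivative (P r j) else 0) +
      (if j = 0 then 0 else a n * P r (j - 1))) -
      ∑ k ∈ Finset.range (r + 1), q k * (if j ≤ k then P k j else 0), w, hd0, by omega, hr.symm,
      ?_, fun f => ?_⟩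
  · refine mul_ne_zero he ?_
    have h1 : n - 1 = d + r := by omega
    rw [h1, hlast.1]
    exact mul_ne_zero (pow_ne_zero _ ha) hwd
  · have hC : app (d + 1) w f = app n w f :=
      (app_extend (by omega) (fun l hl => hw l (by omega)) f).symm
    rw [hC, hmain f]
    have hPk : ∀ k ∈ Finset.range (r + 1), q k * app n ((dl n a)^[k] w) f =
        app (r + 1 + 1) (fun j => q k * (if j ≤ k then P k j else 0)) (app n w f) := by
      intro k hk
      have hk' : k ≤ r := by have := Finset.mem_range.mp hk; omega
      rw [hP k (by omega) f, app_mul]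
      congr 1
      rw [app_extend (N := k + 1) (by omega) (fun l hl => if_neg (by omega))]
      unfold app
      refine Finset.sum_congr rfl fun j hj => ?_
      have : j ≤ k := by have := Finset.mem_range.mp hj; omega
      beta_reduce
      rw [if_pos this]
    rw [Finset.sum_congr rfl hPk, hP r (by omega) f]
    set g := app n w f with hg
    have hfirst : a n * derivative (app (r + 1) (P r) g) =
        app (r + 1 + 1) (fun j => a n * (if j ≤ r then derivative (P r j) else 0) +
          (if j = 0 then 0 else a n * P r (j - 1))) g := by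
      unfold app
      rw [derivative_sum, Finset.mul_sum, Finset.sum_range_succ _ (r + 1)]
      have h3 := sum_shift (r + 1) (by omega) (fun j => a n * P r j) (fun l => derivative^[l] g)
      have h4 : ∀ l ∈ Finset.range (r + 1), a n * derivative (P r l * derivative^[l] g) =
          a n * derivative (P r l) * derivative^[l] g + a n * P r l * derivative^[l + 1] g := by
        intro l _
        rw [derivative_mul, Function.iterate_succ_apply']
        ring
      rw [Finset.sum_congr rfl h4, Finset.sum_add_distrib, ← h3]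
      have h5 : ∀ l ∈ Finset.range (r + 1), (a n * (if l ≤ r then derivative (P r l) else 0) +
          (if l = 0 then 0 else a n * P r (l - 1))) * derivative^[l] g =
          a n * derivative (P r l) * derivative^[l] g +
            (if l = 0 then 0 else a n * P r (l - 1)) * derivative^[l] g := by
        intro l hl
        have : l ≤ r := by have := Finset.mem_range.mp hl; omega
        rw [if_pos this]
        ring
      rw [Finset.sum_congr rfl h5, Finset.sum_add_distrib]
      simp
      ring
    rw [hfirst]
    unfold app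
    rw [Finset.mul_sum, Finset.sum_comm, ← Finset.sum_sub_distrib]
    refine Finset.sum_congr rfl fun j _ => ?_
    rw [sub_mul, Finset.sum_mul]
    congr 1
    ring

end seq

end Pool.Agent.Y227.SO
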