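import Pool.Agent.Y227.SO.Factor

set_option autoImplicit false

/-!
Invariant subspaces of the companion system give factorisations of the operator.
-/

open Polynomial Pool.Agent.W432.WB

namespace Pool.Agent.Y227.SO

open Pool.Agent.W432.PC (T Tc T_ne)
open Pool.Agent.Y227.SS

section

variable {K : Type*} [Field K] {m n s : ℕ}

lemma comp_mulVec (α : Fin m → K) (Q : Fin (n + 1) → K[X]) (Z : Fin n → K[X]) (i : Fin n) :
    (comp α Q).mulVec Z i = ((i : ℕ) : K[X]) * derivative (T α) * Z i +
      (∑ l : Fin n, if (l : ℕ) = i + 1 then Z l else 0) -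
      (if (i : ℕ) + 1 = n then ∑ l : Fin n, Q l.castSucc * Z l else 0) := by
  have h3 : ∀ l : Fin n, comp α Q i l * Z l =
      (if i = l then ((i : ℕ) : K[X]) * derivative (T α) * Z l else 0) +
      (if (l : ℕ) = i + 1 then Z l else 0) -
      (if (i : ℕ) + 1 = n then Q l.castSucc * Z l else 0) := by
    intro l
    simp only [Pool.Agent.W432.WB.comp, Matrix.of_apply]
    split_ifs <;> ring
  simp only [Matrix.mulVec, dotProduct, h3, Finset.sum_add_distrib, Finset.sum_sub_distrib,
    Finset.sum_ite_eq, Finset.mem_univ, if_true]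
  congr 1
  split_ifs with h4
  · rfl
  · simp

theorem factor_of_stab {α : Fin m → K} {Q : Fin (n + 1) → K[X]} {b : Fin (n + 1) → K[X]}
    (hb : b (Fin.last n) ≠ 0)
    (hbQ : ∀ k : Fin (n + 1), T α ^ (n - (k : ℕ)) * b k = b (Fin.last n) * Q k)
    (hs : 0 < s) (hsn : s < n) (h : HasStab α (comp α Q) s) :
    ∃ (d t : ℕ) (e : K[X]) (P : Fin (t + 1) → K[X]) (C : Fin (d + 1) → K[X]),
      0 < d ∧ 0 < t ∧ d + t = n ∧ e ≠ 0 ∧ ∀ f, e * opApply b f = opApply P (opApply C f) := by
  classical
  obtain ⟨v, ⟨J, hJ⟩, c, G, hc, hG⟩ := h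
  have hn : 0 < n := by omega
  let a : ℕ → K[X] := fun k => if h : k < n + 1 then b ⟨k, h⟩ else 0
  have han : a n = b (Fin.last n) := by
    simp only [a, dif_pos (Nat.lt_succ_self n)]
    rfl
  have ha0 : a n ≠ 0 := by rw [han]; exact hb
  let v' : Fin s → ℕ → K[X] := fun i l => if h : l < n then T α ^ (n - l) * v i ⟨l, h⟩ else 0
  have hv' : ∀ i (l : ℕ) (h : l < n), v' i l = T α ^ (n - l) * v i ⟨l, h⟩ := fun i l h => by
    simp only [v', dif_pos h]
  have hTc : c * T α ≠ 0 := mul_ne_zero hc T_ne
  have key : ∀ i, ∀ l < n, c * T α * (a n * derivative (v' i l) -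
      (if l + 1 < n then a n * v' i (l + 1) else - ∑ k ∈ Finset.range n, a k * v' i k)) =
      ∑ j, (a n • G + (c * (n : K[X]) * derivative (T α) * a n) •
        (1 : Matrix (Fin s) (Fin s) K[X])) i j * v' j l := by
    intro i l hl
    have hGl : c * (T α * derivative (v i ⟨l, hl⟩) - (comp α Q).mulVec (v i) ⟨l, hl⟩) =
        ∑ j, G i j * v j ⟨l, hl⟩ := by
      have h1 := congrFun (congrFun hG i) ⟨l, hl⟩
      simpa only [Matrix.smul_apply, smul_eq_mul, opR, Matrix.of_apply, Matrix.mul_apply] using h1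
    rw [comp_mulVec] at hGl
    have hR : ∑ j, (a n • G + (c * (n : K[X]) * derivative (T α) * a n) •
        (1 : Matrix (Fin s) (Fin s) K[X])) i j * v' j l =
        a n * T α ^ (n - l) * (∑ j, G i j * v j ⟨l, hl⟩ +
          c * (n : K[X]) * derivative (T α) * v i ⟨l, hl⟩) := by
      have h2 : ∀ j, (a n • G + (c * (n : K[X]) * derivative (T α) * a n) •
        (1 : Matrix (Fin s) (Fin s) K[X])) i j * v' j l =
          a n * T α ^ (n - l) * (G i j * v j ⟨l, hl⟩) +
            (if i = j then a n * T α ^ (n - l) *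
              (c * (n : K[X]) * derivative (T α) * v j ⟨l, hl⟩) else 0) := by
        intro j
        rw [hv' j l hl, Matrix.add_apply, Matrix.smul_apply, Matrix.smul_apply, Matrix.one_apply,
          smul_eq_mul, smul_eq_mul]
        split_ifs <;> ring
      rw [Finset.sum_congr rfl fun j _ => h2 j, Finset.sum_add_distrib, Finset.sum_ite_eq,
        if_pos (Finset.mem_univ _), ← Finset.mul_sum]
      ring
    rw [hR, ← hGl]
    have hder : T α * derivative (v' i l) = T α ^ (n - l) * (((n - l : ℕ) : K[X]) *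
        derivative (T α) * v i ⟨l, hl⟩ + T α * derivative (v i ⟨l, hl⟩)) := by
      rw [hv' i l hl, derivative_mul, derivative_pow]
      obtain ⟨r, hr⟩ : ∃ r, n - l = r + 1 := ⟨n - l - 1, by omega⟩
      rw [hr, Nat.add_sub_cancel, pow_succ]
      simp only [map_natCast]
      ring
    have hcast : ((n - l : ℕ) : K[X]) = (n : K[X]) - (l : K[X]) := by
      rw [Nat.cast_sub hl.le]
    by_cases hl1 : l + 1 < n
    · rw [if_pos hl1]
      have h3 : (∑ l' : Fin n, if (l' : ℕ) = ((⟨l, hl⟩ : Fin n) : ℕ) + 1 then v i l' else 0) =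
          v i ⟨l + 1, hl1⟩ := by
        rw [Finset.sum_eq_single ⟨l + 1, hl1⟩]
        · simp
        · intro l' _ hne
          rw [if_neg]
          intro h'
          exact hne (Fin.ext h')
        · intro h'; exact absurd (Finset.mem_univ _) h'
      have h4 : ¬ (((⟨l, hl⟩ : Fin n) : ℕ) + 1 = n) := by
        show ¬ (l + 1 = n)
        omega
      rw [h3, if_neg h4, hv' i (l + 1) hl1]
      have h5 : T α ^ (n - l) = T α * T α ^ (n - (l + 1)) := by
        rw [← pow_succ']
        congr 1
        omega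
      have h6 : c * T α * (a n * derivative (v' i l) -
          a n * (T α ^ (n - (l + 1)) * v i ⟨l + 1, hl1⟩)) =
          c * a n * (T α * derivative (v' i l)) -
            c * a n * (T α * T α ^ (n - (l + 1))) * v i ⟨l + 1, hl1⟩ := by ring
      rw [h6, hder, ← h5, hcast]
      ring
    · have hln : l + 1 = n := by omega
      rw [if_neg hl1]
      have h3 : (∑ l' : Fin n, if (l' : ℕ) = ((⟨l, hl⟩ : Fin n) : ℕ) + 1 then v i l' else 0) =
          0 := by
        refine Finset.sum_eq_zero fun l' _ => ?_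
        rw [if_neg]
        show ¬ ((l' : ℕ) = l + 1)
        have := l'.isLt
        omega
      have h4 : (((⟨l, hl⟩ : Fin n) : ℕ) + 1 = n) := hln
      have h5 : ∑ k ∈ Finset.range n, a k * v' i k = a n * ∑ l : Fin n, Q l.castSucc * v i l := by
        rw [Finset.sum_range, Finset.mul_sum]
        refine Finset.sum_congr rfl fun k _ => ?_
        have h6 : a (k : ℕ) = b k.castSucc := by
          have : (k : ℕ) < n + 1 := by have := k.isLt; omega
          simp only [a, dif_pos this]
          rfl
        have h7 := hbQ k.castSucc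
        rw [Fin.val_castSucc] at h7
        rw [h6, hv' i k k.isLt, han, ← mul_assoc, mul_comm (b k.castSucc), h7]
        ring
      rw [h3, if_pos h4, h5]
      have h6 : c * T α * (a n * derivative (v' i l) -
          -(a n * ∑ l : Fin n, Q l.castSucc * v i l)) =
          c * a n * (T α * derivative (v' i l)) +
            c * a n * T α * ∑ l : Fin n, Q l.castSucc * v i l := by ring
      have h7 : n - l = 1 := by omega
      rw [h6, hder, hcast, h7, pow_one]
      ring
  obtain ⟨d, t, e, P, C, h1, h2, h3, h4, h5⟩ := exists_factor hn ha0 (v := v')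
    (fun w hw => orth_dl hn hTc key hw) (by
      let i₀ : Fin s := ⟨0, hs⟩
      have h1 : ∃ l, v i₀ l ≠ 0 := by
        by_contra hcon
        push Not at hcon
        apply hJ
        exact Matrix.det_eq_zero_of_row_eq_zero i₀ fun j => hcon (J j)
      obtain ⟨l, hl⟩ := h1
      refine ⟨i₀, l, l.isLt, ?_⟩
      rw [hv' i₀ l l.isLt]
      exact mul_ne_zero (pow_ne_zero _ T_ne) hl) (by
      let M : Matrix (Fin n) (Fin n) K[X] := Matrix.of fun i l =>
        if h : (i : ℕ) < s then v' ⟨i, h⟩ l else 0
      have hdet : M.det = 0 := Matrix.det_eq_zero_of_row_eq_zero ⟨s, hsn⟩ fun j => by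
        simp [M]
      obtain ⟨x, hx0, hx⟩ := Matrix.exists_mulVec_eq_zero_iff.mpr hdet
      obtain ⟨l, hl⟩ := Function.ne_iff.mp hx0
      let x' : ℕ → K[X] := fun l => if h : l < n then x ⟨l, h⟩ else 0
      have hx' : ∀ l : Fin n, x' l = x l := fun l => by simp only [x', dif_pos l.isLt]
      refine ⟨x', ⟨l, l.isLt, ?_⟩, fun i => ?_⟩
      · rw [hx']; exact hl
      · rw [Finset.sum_range]
        have h1 := congrFun hx ⟨i, i.isLt.trans hsn⟩
        simp only [Matrix.mulVec, dotProduct, M, Matrix.of_apply, Pi.zero_apply,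
          dif_pos i.isLt] at h1
        refine Eq.trans (Finset.sum_congr rfl fun j _ => ?_) h1
        rw [hx' j, mul_comm])
  refine ⟨d, t, e, fun k => P k, fun k => C k, h1, h2, h3, h4, fun f => ?_⟩
  have h6 := h5 f
  have h7 : ∀ (N : ℕ) (w : ℕ → K[X]) (g : K[X]), app (N + 1) w g =
      opApply (fun k : Fin (N + 1) => w k) g := by
    intro N w g
    unfold app opApply
    rw [Finset.sum_range]
  rw [h7, h7, h7] at h6
  have h8 : opApply (fun k : Fin (n + 1) => a k) f = opApply b f := by
    unfold opApply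
    refine Finset.sum_congr rfl fun k _ => ?_
    simp only [a, dif_pos k.isLt]
  rw [← h8]
  exact h6

end

/-- An operator whose companion system has an invariant subspace is reducible. -/
theorem reducible_of_stab {m n s : ℕ} {b : Fin (n + 1) → ℤ[X]} (hb : b (Fin.last n) ≠ 0)
    {α : Fin m → AlgebraicClosure ℚ} {Q : Fin (n + 1) → (AlgebraicClosure ℚ)[X]}
    (hF : IsFuchs b α Q) (hs : 0 < s) (hsn : s < n) (h : HasStab α (comp α Q) s) :
    Reducible b := by
  obtain ⟨d, t, e, P, C, h1, h2, h3, h4, h5⟩ := factor_of_stab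
    (b := fun k => (b k).map (Int.castRingHom (AlgebraicClosure ℚ)))
    ((Polynomial.map_ne_zero_iff (Int.cast_injective)).mpr hb) hF.eq hs hsn h
  exact ⟨d, t, e, P, C, h1, h2, h3, h4, h5⟩

end Pool.Agent.Y227.SO
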