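import Pool.Agent.Y227.SO.Sub
import Pool.Agent.W432.WB.Descent

set_option autoImplicit false

/-!
Stable subspaces descend to algebraically closed fields of constants.
-/

open Polynomial

namespace Pool.Agent.Y227.SO

open Pool.Agent.Y227.SS

lemma exists_point {k : Type*} [Field k] [IsAlgClosed k] (A : Type*) [CommRing A] [Nontrivial A]
    [Algebra k A] [Algebra.FiniteType k A] : Nonempty (A →ₐ[k] k) := by
  obtain ⟨𝔪, h𝔪⟩ := Ideal.exists_maximal A
  let _ : Field (A ⧸ 𝔪) := Ideal.Quotient.field 𝔪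
  have hft : Algebra.FiniteType k (A ⧸ 𝔪) :=
    Algebra.FiniteType.of_surjective (Ideal.Quotient.mkₐ k 𝔪) (Ideal.Quotient.mkₐ_surjective k 𝔪)
  have hfin : Module.Finite k (A ⧸ 𝔪) := finite_of_finite_type_of_isJacobsonRing k (A ⧸ 𝔪)
  exact ⟨(IsAlgClosed.lift : (A ⧸ 𝔪) →ₐ[k] k).comp (Ideal.Quotient.mkₐ k 𝔪)⟩

/-- A stable subspace after an extension of the field of constants gives one over the given
algebraically closed field of constants. -/
theorem HasStab.descend {k : Type*} [Field k] [IsAlgClosed k] {L : Type*} [Field L] (f : k →+* L)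
    {m n s : ℕ} {α : Fin m → k} {B : Matrix (Fin n) (Fin n) k[X]}
    (h : HasStab (fun j => f (α j)) (B.map (mapRingHom f)) s) : HasStab α B s := by
  classical
  obtain ⟨v, ⟨J, hJ⟩, c, G, hc, hG⟩ := h
  have hcof : cof (fun j => f (α j)) (B.map (mapRingHom f)) v J = 0 := by
    unfold cof
    rw [cofactor_of_stable hc hG J, sub_self]
  obtain ⟨d, hd⟩ : ∃ d, (mnr v J).coeff d ≠ 0 := by
    by_contra hcon
    push Not at hcon
    exact hJ (Polynomial.ext fun d => by rw [hcon d, coeff_zero])
  let _ : Algebra k L := f.toAlgebra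
  let S : Finset L := (Finset.univ.biUnion fun x : Fin s × Fin n =>
    (v x.1 x.2).support.image (v x.1 x.2).coeff) ∪ {((mnr v J).coeff d)⁻¹}
  let A : Subalgebra k L := Algebra.adjoin k (S : Set L)
  have hft : Algebra.FiniteType k A := (Subalgebra.fg_iff_finiteType A).mp ⟨S, rfl⟩
  let ι : A →+* L := A.val.toRingHom
  have hι : Function.Injective ι := Subtype.val_injective
  have hS : ∀ x ∈ S, ∃ y, ι y = x := fun x hx => ⟨⟨x, Algebra.subset_adjoin hx⟩, rfl⟩
  have hv : ∀ a b, ∃ q : A[X], q.map ι = v a b := fun a b =>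
    Pool.Agent.W432.WB.exists_lift ι (v a b) fun i hi => hS _ (by
      simp only [S, Finset.mem_union, Finset.mem_biUnion, Finset.mem_univ, true_and]
      exact Or.inl ⟨(a, b), Finset.mem_image.mpr ⟨i, hi, rfl⟩⟩)
  choose v' hv' using hv
  let v' : Matrix (Fin s) (Fin n) A[X] := v'
  have hvv : v'.map (mapRingHom ι) = v := by
    ext1 a b
    exact hv' a b
  obtain ⟨y, hy⟩ := hS _ (Finset.mem_union_right _ (Finset.mem_singleton_self _) :
    ((mnr v J).coeff d)⁻¹ ∈ S)
  have hm : (mapRingHom ι) (mnr v' J) = mnr v J := by rw [← mnr_map, hvv]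
  have hunit : (mnr v' J).coeff d * y = 1 := by
    apply hι
    rw [map_mul, hy, map_one]
    have h1 : ι ((mnr v' J).coeff d) = (mnr v J).coeff d := by
      rw [← hm, coe_mapRingHom, coeff_map]
    rw [h1]
    exact mul_inv_cancel₀ hd
  let κ : k →+* A := algebraMap k A
  have hκ : ι.comp κ = f := RingHom.ext fun x => rfl
  have hcof' : cof (fun j => κ (α j)) (B.map (mapRingHom κ)) v' J = 0 := by
    have h1 := cof_map ι (fun j => κ (α j)) (B.map (mapRingHom κ)) v' J
    rw [hvv] at h1
    have h2 : (B.map (mapRingHom κ)).map (mapRingHom ι) = B.map (mapRingHom f) := by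
      ext1 a b
      simp only [Matrix.map_apply, coe_mapRingHom, Polynomial.map_map, hκ]
    have h3 : (fun j => ι (κ (α j))) = fun j => f (α j) := by
      ext1 j
      rw [← hκ]
      rfl
    rw [h2, h3, hcof] at h1
    have hinj : Function.Injective (mapRingHom ι) := map_injective ι hι
    ext1 a b
    apply hinj
    have h4 := congrFun (congrFun h1 a) b
    rw [Matrix.map_apply] at h4
    rw [h4, Matrix.zero_apply, Matrix.zero_apply, map_zero]
  obtain ⟨g₀⟩ := exists_point (k := k) A
  let g : A →+* k := g₀.toRingHom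
  have hg : g.comp κ = RingHom.id k := RingHom.ext fun x => g₀.commutes x
  have hcof'' := cof_map g (fun j => κ (α j)) (B.map (mapRingHom κ)) v' J
  have h2 : (B.map (mapRingHom κ)).map (mapRingHom g) = B := by
    ext1 a b
    simp only [Matrix.map_apply, coe_mapRingHom, Polynomial.map_map, hg, Polynomial.map_id]
  have h3 : (fun j => g (κ (α j))) = α := by
    ext1 j
    exact RingHom.congr_fun hg (α j)
  rw [hcof', h2, h3] at hcof''
  have hmg : mnr (v'.map (mapRingHom g)) J ≠ 0 := by
    intro h0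
    have h4 : (mnr (v'.map (mapRingHom g)) J).coeff d = g ((mnr v' J).coeff d) := by
      rw [mnr_map, coe_mapRingHom, coeff_map]
    rw [h0, coeff_zero] at h4
    have h5 := congrArg g hunit
    rw [map_mul, ← h4, zero_mul, map_one] at h5
    exact zero_ne_one h5
  have h6 : cof α B (v'.map (mapRingHom g)) J = 0 := by
    rw [← hcof'']
    ext1 a b
    simp
  exact ⟨v'.map (mapRingHom g), ⟨J, hmg⟩, mnr (v'.map (mapRingHom g)) J,
    (opR α B (v'.map (mapRingHom g))).submatrix id J *
      ((v'.map (mapRingHom g)).submatrix id J).adjugate, hmg, sub_eq_zero.mp h6⟩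

end Pool.Agent.Y227.SO
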