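import Pool.Agent.Y227.SO.Limit
import Pool.Agent.Y227.SO.Spec
import Pool.Agent.Y227.SO.Irr
import Pool.Agent.W432.HK.Stmt

set_option autoImplicit false

/-!
The conjugate exponents of operators with full bases of rational solutions.
-/

open Polynomial Filter Topology Pool.Agent.W432.WB

namespace Pool.Agent.Y227.SO

open Pool.Agent.W432.PC (T Tc T_map Tc_map exists_closed_point)
open Pool.Agent.Y227.SS
open Pool.Agent.W432.HK (Cond FuchsianWith CommonDen ZerosAmong isFuchs hasExps)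

universe u

section data

variable {F : Type u} [Field F] [CharZero F] {m n : ℕ}

/-- Descent of the data to a ring of finite type. -/
lemma exists_data {b : Fin (n + 1) → ℤ[X]} (hb : b (Fin.last n) ≠ 0) {α : Fin m → F}
    {Q : Fin (n + 1) → F[X]} (hF : IsFuchs b α Q) {lam : Fin m → Fin n → ℚ} {phi : Fin n → ℚ}
    (hE : HasExps α Q lam phi) {N : ℕ} {mu : Fin m → Fin n → ℤ} {mu' : Fin n → ℤ}
    (hmu : ∀ j l, (N : ℚ) * lam j l = mu j l) (hmu' : ∀ l, (N : ℚ) * phi l = mu' l) :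
    ∃ (R : Type u) (_ : CommRing R) (_ : IsDomain R) (_ : CharZero R)
      (_ : Algebra.FiniteType ℤ R) (ι : R →+* F) (α' : Fin m → R) (Q' : Fin (n + 1) → R[X]),
      Function.Injective ι ∧ (∀ j, ι (α' j) = α j) ∧ (∀ k, (Q' k).map ι = Q k) ∧
      Data b α' Q' N mu mu' := by
  classical
  let S : Finset F := (Finset.univ.image α) ∪
    (Finset.univ.image fun x : Fin m × Fin m => (α x.1 - α x.2)⁻¹) ∪
    (Finset.univ.biUnion fun k : Fin (n + 1) => (Q k).support.image (Q k).coeff)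
  obtain ⟨R, i1, i2, i3, i4, ι, hι, hS⟩ := exists_ring S
  have hα' : ∀ j, ∃ x, ι x = α j := fun j => hS _ (by
    simp only [S, Finset.mem_union, Finset.mem_image, Finset.mem_univ, true_and]
    exact Or.inl (Or.inl ⟨j, rfl⟩))
  choose α' hα' using hα'
  have hinv : ∀ i j, ∃ x, ι x = (α i - α j)⁻¹ := fun i j => hS _ (by
    simp only [S, Finset.mem_union, Finset.mem_image, Finset.mem_univ, true_and]
    exact Or.inl (Or.inr ⟨(i, j), rfl⟩))
  have hQl : ∀ k, ∃ P : R[X], P.map ι = Q k := fun k =>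
    Pool.Agent.W432.WB.exists_lift ι (Q k) fun i hi => hS _ (by
      simp only [S, Finset.mem_union, Finset.mem_biUnion, Finset.mem_univ, true_and]
      exact Or.inr ⟨k, Finset.mem_image.mpr ⟨i, hi, rfl⟩⟩)
  choose Q' hQ' using hQl
  have hαe : (fun j => ι (α' j)) = α := funext hα'
  have hQe : (fun k => (Q' k).map ι) = Q := funext hQ'
  have hmapinj : Function.Injective (Polynomial.map ι) := map_injective ι hι
  have hcast : ι.comp (Int.castRingHom R) = Int.castRingHom F := RingHom.ext_int _ _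
  have hunit : ∀ i j, i ≠ j → IsUnit (α' i - α' j) := by
    intro i j hij
    obtain ⟨x, hx⟩ := hinv i j
    refine IsUnit.of_mul_eq_one x ?_
    apply hι
    rw [map_mul, map_sub, hα', hα', hx, map_one]
    exact mul_inv_cancel₀ (sub_ne_zero.mpr fun h => hij (hF.inj h))
  have hQlast : Q' (Fin.last n) = 1 := by
    apply hmapinj
    rw [hQ', hF.last, Polynomial.map_one]
  have hdeg : ∀ k, (Q' k).natDegree ≤ (n - k) * (m - 1) := by
    intro k
    rw [← natDegree_map_eq_of_injective hι, hQ']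
    exact hF.deg k
  have hbQ : ∀ k : Fin (n + 1), T α' ^ (n - (k : ℕ)) * (b k).map (Int.castRingHom R) =
      (b (Fin.last n)).map (Int.castRingHom R) * Q' k := by
    intro k
    apply hmapinj
    rw [Polynomial.map_mul, Polynomial.map_mul, Polynomial.map_pow, T_map, Polynomial.map_map,
      Polynomial.map_map, hcast, hQ', hαe]
    exact hF.eq k
  have hfac : ∀ (x : Fin n → ℚ) (z : Fin n → ℤ), (∀ l, (N : ℚ) * x l = z l) →
      C ((N : F) ^ n) * ∏ l, (X - C ((x l : ℚ) : F)) =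
        ∏ l, (C (N : F) * X - C ((z l : ℤ) : F)) := by
    intro x z hxz
    have h1 : C ((N : F) ^ n) = ∏ _l : Fin n, (C (N : F) : F[X]) := by
      rw [Finset.prod_const, Finset.card_univ, Fintype.card_fin, C_pow]
    rw [h1, ← Finset.prod_mul_distrib]
    refine Finset.prod_congr rfl fun l _ => ?_
    have h2 : (N : F) * ((x l : ℚ) : F) = ((z l : ℤ) : F) := by
      exact_mod_cast congrArg (fun x : ℚ => (x : F)) (hxz l)
    rw [mul_sub, ← C_mul, h2]
  have hlinmap : ∀ z : Fin n → ℤ, (∏ l, (C (N : R) * X - C ((z l : ℤ) : R))).map ι =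
      ∏ l, (C (N : F) * X - C ((z l : ℤ) : F)) := by
    intro z
    rw [Polynomial.map_prod]
    exact Finset.prod_congr rfl fun l _ => by simp
  have hloc : ∀ j, C ((N : R) ^ n) * indLoc α' Q' j = C ((derivative (T α')).eval (α' j) ^ n) *
      ∏ l, (C (N : R) * X - C ((mu j l : ℤ) : R)) := by
    intro j
    apply hmapinj
    have h1 : ι ((derivative (T α')).eval (α' j)) = (derivative (T α)).eval (α j) := by
      rw [← eval_map_apply, ← derivative_map, T_map, hαe, hα']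
    rw [Polynomial.map_mul, Polynomial.map_mul, indLoc_map, hαe, hQe, hlinmap, map_C, map_C,
      map_pow ι, map_pow ι, map_natCast, h1, hE.1 j, ← hfac _ _ (hmu j)]
    ring
  have hinf : C ((N : R) ^ n) * indInf m Q' = ∏ l, (C (N : R) * X - C ((mu' l : ℤ) : R)) := by
    apply hmapinj
    rw [Polynomial.map_mul, indInf_map, hQe, hlinmap, map_C, map_pow ι, map_natCast, hE.2,
      hfac _ _ hmu']
  exact ⟨R, i1, i2, i3, i4, ι, α', Q', hι, hα', hQ', hb, hunit, hQlast, hdeg, hbQ, hloc, hinf⟩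

end data

/-- Infinitely many primes in a class with full bases of rational solutions. -/
theorem stable_op {m n : ℕ} (hm : 0 < m) (hn : 0 < n) {b : Fin (n + 1) → ℤ[X]}
    {α : Fin m → AlgebraicClosure ℚ} {lam : Fin m → Fin n → ℚ} {phi : Fin n → ℚ} {N : ℕ}
    (hF : FuchsianWith b α lam phi) (hN : CommonDen lam phi N) (a : ℤ)
    (hinf : ∀ P₀ : ℕ, ∃ p : ℕ, P₀ < p ∧ (N : ℤ) ∣ a * p + 1 ∧ ∃ _hp : Fact p.Prime, FullMod b p) :
    SemistableWeights ℂ (fun j l => (a : ℝ) * lam j l) (fun l => (a : ℝ) * phi l) ∧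
    (¬ Reducible b →
      StableWeights ℂ (fun j l => (a : ℝ) * lam j l) (fun l => (a : ℝ) * phi l)) := by
  obtain ⟨hb, Q, hFu, hE⟩ := hF
  obtain ⟨hN0, hNlam, hNphi⟩ := hN
  choose mu hmu using hNlam
  choose mu' hmu' using hNphi
  obtain ⟨R, i1, i2, i3, i4, ι, α', Q', hι, hα', hQ', hD⟩ := exists_data hb hFu hE hmu hmu'
  have hcount := countable_of_finiteType R
  obtain ⟨h1, h2⟩ := limit_op hm hn hN0 hmu hmu' hD a (by
    intro g hg P₀
    obtain ⟨P₁, hP₁⟩ := exists_closed_point R hg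
    obtain ⟨p, hpP, hap, hp, hfm⟩ := hinf (max P₀ P₁)
    obtain ⟨𝔪, h𝔪, hpm, hgm⟩ := hP₁ p hp.out (lt_of_le_of_lt (le_max_right _ _) hpP)
    exact ⟨p, lt_of_le_of_lt (le_max_left _ _) hpP, hap, hp, hfm, 𝔪, h𝔪, hpm, hgm⟩)
  refine ⟨h1, fun hirr => ?_⟩
  rcases h2 with h2 | ⟨L, iF, iA, φ, hφ, s, hs, hsn, hst⟩
  · exact h2
  exfalso
  apply hirr
  -- extend the embedding to the algebraic numbers
  obtain ⟨f, hf⟩ : ∃ f : AlgebraicClosure ℚ →+* L, ∀ x, f (ι x) = φ x := by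
    let _ : Algebra R (AlgebraicClosure ℚ) := ι.toAlgebra
    let _ : Algebra R L := φ.toAlgebra
    have hinj1 : Function.Injective (algebraMap R (AlgebraicClosure ℚ)) := hι
    have hinj2 : Function.Injective (algebraMap R L) := hφ
    have i5 : FaithfulSMul R (AlgebraicClosure ℚ) := (faithfulSMul_iff_algebraMap_injective _ _).mpr hinj1
    have i6 : FaithfulSMul R L := (faithfulSMul_iff_algebraMap_injective _ _).mpr hinj2
    have hQ : Algebra.IsAlgebraic ℚ (AlgebraicClosure ℚ) := AlgebraicClosure.isAlgebraic ℚ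
    have halgZ : Algebra.IsAlgebraic ℤ (AlgebraicClosure ℚ) :=
      (IsFractionRing.comap_isAlgebraic_iff (A := ℤ) (K := ℚ) (C := AlgebraicClosure ℚ)).mpr hQ
    have halg : Algebra.IsAlgebraic R (AlgebraicClosure ℚ) :=
      Algebra.IsAlgebraic.extendScalars (R := ℤ) (RingHom.injective_int (algebraMap ℤ R))
    let f : AlgebraicClosure ℚ →ₐ[R] L := IsAlgClosed.lift
    exact ⟨f.toRingHom, fun x => f.commutes x⟩
  have hst' : HasStab (fun j => f (α j)) ((comp α Q).map (mapRingHom f)) s := by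
    have h3 : (fun j => f (α j)) = fun j => φ (α' j) := by
      ext1 j
      rw [← hα', hf]
    have h4 : (comp α Q).map (mapRingHom f) = (comp α' Q').map (mapRingHom φ) := by
      have h5 : comp α Q = (comp α' Q').map (Polynomial.map ι) := by
        rw [Pool.Agent.W432.WB.comp_map]
        congr 1
        · ext1 j; rw [hα']
        · ext1 k; rw [hQ']
      have h6 : f.comp ι = φ := RingHom.ext hf
      rw [h5]
      ext1 x y
      simp only [Matrix.map_apply, coe_mapRingHom, Polynomial.map_map, h6]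
    rw [h3, h4]
    exact hst
  exact reducible_of_stab hb hFu hs hsn hst'.descend

theorem bad_class {m n : ℕ} (hm : 0 < m) (hn : 0 < n) {b : Fin (n + 1) → ℤ[X]}
    {α : Fin m → AlgebraicClosure ℚ} {lam : Fin m → Fin n → ℚ} {phi : Fin n → ℚ} {N : ℕ}
    (hF : FuchsianWith b α lam phi) (hN : CommonDen lam phi N) (a : ℤ)
    (h : ¬ SemistableWeights ℂ (fun j l => (a : ℝ) * lam j l) (fun l => (a : ℝ) * phi l) ∨
      (¬ Reducible b ∧
        ¬ StableWeights ℂ (fun j l => (a : ℝ) * lam j l) (fun l => (a : ℝ) * phi l))) :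
    ∃ P₀ : ℕ, ∀ p : ℕ, P₀ < p → (N : ℤ) ∣ a * p + 1 → ∀ _hp : Fact p.Prime, ¬ FullMod b p := by
  by_contra hcon
  push Not at hcon
  obtain ⟨h1, h2⟩ := stable_op hm hn hF hN a (by
    intro P₀
    obtain ⟨p, hp1, hp2, hp3, hp4⟩ := hcon P₀
    exact ⟨p, hp1, hp2, hp3, hp4⟩)
  rcases h with h | ⟨h, h'⟩
  · exact h h1
  · exact h' (h2 h)

lemma exists_commonDen {m n : ℕ} (lam : Fin m → Fin n → ℚ) (phi : Fin n → ℚ) :
    ∃ N : ℕ, CommonDen lam phi N := by
  classical
  let x : (Fin m × Fin n) ⊕ Fin n → ℚ := Sum.elim (fun p => lam p.1 p.2) phi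
  have hx : ∀ i, ∃ z : ℤ, ((∏ i, (x i).den : ℕ) : ℚ) * x i = z := by
    intro i
    refine ⟨(∏ i' ∈ Finset.univ.erase i, ((x i').den : ℤ)) * (x i).num, ?_⟩
    have h1 : (∏ i, (x i).den) = (∏ i' ∈ Finset.univ.erase i, (x i').den) * (x i).den :=
      (Finset.prod_erase_mul _ _ (Finset.mem_univ i)).symm
    rw [h1]
    push_cast
    rw [mul_assoc, Rat.den_mul_eq_num]
  exact ⟨∏ i, (x i).den, Finset.prod_pos fun i _ => (x i).den_pos,
    fun j l => hx (Sum.inl (j, l)), fun l => hx (Sum.inr l)⟩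

lemma cond_infinite {n : ℕ} {b : Fin (n + 1) → ℤ[X]} (hc : Cond b) {N : ℕ} (hN : 0 < N) {a : ℤ}
    (ha : IsCoprime a (N : ℤ)) (P₀ : ℕ) :
    ∃ p : ℕ, P₀ < p ∧ (N : ℤ) ∣ a * p + 1 ∧ ∃ _hp : Fact p.Prime, FullMod b p := by
  obtain ⟨P, hP⟩ := hc
  obtain ⟨p, hp1, hp2, hp3⟩ := exists_prime_class hN ha (max P₀ P)
  exact ⟨p, lt_of_le_of_lt (le_max_left _ _) hp1, hp3, ⟨hp2⟩,
    hP p (lt_of_le_of_lt (le_max_right _ _) hp1) ⟨hp2⟩⟩

/-- The theorem on the conjugate exponents. -/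
theorem stable_exponents {m n : ℕ} (hm : 1 ≤ m) (hn : 1 ≤ n) (b : Fin (n + 1) → ℤ[X])
    (α : Fin m → AlgebraicClosure ℚ) :
    (∀ (lam : Fin m → Fin n → ℚ) (phi : Fin n → ℚ) (N : ℕ) (a : ℤ), FuchsianWith b α lam phi →
      CommonDen lam phi N →
      (¬ SemistableWeights ℂ (fun j l => (a : ℝ) * lam j l) (fun l => (a : ℝ) * phi l) ∨
        (¬ Reducible b ∧
          ¬ StableWeights ℂ (fun j l => (a : ℝ) * lam j l) (fun l => (a : ℝ) * phi l))) →
      ∃ P₀ : ℕ, ∀ p : ℕ, P₀ < p → (N : ℤ) ∣ a * p + 1 → ∀ _hp : Fact p.Prime, ¬ FullMod b p) ∧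
    (ZerosAmong b α → Cond b →
      ∃ (lam : Fin m → Fin n → ℚ) (phi : Fin n → ℚ), FuchsianWith b α lam phi ∧
        (∃ N, CommonDen lam phi N) ∧
        ∀ (N : ℕ) (a : ℤ), CommonDen lam phi N → IsCoprime a (N : ℤ) →
          SemistableWeights ℂ (fun j l => (a : ℝ) * lam j l) (fun l => (a : ℝ) * phi l) ∧
          (¬ Reducible b →
            StableWeights ℂ (fun j l => (a : ℝ) * lam j l) (fun l => (a : ℝ) * phi l))) := by
  refine ⟨fun lam phi N a hF hN h => bad_class hm hn hF hN a h, ?_⟩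
  rintro ⟨hb, hα, hroot⟩ hc
  obtain ⟨Q, hF⟩ := isFuchs hb hc hm hα hroot
  obtain ⟨lam, phi, hE⟩ := hasExps hb hc hF hm
  refine ⟨lam, phi, ⟨hb, Q, hF, hE⟩, exists_commonDen lam phi, fun N a hN ha => ?_⟩
  exact stable_op hm hn ⟨hb, Q, hF, hE⟩ hN a (cond_infinite hc hN.1 ha)

end Pool.Agent.Y227.SO
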