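import Pool.Agent.Y227.SO.Point

set_option autoImplicit false

/-!
The limit of the Cartier descents of a scalar operator.
-/

open Polynomial Filter Topology Pool.Agent.W432.WB

namespace Pool.Agent.Y227.SO

open Pool.Agent.W432.PC (T Tc T_map Tc_map LocBasis multiset_nat_eq exists_rep)
open Pool.Agent.Y227.SS

universe u

variable {R : Type u} [CommRing R] [IsDomain R] [CharZero R] {m n : ℕ}

/-- If the reductions have a full basis of rational solutions for infinitely many primes in a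
residue class, then the conjugate exponents are the weights of a semistable parabolic bundle, and
of a stable one unless the companion system is reducible. -/
theorem limit_op [Countable R] (hm : 0 < m) (hn : 0 < n) {b : Fin (n + 1) → ℤ[X]}
    {α : Fin m → R} {Q : Fin (n + 1) → R[X]} {lam : Fin m → Fin n → ℚ} {phi : Fin n → ℚ}
    {N : ℕ} (hN : 0 < N) {mu : Fin m → Fin n → ℤ} {mu' : Fin n → ℤ}
    (hmu : ∀ j l, (N : ℚ) * lam j l = mu j l) (hmu' : ∀ l, (N : ℚ) * phi l = mu' l)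
    (hD : Data b α Q N mu mu') (a : ℤ)
    (hinf : ∀ g : R, g ≠ 0 → ∀ P₀ : ℕ, ∃ p : ℕ, P₀ < p ∧ (N : ℤ) ∣ a * p + 1 ∧
      ∃ _hp : Fact p.Prime, FullMod b p ∧ ∃ (𝔪 : Ideal R) (_ : 𝔪.IsMaximal), (p : R) ∈ 𝔪 ∧ g ∉ 𝔪) :
    SemistableWeights ℂ (fun j l => (a : ℝ) * lam j l) (fun l => (a : ℝ) * phi l) ∧
    (StableWeights ℂ (fun j l => (a : ℝ) * lam j l) (fun l => (a : ℝ) * phi l) ∨
      ∃ (L : Type u) (_ : Field L) (_ : IsAlgClosed L) (φ : R →+* L), Function.Injective φ ∧
        ∃ s, 0 < s ∧ s < n ∧ HasStab (fun j => φ (α j)) ((comp α Q).map (mapRingHom φ)) s) := by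
  classical
  obtain ⟨P₀, hP₀⟩ := point_data hm hn hN hmu hmu' hD a
  obtain ⟨en, hen⟩ := exists_surjective_nat R
  let g : ℕ → R := fun i => ∏ k ∈ Finset.range i, if en k = 0 then 1 else en k
  have hg : ∀ i, g i ≠ 0 := fun i => by
    refine Finset.prod_ne_zero_iff.mpr fun k _ => ?_
    split_ifs with h
    · exact one_ne_zero
    · exact h
  have h1 := fun i => hinf (g i) (hg i) (max i P₀)
  choose p hpi hap hfact hfm 𝔪 h𝔪 hpm hgm using h1
  have hip : ∀ i, i < p i := fun i => lt_of_le_of_lt (le_max_left _ _) (hpi i)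
  have h2 := fun i => hP₀ (p i) (hfact i) (lt_of_le_of_lt (le_max_right _ _) (hpi i)) (hap i)
    (hfm i) (𝔪 i) (hpm i)
  choose K i1 i2 i3 i4 φ Y e P z k1 k2 k3 k4 k5 k6 k7 k8 using h2
  choose σ t hσ using k7
  choose ρ t' hρ using k8
  have hpR : ∀ i, (0 : ℝ) < p i := fun i => by exact_mod_cast (hfact i).out.pos
  let F : Ultrafilter ℕ := hyperfilter ℕ
  have hFtop : (F : Filter ℕ) ≤ atTop := Nat.hyperfilter_le_atTop
  obtain ⟨ψ⟩ := up_ringEquiv_complex K F hyperfilter_le_cofinite (by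
    intro q hq
    refine hFtop ?_
    filter_upwards [eventually_ge_atTop q] with i hi h0
    rw [CharP.cast_eq_zero_iff (K i) (p i)] at h0
    have h3 := Nat.le_of_dvd (Nat.pos_of_ne_zero hq) h0
    have h4 := hip i
    omega)
  have hacl : IsAlgClosed (UP K F) := up_isAlgClosed K F
  obtain ⟨σ₀, hσ₀⟩ := eventually_const (F := F) σ
  obtain ⟨ρ₀, hρ₀⟩ := eventually_const (F := F) ρ
  set U₀ : ℕ := ∑ i, cw m n i with hU₀
  -- bounds for the weights
  have hwb : ∀ i j l, (e i j l : ℝ) ≤ p i * 1 := fun i j l => by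
    rw [mul_one]
    exact_mod_cast ((k5 i j).lt l).le
  have heb : ∀ i l, (vdeg (cw m n) (Y i l) : ℝ) ≤ p i * (m * n + U₀) := by
    intro i l
    have h3 : vdeg (cw m n) (Y i l) ≤ ∑ l, vdeg (cw m n) (Y i l) :=
      Finset.single_le_sum (f := fun l => vdeg (cw m n) (Y i l)) (fun _ _ => Nat.zero_le _)
        (Finset.mem_univ l)
    rw [← k6 i] at h3
    have h4 : ∑ j, ∑ l, e i j l ≤ ∑ _j : Fin m, ∑ _l : Fin n, p i :=
      Finset.sum_le_sum fun j _ => Finset.sum_le_sum fun l _ => ((k5 i j).lt l).le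
    have h5 : ∑ _j : Fin m, ∑ _l : Fin n, p i = m * (n * p i) := by simp
    have h7 : U₀ ≤ p i * U₀ := Nat.le_mul_of_pos_left _ (hfact i).out.pos
    have h6 : (vdeg (cw m n) (Y i l) : ℝ) ≤ ((m * (n * p i) + p i * U₀ : ℕ) : ℝ) := by
      exact_mod_cast h3.trans (by omega)
    push_cast at h6
    linarith
  have hwl := fun (j : Fin m) (l : Fin n) => limit_weight hFtop hip (E := fun i => e i j l)
    (fun i => hwb i j l) (a := a) (q := lam j (σ₀ j l)) (m := fun i => t i j l) (by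
      filter_upwards [hσ₀] with i hi
      rw [hσ i j l, hi])
  have hel := fun (l : Fin n) => limit_weight hFtop hip (E := fun i => vdeg (cw m n) (Y i l))
    (fun i => heb i l) (a := a) (q := phi (ρ₀ l) + (((n - 1) * (m - 1) : ℕ) : ℚ))
    (m := fun i => t' i l) (by
      filter_upwards [hρ₀] with i hi
      rw [hρ i l, hi])
  choose w₀ hw1 hw2 hw3 hw4 hw5 using hwl
  choose e₀ he1 he2 he3 he4 he5 using hel
  -- semistability
  have hsem := semistable_up F (β := fun i j => φ i (α j) ^ p i) (P := fun i j => (P i j)⁻¹)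
    (w := fun i j l => (e i j l : ℝ) / p i) (e := fun i l => (vdeg (cw m n) (Y i l) : ℝ) / p i)
    (fun i => charP_semistable (k2 i) (k4 i) (p i) (k5 i)
      (fun a l => natDegree_le_vdeg' (cw m n) (Y i a) l)) hw4 he4
  -- transport to the complex numbers
  have hβ : Function.Injective fun j => ψ (up K F fun i => φ i (α j) ^ p i) := by
    intro a b hab
    by_contra hne
    have h8 := ψ.injective hab
    rw [← sub_eq_zero, ← map_sub, up_eq_zero] at h8
    obtain ⟨i, hi⟩ := h8.exists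
    rw [Pi.sub_apply, sub_eq_zero] at hi
    exact hne (k2 i (frobenius_inj (K i) (p i) (by simpa [frobenius_def] using hi)))
  have hdetP : ∀ j, (((Matrix.of fun a b => fun i => (P i j)⁻¹ a b :
      Matrix (Fin n) (Fin n) (∀ i, K i)).map (up K F)).map ψ).det ≠ 0 := by
    intro j h0
    have h8 : ψ (up K F (Matrix.of fun a b => fun i => (P i j)⁻¹ a b :
        Matrix (Fin n) (Fin n) (∀ i, K i)).det) = 0 := by
      rw [RingHom.map_det, ← RingEquiv.coe_toRingHom, RingHom.map_det]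
      exact h0
    rw [map_eq_zero_iff _ ψ.injective, up_eq_zero] at h8
    obtain ⟨i, hi⟩ := h8.exists
    have h9 : (Pi.evalRingHom K i) (Matrix.of fun a b => fun i => (P i j)⁻¹ a b :
        Matrix (Fin n) (Fin n) (∀ i, K i)).det = ((P i j)⁻¹).det := by
      rw [RingHom.map_det]
      rfl
    have h10 : ((P i j)⁻¹).det = 0 := by
      rw [← h9]
      exact hi
    rw [Matrix.det_nonsing_inv] at h10
    exact (isUnit_ringInverse.mpr (isUnit_iff_ne_zero.mpr (k5 i j).detP)).ne_zero h10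
  have hc1 : ∀ j, ∃ σ : Equiv.Perm (Fin n), ∀ l, ∃ m : ℤ, w₀ j l = (a : ℝ) * lam j (σ l) + m := by
    intro j
    refine ⟨σ₀ j, fun l => ?_⟩
    obtain ⟨m₀, hm₀⟩ := hw3 j l
    exact ⟨m₀, hm₀⟩
  have hc2 : ∃ σ : Equiv.Perm (Fin n), ∀ l, ∃ m : ℤ, e₀ l = (a : ℝ) * phi (σ l) + m := by
    refine ⟨ρ₀, fun l => ?_⟩
    obtain ⟨m₀, hm₀⟩ := he3 l
    refine ⟨a * (((n - 1) * (m - 1) : ℕ) : ℤ) + m₀, ?_⟩
    rw [hm₀]
    push_cast
    ring
  have hsum : ∑ j, ∑ l, w₀ j l = ∑ l, e₀ l := by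
    have h8 : Tendsto (fun i => ∑ j, ∑ l, (e i j l : ℝ) / p i) F (𝓝 (∑ j, ∑ l, w₀ j l)) :=
      tendsto_finsetSum _ fun j _ => tendsto_finsetSum _ fun l _ => hw4 j l
    have h9 : Tendsto (fun i => ∑ l, (vdeg (cw m n) (Y i l) : ℝ) / p i) F (𝓝 (∑ l, e₀ l)) :=
      tendsto_finsetSum _ fun l _ => he4 l
    have hptop : Tendsto (fun i => (p i : ℝ)) F atTop := by
      have h1 : Tendsto (fun i => (p i : ℝ)) atTop atTop :=
        tendsto_natCast_atTop_atTop.comp (tendsto_atTop_mono (fun i => (hip i).le) tendsto_id)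
      exact h1.mono_left hFtop
    have h10 : Tendsto (fun i => (U₀ : ℝ) / p i) F (𝓝 0) := tendsto_const_nhds.div_atTop hptop
    have h11 := h8.add h10
    rw [add_zero] at h11
    refine tendsto_nhds_unique h11 (h9.congr fun i => ?_)
    simp only [← Finset.sum_div]
    rw [← add_div]
    congr 1
    exact_mod_cast (k6 i).symm
  have h8 : (fun j : Fin m => (ψ.symm : ℂ →+* UP K F) (ψ (up K F fun i => φ i (α j) ^ p i))) =
      fun j => up K F fun i => φ i (α j) ^ p i := by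
    ext1 j
    exact ψ.symm_apply_apply _
  have h9 : (fun j : Fin m => ((((Matrix.of fun a b => fun i => (P i j)⁻¹ a b :
      Matrix (Fin n) (Fin n) (∀ i, K i)).map (up K F)).map ψ).map (ψ.symm : ℂ →+* UP K F))) =
      fun j => ((Matrix.of fun a b => fun i => (P i j)⁻¹ a b :
      Matrix (Fin n) (Fin n) (∀ i, K i)).map (up K F)) := by
    ext1 j
    ext1 a b
    exact ψ.symm_apply_apply _
  have hsemC : Semistable (fun j => ψ (up K F fun i => φ i (α j) ^ p i)) (fun j =>
      ((Matrix.of fun a b => fun i => (P i j)⁻¹ a b : Matrix (Fin n) (Fin n) (∀ i, K i)).map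
        (up K F)).map ψ) w₀ e₀ := by
    apply Semistable.restrict (ψ.symm : ℂ →+* UP K F)
    rw [h8, h9]
    exact hsem
  refine ⟨⟨_, _, w₀, e₀, hβ, hdetP, fun j l => ⟨hw1 j l, hw2 j l⟩, hc1, hc2, hsum, hsemC⟩, ?_⟩
  -- stability
  let Φ : R →+* (∀ i, K i) := RingHom.pi φ
  have hΦ : Function.Injective ((up K F).comp Φ) := by
    rw [injective_iff_map_eq_zero]
    intro x hx
    by_contra hx0
    rw [RingHom.comp_apply, up_eq_zero] at hx
    obtain ⟨kx, rfl⟩ := hen x
    have h3 : ∀ᶠ i in (F : Filter ℕ), kx < i := hFtop (eventually_gt_atTop kx)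
    obtain ⟨i, h4, h5⟩ := (hx.and h3).exists
    refine k1 i (en kx) (fun h6 => hgm i ?_) h4
    refine (𝔪 i).mem_of_dvd ?_ h6
    have h7 : (if en kx = 0 then 1 else en kx) = en kx := if_neg hx0
    rw [← h7]
    exact Finset.dvd_prod_of_mem _ (Finset.mem_range.mpr h5)
  by_cases hst : Stable (fun j => up K F fun i => φ i (α j) ^ p i)
      (fun j => (Matrix.of fun a b => fun i => (P i j)⁻¹ a b :
        Matrix (Fin n) (Fin n) (∀ i, K i)).map (up K F)) w₀ e₀
  · left
    refine ⟨_, _, w₀, e₀, hβ, hdetP, fun j l => ⟨hw1 j l, hw2 j l⟩, hc1, hc2, hsum, hsemC, ?_⟩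
    apply Stable.restrict (ψ.symm : ℂ →+* UP K F)
    rw [h8, h9]
    exact hst
  · right
    unfold Stable at hst
    push Not at hst
    obtain ⟨s, hs, hsr, U, hU, τ, hτ, hcon⟩ := hst
    refine ⟨UP K F, inferInstance, hacl, (up K F).comp Φ, hΦ, s, hs, hsr, ?_⟩
    let c₀ : ℝ := ∑ j, ∑ l, |((lam j l : ℚ) : ℝ)| +
      ∑ l, |((phi l + (((n - 1) * (m - 1) : ℕ) : ℚ) : ℚ) : ℝ)|
    have hc1 : ∀ j l, |((lam j l : ℚ) : ℝ)| ≤ c₀ := by
      intro j l
      have h1 : |((lam j l : ℚ) : ℝ)| ≤ ∑ l, |((lam j l : ℚ) : ℝ)| :=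
        Finset.single_le_sum (f := fun l => |((lam j l : ℚ) : ℝ)|) (fun _ _ => abs_nonneg _)
          (Finset.mem_univ l)
      have h2 : ∑ l, |((lam j l : ℚ) : ℝ)| ≤ ∑ j, ∑ l, |((lam j l : ℚ) : ℝ)| :=
        Finset.single_le_sum (f := fun j => ∑ l, |((lam j l : ℚ) : ℝ)|)
          (fun _ _ => Finset.sum_nonneg fun _ _ => abs_nonneg _) (Finset.mem_univ j)
      have h3 : 0 ≤ ∑ l, |((phi l + (((n - 1) * (m - 1) : ℕ) : ℚ) : ℚ) : ℝ)| :=
        Finset.sum_nonneg fun _ _ => abs_nonneg _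
      simp only [c₀]; linarith
    have hc2 : ∀ l, |((phi l + (((n - 1) * (m - 1) : ℕ) : ℚ) : ℚ) : ℝ)| ≤ c₀ := by
      intro l
      have h1 : |((phi l + (((n - 1) * (m - 1) : ℕ) : ℚ) : ℚ) : ℝ)| ≤
          ∑ l, |((phi l + (((n - 1) * (m - 1) : ℕ) : ℚ) : ℚ) : ℝ)| :=
        Finset.single_le_sum (f := fun l => |((phi l + (((n - 1) * (m - 1) : ℕ) : ℚ) : ℚ) : ℝ)|)
          (fun _ _ => abs_nonneg _) (Finset.mem_univ l)
      have h3 : 0 ≤ ∑ j, ∑ l, |((lam j l : ℚ) : ℝ)| :=
        Finset.sum_nonneg fun _ _ => Finset.sum_nonneg fun _ _ => abs_nonneg _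
      simp only [c₀]; linarith
    have hcp : ∀ i, ((comp α Q).map (mapRingHom Φ)).map (cp K i) =
        (comp α Q).map (mapRingHom (φ i)) := by
      intro i
      ext1 a b
      simp only [Matrix.map_apply, coe_mapRingHom, Polynomial.map_map]
      rfl
    have key := exists_sub_up' F (α := fun i j => φ i (α j)) (B := (comp α Q).map (mapRingHom Φ))
      k2 (Y := Y) (fun i l => by rw [hcp]; exact k3 i l) k4 (e := e) (P := P) (z := z) k5
      (d := fun i l => vdeg (cw m n) (Y i l)) (fun i a l => natDegree_le_vdeg' (cw m n) (Y i a) l)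
      (w₀ := w₀) (e₀ := e₀) (c₀ := c₀) (by
        rw [Filter.eventually_all]
        intro j
        rw [Filter.eventually_all]
        intro l
        filter_upwards [hw5 j l] with i hi
        exact hi.trans (hc1 _ _)) (by
        rw [Filter.eventually_all]
        intro l
        filter_upwards [he5 l] with i hi
        exact hi.trans (hc2 _)) U hU τ hτ hcon
    have hmp : ((comp α Q).map (mapRingHom Φ)).map (mp K F) =
        (comp α Q).map (mapRingHom ((up K F).comp Φ)) := by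
      ext1 a b
      simp only [Matrix.map_apply, coe_mapRingHom, Polynomial.map_map]
    rw [hmp] at key
    exact key

end Pool.Agent.Y227.SO
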