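import Pool.Agent.Y227.SS.Sub
import Pool.Agent.Y227.SS.StableUp
import Pool.Agent.Y227.SO.Defs
import Pool.Agent.W432.WB.Basic

set_option autoImplicit false

/-!
The results of `SS/Sub` and `SS/StableUp` for logarithmic connections on arbitrary bundles.
-/

open Polynomial Filter Topology Pool.Agent.W432.WB

namespace Pool.Agent.Y227.SO

open Pool.Agent.W432.PC (T Tc T_map Tc_map LocBasis natDegree_prod_pow prod_dvd_of_dvd)
open Pool.Agent.Y227.SS

universe u

section charP

variable {k : Type*} [Field k] {n r : ℕ} {α : Fin n → k}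

/-- The lattice of solutions with its orders of vanishing is semistable. -/
theorem charP_semistable (hα : Function.Injective α) {Y : Matrix (Fin r) (Fin r) k[X]}
    (hY : Y.det ≠ 0) (p : ℕ) [Fact p.Prime] [CharP k p]
    {e : Fin n → Fin r → ℕ} {P : Fin n → Matrix (Fin r) (Fin r) k}
    {z : Fin n → Matrix (Fin r) (Fin r) k[X]} (hb : ∀ j, LocBasis (α j) p Y (e j) (P j) (z j))
    {d : Fin r → ℕ} (hd : ∀ i l, (Y i l).natDegree ≤ d i) :
    Semistable (fun j => α j ^ p) (fun j => (P j)⁻¹) (fun j l => (e j l : ℝ) / p)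
      (fun i => (d i : ℝ) / p) := by
  classical
  have hp : 0 < p := (Fact.out : p.Prime).pos
  have hpR : (0 : ℝ) < p := by exact_mod_cast hp
  intro s U hU τ hτ
  obtain ⟨J', hJ'⟩ := pull_minor hp hU hY
  obtain ⟨J₀, hJ₀⟩ := hU
  let M : Fin n → ℕ := fun j => ⌈(p : ℝ) * τ j⌉₊
  have hdvd : ∏ j, (X - C (α j)) ^ M j ∣ mnr (pull p U Y) J' := by
    refine pull_dvd hα hb (fun j J h0 => ?_) J'
    have h5 := hτ j J h0
    refine Nat.ceil_le.mpr ?_
    rw [← Finset.sum_div] at h5
    have h7 := mul_le_mul_of_nonneg_left h5 hpR.le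
    rw [mul_add, mul_div_cancel₀ _ hpR.ne'] at h7
    push_cast
    linarith
  have hle : ∑ j, M j ≤ (mnr (pull p U Y) J').natDegree := by
    have h2 := natDegree_le_of_dvd hdvd hJ'
    rwa [natDegree_prod_pow (α := α)] at h2
  by_contra hcon
  push Not at hcon
  have hbd : ∀ J, mnr U J ≠ 0 → ∑ c, d (J c) + p * (mnr U J).natDegree < ∑ j, M j := by
    intro J hJ
    have h1 := hcon J hJ
    rw [← Finset.sum_div] at h1
    have h2 := mul_lt_mul_of_pos_left h1 hpR
    rw [mul_add, mul_div_cancel₀ _ hpR.ne', Finset.mul_sum] at h2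
    have h3 : ∑ j, (p : ℝ) * τ j ≤ ∑ j, (M j : ℝ) := Finset.sum_le_sum fun j _ => Nat.le_ceil _
    have h4 : ((∑ c, d (J c) + p * (mnr U J).natDegree : ℕ) : ℝ) < ((∑ j, M j : ℕ) : ℝ) := by
      push_cast
      linarith
    exact_mod_cast h4
  have hD : 0 < ∑ j, M j := lt_of_le_of_lt (Nat.zero_le _) (hbd J₀ hJ₀)
  have hdeg : (mnr (pull p U Y) J').natDegree ≤ ∑ j, M j - 1 := by
    rw [pull_eq, mnr_mul]
    refine natDegree_sum_le_of_forall_le _ _ fun J _ => ?_
    rw [mnr_map]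
    by_cases h0 : mnr U J = 0
    · rw [h0, map_zero, mul_zero]; simp
    · have h1 := hbd J h0
      refine natDegree_mul_le.trans ?_
      have h2 : (∏ c, Y (J c) (J' c)).natDegree ≤ ∑ c, d (J c) :=
        (natDegree_prod_le _ _).trans (Finset.sum_le_sum fun c _ => hd _ _)
      have h3 : ((expand k p).toRingHom (mnr U J)).natDegree = (mnr U J).natDegree * p :=
        natDegree_expand _ _
      rw [h3]
      have h4 : (mnr U J).natDegree * p = p * (mnr U J).natDegree := mul_comm _ _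
      omega
  omega

end charP

section stable

variable {k : Type*} [Field k] {n s r : ℕ} {α : Fin n → k} {B : Matrix (Fin r) (Fin r) k[X]}

/-- The span of solutions is stable. -/
lemma inFam_stable {V v : Matrix (Fin s) (Fin r) k[X]} (h : InFam V v)
    (hV : ∀ i, Sol α B (V i)) :
    ∃ (c : k[X]) (G : Matrix (Fin s) (Fin s) k[X]), c ≠ 0 ∧ c • opR α B v = G * v := by
  classical
  obtain ⟨⟨J₀, hJ₀⟩, c, hc, F, hF⟩ := h
  have hrel : c ^ s * mnr v J₀ = F.det * mnr V J₀ := by
    rw [← mnr_smul, hF]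
    unfold mnr
    rw [show (F * V).submatrix id J₀ = F * V.submatrix id J₀ from by
      ext i a; simp [Matrix.mul_apply], Matrix.det_mul]
  have hF0 : F.det ≠ 0 := by
    intro h0
    rw [h0, zero_mul] at hrel
    exact mul_ne_zero (pow_ne_zero _ hc) hJ₀ hrel
  -- `V` in terms of `v`
  have hVv : F.det • V = (c • F.adjugate) * v := by
    rw [Matrix.smul_mul, ← Matrix.mul_smul, hF, ← Matrix.mul_assoc, Matrix.adjugate_mul,
      Matrix.smul_mul, Matrix.one_mul]
  -- the derivative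
  have hder : c • opR α B v = (T α • F.map derivative) * V - (T α * derivative c) • v := by
    ext1 i l
    have hF' : ∀ q, c * v i q = ∑ b, F i b * V b q := by
      intro q
      have := congrFun (congrFun hF i) q
      simpa [Matrix.mul_apply] using this
    have h1 := congrArg derivative (hF' l)
    rw [derivative_mul, derivative_sum] at h1
    simp only [derivative_mul] at h1
    have h2 : c * B.mulVec (v i) l = ∑ b, F i b * B.mulVec (V b) l := by
      simp only [Matrix.mulVec, dotProduct, Finset.mul_sum]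
      calc ∑ q, c * (B l q * v i q) = ∑ q, B l q * (c * v i q) :=
            Finset.sum_congr rfl fun q _ => by ring
        _ = ∑ q, ∑ b, B l q * (F i b * V b q) := by
            refine Finset.sum_congr rfl fun q _ => ?_
            rw [hF' q, Finset.mul_sum]
        _ = ∑ b, ∑ q, B l q * (F i b * V b q) := Finset.sum_comm
        _ = _ := Finset.sum_congr rfl fun b _ => Finset.sum_congr rfl fun q _ => by ring
    simp only [opR, Matrix.smul_apply, Matrix.of_apply, smul_eq_mul, Matrix.sub_apply,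
      Matrix.mul_apply, Matrix.map_apply]
    rw [mul_sub, h2]
    have h3 : ∑ b, F i b * B.mulVec (V b) l = ∑ b, F i b * (T α * derivative (V b l)) :=
      Finset.sum_congr rfl fun b _ => by rw [← hV b l]
    rw [h3]
    have h4 : ∑ b, (derivative (F i b) * V b l + F i b * derivative (V b l)) =
        ∑ b, derivative (F i b) * V b l + ∑ b, F i b * derivative (V b l) :=
      Finset.sum_add_distrib
    rw [h4] at h1
    have h5 : ∑ b, F i b * (T α * derivative (V b l)) = T α * ∑ b, F i b * derivative (V b l) := by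
      rw [Finset.mul_sum]
      exact Finset.sum_congr rfl fun b _ => by ring
    have h6 : ∑ b, T α * derivative (F i b) * V b l = T α * ∑ b, derivative (F i b) * V b l := by
      rw [Finset.mul_sum]
      exact Finset.sum_congr rfl fun b _ => by ring
    rw [h5, h6]
    linear_combination T α * h1
  refine ⟨F.det * c, (T α • F.map derivative) * (c • F.adjugate) -
    (F.det * (T α * derivative c)) • 1, mul_ne_zero hF0 hc, ?_⟩
  rw [Matrix.sub_mul, Matrix.smul_mul _ (1 : Matrix (Fin s) (Fin s) k[X]), Matrix.one_mul,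
    Matrix.mul_assoc (T α • F.map derivative), ← hVv,
    mul_smul, hder, smul_sub, Matrix.mul_smul, smul_smul]

lemma pull_natDegree' {p : ℕ} {U : Matrix (Fin s) (Fin r) k[X]}
    {Y : Matrix (Fin r) (Fin r) k[X]} {d : Fin r → ℕ} (hd : ∀ i l, (Y i l).natDegree ≤ d i) {D : ℕ}
    (hD : ∀ J, mnr U J ≠ 0 → p * (mnr U J).natDegree + ∑ c, d (J c) ≤ D)
    (J' : Fin s → Fin r) : (mnr (pull p U Y) J').natDegree ≤ D := by
  rw [pull_eq, mnr_mul]
  refine natDegree_sum_le_of_forall_le _ _ fun J _ => ?_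
  rw [mnr_map]
  by_cases h0 : mnr U J = 0
  · rw [h0, map_zero, mul_zero]; simp
  · have h1 := hD J h0
    refine natDegree_mul_le.trans ?_
    have h2 : (∏ c, Y (J c) (J' c)).natDegree ≤ ∑ c, d (J c) :=
      (natDegree_prod_le _ _).trans (Finset.sum_le_sum fun c _ => hd _ _)
    have h3 : ((expand k p).toRingHom (mnr U J)).natDegree = (mnr U J).natDegree * p :=
      natDegree_expand _ _
    rw [h3]
    have h4 : (mnr U J).natDegree * p = p * (mnr U J).natDegree := mul_comm _ _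
    omega

lemma pull_sol' {p : ℕ} [CharP k p] (U : Matrix (Fin s) (Fin r) k[X])
    {Y : Matrix (Fin r) (Fin r) k[X]} (hY : ∀ i, Sol α B (Y i)) (i : Fin s) :
    Sol α B (pull p U Y i) := by
  have h1 : pull p U Y i = ∑ m, (expand k p (U i m)) • Y m := by
    ext1 l
    rw [Finset.sum_apply]
    rfl
  rw [h1]
  refine Sol.sum _ fun m _ => (hY m).smul ?_
  rw [derivative_expand, CharP.cast_eq_zero, zero_mul, mul_zero]

/-- A submodule of the Cartier descent gives a subspace of small degree stable under the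
connection. -/
theorem exists_bounded_sub' [IsAlgClosed k] (hα : Function.Injective α)
    {Y : Matrix (Fin r) (Fin r) k[X]} (hYs : ∀ i, Sol α B (Y i)) (hY : Y.det ≠ 0)
    {p : ℕ} [Fact p.Prime] [CharP k p]
    {e : Fin n → Fin r → ℕ} {P : Fin n → Matrix (Fin r) (Fin r) k}
    {z : Fin n → Matrix (Fin r) (Fin r) k[X]} (hb : ∀ j, LocBasis (α j) p Y (e j) (P j) (z j))
    {d : Fin r → ℕ} (hd : ∀ i l, (Y i l).natDegree ≤ d i)
    {U : Matrix (Fin s) (Fin r) k[X]} (hU : ∃ J, mnr U J ≠ 0) {M : Fin n → ℕ}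
    (hM : ∀ j J, mnr (U * ((P j)⁻¹).map C) J ≠ 0 →
      M j ≤ p * (mnr (U * ((P j)⁻¹).map C) J).rootMultiplicity (α j ^ p) + ∑ c, e j (J c))
    {D : ℕ} (hD : ∀ J, mnr U J ≠ 0 → p * (mnr U J).natDegree + ∑ c, d (J c) ≤ D) :
    ∃ v : Matrix (Fin s) (Fin r) k[X], (∃ J, mnr v J ≠ 0) ∧
      (∀ i l, (v i l).natDegree + ∑ j, M j ≤ D) ∧
      ∀ J, mnr v J • opR α B v =
        (opR α B v).submatrix id J * (v.submatrix id J).adjugate * v := by
  have hp : 0 < p := (Fact.out : p.Prime).pos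
  obtain ⟨v, hv⟩ := exists_minMem (pull_minor hp hU hY)
  obtain ⟨c, G, hc, hG⟩ := inFam_stable (α := α) (B := B) hv.mem (pull_sol' (p := p) U hYs)
  refine ⟨v, hv.mem.1, fun i l => ?_, fun J => cofactor_of_stable hc hG J⟩
  have h1 := hv.degree_le (pull_dvd hα hb hM) (pull_natDegree' hd hD)
  rw [natDegree_prod_pow (α := α)] at h1
  have h2 : (v i l).natDegree ≤ ∑ i, Pool.Agent.W432.PC.vdeg (v i) :=
    (Pool.Agent.W432.PC.natDegree_le_vdeg (v i) l).trans
      (Finset.single_le_sum (f := fun i => Pool.Agent.W432.PC.vdeg (v i))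
        (fun _ _ => Nat.zero_le _) (Finset.mem_univ i))
  omega

end stable

section cof

variable {R S : Type*} [CommRing R] [CommRing S] {n s r : ℕ}

lemma opR_map (f : R →+* S) (α : Fin n → R) (B : Matrix (Fin r) (Fin r) R[X])
    (v : Matrix (Fin s) (Fin r) R[X]) :
    (opR α B v).map (mapRingHom f) =
      opR (fun j => f (α j)) (B.map (mapRingHom f)) (v.map (mapRingHom f)) := by
  have hT : (mapRingHom f) (T α) = T (fun j => f (α j)) := by
    unfold T
    rw [map_prod]
    simp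
  ext1 i l
  simp only [opR, Matrix.map_apply, Matrix.of_apply, map_sub, map_mul, hT, Matrix.mulVec,
    dotProduct, map_sum]
  congr 2
  rw [coe_mapRingHom, derivative_map]

/-- The cofactor form of the stability of the span of the rows of `v`. -/
noncomputable def cof (α : Fin n → R) (B : Matrix (Fin r) (Fin r) R[X])
    (v : Matrix (Fin s) (Fin r) R[X]) (J : Fin s → Fin r) : Matrix (Fin s) (Fin r) R[X] :=
  mnr v J • opR α B v - (opR α B v).submatrix id J * (v.submatrix id J).adjugate * v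

lemma cof_map (f : R →+* S) (α : Fin n → R) (B : Matrix (Fin r) (Fin r) R[X])
    (v : Matrix (Fin s) (Fin r) R[X]) (J : Fin s → Fin r) :
    (cof α B v J).map (mapRingHom f) =
      cof (fun j => f (α j)) (B.map (mapRingHom f)) (v.map (mapRingHom f)) J := by
  unfold cof
  rw [← opR_map, mnr_map]
  have h1 : ((v.map (mapRingHom f)).submatrix id J).adjugate =
      ((v.submatrix id J).adjugate).map (mapRingHom f) := by
    have h2 := RingHom.map_adjugate (mapRingHom f) (v.submatrix id J)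
    exact h2.symm
  rw [h1]
  rw [Matrix.map_sub _ (map_sub _), Matrix.map_mul, Matrix.map_mul]
  congr 1
  ext1 i l
  simp

end cof

section main

variable {K : ℕ → Type u} [∀ i, Field (K i)] [∀ i, IsAlgClosed (K i)] {n r : ℕ}
  {p : ℕ → ℕ} [hp : ∀ i, Fact (p i).Prime] [∀ i, CharP (K i) (p i)]

/-- The ultraproduct of the Cartier descents: a submodule violating stability gives a stable
subspace. -/
theorem exists_sub_up' (F : Ultrafilter ℕ) {α : ∀ i, Fin n → K i}
    {B : Matrix (Fin r) (Fin r) (∀ i, K i)[X]} (hα : ∀ i, Function.Injective (α i))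
    {Y : ∀ i, Matrix (Fin r) (Fin r) (K i)[X]} (hYs : ∀ i l, Sol (α i) (B.map (cp K i)) (Y i l))
    (hY : ∀ i, (Y i).det ≠ 0) {e : ℕ → Fin n → Fin r → ℕ}
    {P : ∀ i, Fin n → Matrix (Fin r) (Fin r) (K i)}
    {z : ∀ i, Fin n → Matrix (Fin r) (Fin r) (K i)[X]}
    (hb : ∀ i j, LocBasis (α i j) (p i) (Y i) (e i j) (P i j) (z i j))
    {d : ℕ → Fin r → ℕ} (hd : ∀ i a l, (Y i a l).natDegree ≤ d i a)
    {w₀ : Fin n → Fin r → ℝ} {e₀ : Fin r → ℝ} {c₀ : ℝ}
    (hw : ∀ᶠ i in (F : Filter ℕ), ∀ j l, |(e i j l : ℝ) - p i * w₀ j l| ≤ c₀)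
    (he : ∀ᶠ i in (F : Filter ℕ), ∀ l, |(d i l : ℝ) - p i * e₀ l| ≤ c₀)
    {s : ℕ} (U : Matrix (Fin s) (Fin r) (UP K F)[X]) (hU : ∃ J, mnr U J ≠ 0) (τ : Fin n → ℝ)
    (hτ : ∀ j J, mnr (U * ((Matrix.of fun a b => fun i => (P i j)⁻¹ a b :
        Matrix (Fin r) (Fin r) (∀ i, K i)).map (up K F)).map C) J ≠ 0 →
      τ j ≤ (mnr (U * ((Matrix.of fun a b => fun i => (P i j)⁻¹ a b :
        Matrix (Fin r) (Fin r) (∀ i, K i)).map (up K F)).map C) J).rootMultiplicity
          (up K F fun i => α i j ^ p i) + ∑ i, w₀ j (J i))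
    (hbad : ∀ J, mnr U J ≠ 0 → (mnr U J).natDegree + ∑ i, e₀ (J i) ≤ ∑ j, τ j) :
    HasStab (fun j => up K F fun i => α i j) (B.map (mp K F)) s := by
  classical
  have hlift : ∀ a b, ∃ f : (∀ i, K i)[X], mp K F f = U a b := fun a b => mp_surjective K F _
  choose V hV using hlift
  let V : Matrix (Fin s) (Fin r) (∀ i, K i)[X] := V
  have hUV : U = V.map (mp K F) := by
    ext1 a b
    exact (hV a b).symm
  let Q : Fin n → Matrix (Fin r) (Fin r) (∀ i, K i) := fun j =>
    Matrix.of fun a b => fun i => (P i j)⁻¹ a b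
  have hQ : ∀ i j, (Q j).map (Pi.evalRingHom K i) = (P i j)⁻¹ := fun i j => rfl
  have hm : ∀ J, mnr U J = mp K F (mnr V J) := fun J => by rw [hUV, mnr_map]
  have hP : ∀ j J, mnr (U * ((Q j).map (up K F)).map C) J = mp K F (mnr (V * (Q j).map C) J) := by
    intro j J
    rw [hUV, ← mnr_map, map_mul_C]
  have hPc : ∀ i j J, mnr (V.map (cp K i) * ((P i j)⁻¹).map C) J =
      cp K i (mnr (V * (Q j).map C) J) := by
    intro i j J
    rw [← mnr_map, map_mul_C, hQ]
  obtain ⟨J₀, hJ₀⟩ := hU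
  have E1 : ∀ᶠ i in (F : Filter ℕ), ∀ J, mnr U J ≠ 0 →
      (cp K i (mnr V J)).natDegree ≤ (mnr U J).natDegree := by
    rw [Filter.eventually_all]
    intro J
    filter_upwards [natDegree_cp_le K F (mnr V J)] with i h4 _
    rwa [← hm] at h4
  have E2 : ∀ᶠ i in (F : Filter ℕ), ∀ J, mnr U J = 0 → cp K i (mnr V J) = 0 := by
    rw [Filter.eventually_all]
    intro J
    by_cases hJ : mnr U J = 0
    · have h1 := hJ
      rw [hm, mp_eq_zero] at h1
      filter_upwards [h1] with i h2 _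
      exact h2
    · exact Filter.Eventually.of_forall fun _ h => absurd h hJ
  have E4 : ∀ᶠ i in (F : Filter ℕ), ∀ j J, mnr (V.map (cp K i) * ((P i j)⁻¹).map C) J ≠ 0 →
      τ j ≤ (mnr (V.map (cp K i) * ((P i j)⁻¹).map C) J).rootMultiplicity (α i j ^ p i) +
        ∑ c, w₀ j (J c) := by
    rw [Filter.eventually_all]
    intro j
    rw [Filter.eventually_all]
    intro J
    by_cases hJ : mnr (U * ((Q j).map (up K F)).map C) J = 0
    · have h1 := hJ
      rw [hP, mp_eq_zero] at h1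
      filter_upwards [h1] with i h2 h3
      rw [hPc] at h3
      exact absurd h2 h3
    · have h1 := hτ j J hJ
      have h2 := hJ
      rw [hP] at h2
      have h3 := le_rootMultiplicity_cp K F (fun i => α i j ^ p i) h2
      filter_upwards [h3] with i h6 _
      rw [hPc]
      have h1' : τ j ≤ ((mp K F (mnr (V * (Q j).map C) J)).rootMultiplicity
          (up K F fun i => α i j ^ p i) : ℝ) + ∑ c, w₀ j (J c) := by
        rw [← hP]; exact h1
      have h8 : ((mp K F (mnr (V * (Q j).map C) J)).rootMultiplicity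
          (up K F fun i => α i j ^ p i) : ℝ) ≤
          ((cp K i (mnr (V * (Q j).map C) J)).rootMultiplicity (α i j ^ p i) : ℝ) := by
        exact_mod_cast h6
      linarith
  have E5 : ∀ᶠ i in (F : Filter ℕ), cp K i (mnr V J₀) ≠ 0 := by
    rw [← mp_ne_zero, ← hm]
    exact hJ₀
  -- the degree bound
  set δ : ℕ := ⌊((n : ℝ) + 1) * (s * c₀)⌋₊ with hδ
  have hex : ∀ᶠ i in (F : Filter ℕ), ∃ v : Matrix (Fin s) (Fin r) (K i)[X],
      (∃ J, mnr v J ≠ 0) ∧ (∀ a b, (v a b).natDegree ≤ δ) ∧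
      ∀ J, mnr v J • opR (α i) (B.map (cp K i)) v =
        (opR (α i) (B.map (cp K i)) v).submatrix id J * (v.submatrix id J).adjugate * v := by
    filter_upwards [E1, E2, E4, E5, hw, he] with i h1 h2 h4 h5 h6 h7
    have hpi : (0 : ℝ) < p i := by exact_mod_cast (hp i).out.pos
    have hsumw : ∀ (j : Fin n) (J : Fin s → Fin r),
        (p i : ℝ) * ∑ c, w₀ j (J c) ≤ ∑ c, (e i j (J c) : ℝ) + s * c₀ := by
      intro j J
      have h8 : ∑ c, (p i : ℝ) * w₀ j (J c) ≤ ∑ c, ((e i j (J c) : ℝ) + c₀) :=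
        Finset.sum_le_sum fun c _ => by
          have := (abs_le.mp (h6 j (J c))).1
          linarith
      rw [← Finset.mul_sum, Finset.sum_add_distrib] at h8
      simpa using h8
    have hsume : ∀ (J : Fin s → Fin r),
        ∑ c, (d i (J c) : ℝ) ≤ (p i : ℝ) * ∑ c, e₀ (J c) + s * c₀ := by
      intro J
      have h8 : ∑ c, (d i (J c) : ℝ) ≤ ∑ c, ((p i : ℝ) * e₀ (J c) + c₀) :=
        Finset.sum_le_sum fun c _ => by
          have := (abs_le.mp (h7 (J c))).2
          linarith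
      rw [Finset.sum_add_distrib, ← Finset.mul_sum] at h8
      simpa using h8
    have hreal : ∀ J, mnr (V.map (cp K i)) J ≠ 0 →
        ((p i * (mnr (V.map (cp K i)) J).natDegree + ∑ c, d i (J c) : ℕ) : ℝ) ≤
        p i * ∑ j, τ j + s * c₀ := by
      intro J hJ
      rw [mnr_map] at hJ ⊢
      have h8 : mnr U J ≠ 0 := fun h0 => hJ (h2 J h0)
      have h9 : ((cp K i (mnr V J)).natDegree : ℝ) ≤ ((mnr U J).natDegree : ℝ) := by
        exact_mod_cast h1 J h8
      have h10 := hbad J h8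
      have h11 := hsume J
      push_cast
      nlinarith
    have hnn : 0 ≤ (p i : ℝ) * ∑ j, τ j + s * c₀ :=
      (Nat.cast_nonneg _).trans (hreal J₀ (by rw [mnr_map]; exact h5))
    obtain ⟨v, hv1, hv2, hv3⟩ := exists_bounded_sub' (hα i) (hYs i) (hY i) (hb i) (hd i)
      (U := V.map (cp K i)) ⟨J₀, by rw [mnr_map]; exact h5⟩
      (M := fun j => ⌈(p i : ℝ) * τ j - s * c₀⌉₊) (by
        intro j J hJ
        refine Nat.ceil_le.mpr ?_
        have h8 := h4 j J hJ
        have h9 := hsumw j J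
        push_cast
        nlinarith)
      (D := ⌊(p i : ℝ) * ∑ j, τ j + s * c₀⌋₊) (by
        intro J hJ
        exact Nat.le_floor (hreal J hJ))
    refine ⟨v, hv1, fun a b => ?_, hv3⟩
    refine Nat.le_floor ?_
    have h8 := hv2 a b
    have h9 : ((v a b).natDegree : ℝ) + ∑ j, (⌈(p i : ℝ) * τ j - s * c₀⌉₊ : ℝ) ≤
        (⌊(p i : ℝ) * ∑ j, τ j + s * c₀⌋₊ : ℝ) := by exact_mod_cast h8
    have h10 : (⌊(p i : ℝ) * ∑ j, τ j + s * c₀⌋₊ : ℝ) ≤ (p i : ℝ) * ∑ j, τ j + s * c₀ :=
      Nat.floor_le hnn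
    have h11 : ∑ j, ((p i : ℝ) * τ j - s * c₀) ≤ ∑ j, (⌈(p i : ℝ) * τ j - s * c₀⌉₊ : ℝ) :=
      Finset.sum_le_sum fun j _ => Nat.le_ceil _
    rw [Finset.sum_sub_distrib, ← Finset.mul_sum] at h11
    simp only [Finset.sum_const, Finset.card_univ, Fintype.card_fin, nsmul_eq_mul] at h11
    linarith
  -- choose the subspaces
  have hex' : ∀ i, ∃ (v : Matrix (Fin s) (Fin r) (K i)[X]) (J₁ : Fin s → Fin r),
      (∃ v : Matrix (Fin s) (Fin r) (K i)[X],
      (∃ J, mnr v J ≠ 0) ∧ (∀ a b, (v a b).natDegree ≤ δ) ∧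
      ∀ J, mnr v J • opR (α i) (B.map (cp K i)) v =
        (opR (α i) (B.map (cp K i)) v).submatrix id J * (v.submatrix id J).adjugate * v) →
      mnr v J₁ ≠ 0 ∧ (∀ a b, (v a b).natDegree ≤ δ) ∧ cof (α i) (B.map (cp K i)) v J₁ = 0 := by
    intro i
    by_cases hx : ∃ v : Matrix (Fin s) (Fin r) (K i)[X],
      (∃ J, mnr v J ≠ 0) ∧ (∀ a b, (v a b).natDegree ≤ δ) ∧
      ∀ J, mnr v J • opR (α i) (B.map (cp K i)) v =
        (opR (α i) (B.map (cp K i)) v).submatrix id J * (v.submatrix id J).adjugate * v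
    · obtain ⟨v, ⟨J, hJ⟩, h2, h3⟩ := hx
      exact ⟨v, J, fun _ => ⟨hJ, h2, by unfold cof; rw [h3 J, sub_self]⟩⟩
    · exact ⟨0, J₀, fun h => absurd h hx⟩
  choose v J₁ hvJ using hex'
  obtain ⟨J₂, hJ₂⟩ := (F.map J₁).eq_pure_of_finite
  have hJ₂' : ∀ᶠ i in (F : Filter ℕ), J₁ i = J₂ := by
    have h8 : {J₂} ∈ (F.map J₁) := by
      rw [hJ₂]
      exact Filter.mem_pure.mpr rfl
    exact h8
  choose V' hV' using fun (a : Fin s) (b : Fin r) => SS.exists_lift (fun i => v i a b) δ
  let V' : Matrix (Fin s) (Fin r) (∀ i, K i)[X] := V'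
  have hgood : ∀ᶠ i in (F : Filter ℕ), V'.map (cp K i) = v i ∧ mnr (v i) J₂ ≠ 0 ∧
      cof (α i) (B.map (cp K i)) (v i) J₂ = 0 := by
    filter_upwards [hex, hJ₂'] with i h1 h2
    obtain ⟨h3, h4, h5⟩ := hvJ i h1
    rw [h2] at h3 h5
    refine ⟨?_, h3, h5⟩
    ext1 a b
    exact hV' a b i (h4 a b)
  let α' : Fin n → (∀ i, K i) := fun j i => α i j
  have hcof : (cof α' B V' J₂).map (mp K F) = 0 := by
    ext1 a b
    rw [Matrix.map_apply, Matrix.zero_apply, mp_eq_zero]
    filter_upwards [hgood] with i hi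
    have h1 := cof_map (Pi.evalRingHom K i) α' B V' J₂
    rw [hi.1] at h1
    have h2 : cof (fun j => Pi.evalRingHom K i (α' j)) (B.map (cp K i))
        (v i) J₂ = cof (α i) (B.map (cp K i)) (v i) J₂ := rfl
    rw [h2, hi.2.2] at h1
    have h3 := congrFun (congrFun h1 a) b
    exact h3
  rw [cof_map] at hcof
  refine ⟨V'.map (mp K F), ⟨J₂, ?_⟩, mnr (V'.map (mp K F)) J₂, _, ?_, sub_eq_zero.mp hcof⟩
  · rw [mnr_map, mp_ne_zero]
    filter_upwards [hgood] with i hi
    rw [← mnr_map, hi.1]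
    exact hi.2.1
  · rw [mnr_map, mp_ne_zero]
    filter_upwards [hgood] with i hi
    rw [← mnr_map, hi.1]
    exact hi.2.1

end main

end Pool.Agent.Y227.SO
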