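import Pool.Agent.Y227.SS.StableFinal
import Pool.Agent.Y227.SO.Sub
import Pool.Agent.W432.WB.Main

set_option autoImplicit false

/-!
The data at one closed point for scalar operators.
-/

open Polynomial Filter Topology Pool.Agent.W432.WB

namespace Pool.Agent.Y227.SO

open Pool.Agent.W432.PC (T Tc T_map Tc_map LocBasis multiset_nat_eq exists_rep)
open Pool.Agent.Y227.SS

universe u

section charP

variable {k : Type*} [Field k] {n r : ℕ} {α : Fin n → k} {B : Matrix (Fin r) (Fin r) k[X]}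

lemma natDegree_le_vdeg' (u : Fin r → ℕ) (y : Fin r → k[X]) (l : Fin r) :
    (y l).natDegree ≤ vdeg u y := by
  refine le_trans ?_ (natDegree_le_vdeg u y l)
  by_cases h : y l = 0
  · rw [h]; simp
  · rw [sh_apply, natDegree_mul (pow_ne_zero _ X_ne_zero) h]
    exact Nat.le_add_left _ _

lemma natDegree_det_le (u : Fin r → ℕ) (Y : Matrix (Fin r) (Fin r) k[X]) (hY : Y.det ≠ 0) :
    Y.det.natDegree + ∑ i, u i ≤ ∑ i, vdeg u (Y i) := by
  have h1 : (Matrix.of fun i l => sh u (Y i) l).det.natDegree = Y.det.natDegree + ∑ i, u i := by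
    rw [det_sh, natDegree_mul (pow_ne_zero _ X_ne_zero) hY, natDegree_X_pow, add_comm]
  rw [← h1, Matrix.det_apply]
  refine natDegree_sum_le_of_forall_le _ _ fun σ _ => ?_
  refine (natDegree_smul_le _ _).trans ?_
  refine (natDegree_prod_le _ _).trans ?_
  calc ∑ i, ((Matrix.of fun i l => sh u (Y i) l) (σ i) i).natDegree
      ≤ ∑ i, vdeg u (Y (σ i)) :=
        Finset.sum_le_sum fun i _ => natDegree_le_vdeg u _ _
    _ = ∑ i, vdeg u (Y i) := Equiv.sum_comp σ fun i => vdeg u (Y i)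

/-- The Cartier descent in terms of a matrix of solutions. -/
theorem charP_data [IsAlgClosed k] (hα : Function.Injective α) (p : ℕ) [Fact p.Prime]
    [CharP k p] {u : Fin r → ℕ} (hB : WDeg n B u) (hfull : Full α B)
    (e : Fin n → Fin r → ℕ) (he : ∀ j i, e j i < p)
    (hA : ∀ j, (resMat α B j).charpoly = ∏ i, (X - C ((e j i : ℕ) : k)))
    (f : Fin r → ℕ) (hf : ∀ i, f i < p)
    (hAs : (infMat n B u).charpoly = ∏ i, (X - C ((f i : ℕ) : k))) :
    ∃ (Y : Matrix (Fin r) (Fin r) k[X]) (e₁ : Fin n → Fin r → ℕ)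
      (P : Fin n → Matrix (Fin r) (Fin r) k) (z : Fin n → Matrix (Fin r) (Fin r) k[X]),
      (∀ i, Sol α B (Y i)) ∧ Y.det ≠ 0 ∧ (∀ j, LocBasis (α j) p Y (e₁ j) (P j) (z j)) ∧
      ∑ j, ∑ l, e₁ j l + ∑ i, u i = ∑ l, vdeg u (Y l) ∧
      (∀ j, ∃ σ : Equiv.Perm (Fin r), ∀ l, e₁ j l = e j (σ l)) ∧
      (∃ ρ : Equiv.Perm (Fin r), ∀ l, vdeg u (Y l) % p = f (ρ l)) := by
  classical
  have hp : 0 < p := (Fact.out : p.Prime).pos
  obtain ⟨Y₀, hY₀, hdet₀⟩ := hfull
  obtain ⟨Y, h⟩ := exists_minFam u hY₀ hdet₀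
  choose e₁ P z hb using fun j => h.exists_locBasis hα p j
  have hms : ∀ j, (Finset.univ : Finset (Fin r)).val.map (e₁ j) =
      (Finset.univ : Finset (Fin r)).val.map (e j) := by
    intro j
    refine multiset_nat_eq (k := k) (hb j).lt (he j) ?_
    rw [← hA j, ← h.charpoly_loc hα (hb j)]
  have hms' : (Finset.univ : Finset (Fin r)).val.map (fun i => vdeg u (Y i) % p) =
      (Finset.univ : Finset (Fin r)).val.map f := by
    refine multiset_nat_eq (k := k) (fun i => Nat.mod_lt _ hp) hf ?_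
    rw [← hAs, h.charpoly_inf hB p]
    refine Finset.prod_congr rfl fun i _ => ?_
    congr 2
    rw [CharP.natCast_eq_natCast k p]
    exact Nat.mod_modEq _ _
  have hdeg : Y.det.natDegree + ∑ i, u i = ∑ i, vdeg u (Y i) :=
    le_antisymm (natDegree_det_le u Y h.det) (h.sum_vdeg_le hB p)
  refine ⟨Y, e₁, P, z, h.sol, h.det, hb, ?_, fun j => exists_perm_of_multiset (hms j),
    exists_perm_of_multiset hms'⟩
  rw [← hdeg, h.natDegree_det hα p hb]

end charP

section geo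

/-- Closed points of residue characteristic `p` give countable geometric points of
characteristic `p`. -/
lemma geo_countable {R : Type u} [CommRing R] [Countable R] {𝔪 : Ideal R} [h𝔪 : 𝔪.IsMaximal]
    {p : ℕ} (hp : p.Prime) (hpm : (p : R) ∈ 𝔪) :
    ∃ (K : Type u) (_ : Field K) (_ : IsAlgClosed K) (_ : CharP K p) (_ : Countable K)
      (φ : R →+* K), ∀ g, g ∉ 𝔪 → φ g ≠ 0 := by
  let _ : Field (R ⧸ 𝔪) := Ideal.Quotient.field 𝔪
  have hrc : ringChar (R ⧸ 𝔪) = p := by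
    have h1 : ((p : ℕ) : R ⧸ 𝔪) = 0 := by
      have : ((p : ℕ) : R ⧸ 𝔪) = Ideal.Quotient.mk 𝔪 (p : R) := by simp
      rw [this]
      exact Ideal.Quotient.eq_zero_iff_mem.mpr hpm
    have h2 : ringChar (R ⧸ 𝔪) ∣ p := ringChar.dvd h1
    rcases (Nat.dvd_prime hp).mp h2 with h3 | h3
    · exact absurd h3 (CharP.ringChar_ne_one)
    · exact h3
  have hcharP : CharP (R ⧸ 𝔪) p := ringChar.of_eq hrc
  have hfact : Fact p.Prime := ⟨hp⟩
  let K := AlgebraicClosure (R ⧸ 𝔪)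
  let ι : (R ⧸ 𝔪) →+* K := algebraMap (R ⧸ 𝔪) K
  have hK : CharP K p := charP_of_injective_algebraMap (algebraMap (R ⧸ 𝔪) K).injective p
  have hcount0 : Countable (R ⧸ 𝔪) := (Ideal.Quotient.mk_surjective (I := 𝔪)).countable
  have hcount : Countable K := by
    have h1 : Cardinal.mk K ≤ Cardinal.aleph0 := by
      refine (Algebra.IsAlgebraic.cardinalMk_le_max (R ⧸ 𝔪) K).trans ?_
      exact max_le (Cardinal.mk_le_aleph0_iff.mpr hcount0) le_rfl
    exact Cardinal.mk_le_aleph0_iff.mp h1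
  refine ⟨K, inferInstance, inferInstance, hK, hcount, ι.comp (Ideal.Quotient.mk 𝔪), ?_⟩
  intro g hg h0
  apply hg
  rw [RingHom.comp_apply, map_eq_zero_iff ι ι.injective] at h0
  exact Ideal.Quotient.eq_zero_iff_mem.mp h0

end geo

section point

variable {R : Type u} [CommRing R] {m n : ℕ}

/-- The data of a scalar operator over a ring. -/
structure Data (b : Fin (n + 1) → ℤ[X]) (α : Fin m → R) (Q : Fin (n + 1) → R[X])
    (N : ℕ) (mu : Fin m → Fin n → ℤ) (mu' : Fin n → ℤ) : Prop where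
  hb : b (Fin.last n) ≠ 0
  unit : ∀ i j, i ≠ j → IsUnit (α i - α j)
  last : Q (Fin.last n) = 1
  deg : ∀ k : Fin (n + 1), (Q k).natDegree ≤ (n - (k : ℕ)) * (m - 1)
  eq : ∀ k : Fin (n + 1), T α ^ (n - (k : ℕ)) * (b k).map (Int.castRingHom R) =
      (b (Fin.last n)).map (Int.castRingHom R) * Q k
  loc : ∀ j, C ((N : R) ^ n) * indLoc α Q j = C ((derivative (T α)).eval (α j) ^ n) *
      ∏ l, (C (N : R) * X - C ((mu j l : ℤ) : R))
  inf : C ((N : R) ^ n) * indInf m Q = ∏ l, (C (N : R) * X - C ((mu' l : ℤ) : R))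

/-- The data at one closed point. -/
lemma point_data [Countable R] (hm : 0 < m) (hn : 0 < n) {b : Fin (n + 1) → ℤ[X]}
    {α : Fin m → R} {Q : Fin (n + 1) → R[X]} {lam : Fin m → Fin n → ℚ} {phi : Fin n → ℚ}
    {N : ℕ} (hN : 0 < N) {mu : Fin m → Fin n → ℤ} {mu' : Fin n → ℤ}
    (hmu : ∀ j l, (N : ℚ) * lam j l = mu j l) (hmu' : ∀ l, (N : ℚ) * phi l = mu' l)
    (hD : Data b α Q N mu mu') (a : ℤ) :
    ∃ P₀ : ℕ, ∀ p : ℕ, ∀ hp : Fact p.Prime, P₀ < p → (N : ℤ) ∣ a * p + 1 → FullMod b p →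
      ∀ (𝔪 : Ideal R) [𝔪.IsMaximal], (p : R) ∈ 𝔪 →
      ∃ (K : Type u) (_ : Field K) (_ : IsAlgClosed K) (_ : CharP K p) (_ : Countable K)
        (φ : R →+* K) (Y : Matrix (Fin n) (Fin n) K[X]) (e : Fin m → Fin n → ℕ)
        (P : Fin m → Matrix (Fin n) (Fin n) K) (z : Fin m → Matrix (Fin n) (Fin n) K[X]),
        (∀ g, g ∉ 𝔪 → φ g ≠ 0) ∧ (Function.Injective fun j => φ (α j)) ∧
        (∀ i, Sol (fun j => φ (α j)) ((comp α Q).map (mapRingHom φ)) (Y i)) ∧ Y.det ≠ 0 ∧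
        (∀ j, LocBasis (φ (α j)) p Y (e j) (P j) (z j)) ∧
        ∑ j, ∑ l, e j l + ∑ i, cw m n i = ∑ l, vdeg (cw m n) (Y l) ∧
        (∀ j, ∃ σ : Equiv.Perm (Fin n), ∀ l, ∃ m : ℤ,
          (e j l : ℝ) = p * (a * lam j (σ l) + m) + lam j (σ l)) ∧
        (∃ ρ : Equiv.Perm (Fin n), ∀ l, ∃ t : ℤ,
          (vdeg (cw m n) (Y l) : ℝ) =
            p * (a * (phi (ρ l) + (((n - 1) * (m - 1) : ℕ) : ℚ) : ℚ) + t) +
              ((phi (ρ l) + (((n - 1) * (m - 1) : ℕ) : ℚ) : ℚ) : ℝ)) := by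
  classical
  set u₀ : ℕ := (n - 1) * (m - 1) with hu₀
  set psi : Fin n → ℚ := fun l => phi l + (u₀ : ℚ) with hpsi
  set mu2 : Fin n → ℤ := fun l => mu' l + N * (u₀ : ℕ) with hmu2
  have hmu2' : ∀ l, (N : ℚ) * psi l = mu2 l := by
    intro l
    simp only [hpsi, hmu2]
    push_cast
    rw [mul_add, hmu' l]
  let M : ℤ := ∑ j, ∑ l, |mu j l| + ∑ l, |mu2 l|
  have hM : ∀ j l, |mu j l| ≤ M := by
    intro j l
    have h1 : |mu j l| ≤ ∑ l, |mu j l| :=
      Finset.single_le_sum (f := fun l => |mu j l|) (fun _ _ => abs_nonneg _) (Finset.mem_univ l)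
    have h2 : ∑ l, |mu j l| ≤ ∑ j, ∑ l, |mu j l| :=
      Finset.single_le_sum (f := fun j => ∑ l, |mu j l|)
        (fun _ _ => Finset.sum_nonneg fun _ _ => abs_nonneg _) (Finset.mem_univ j)
    have h3 : 0 ≤ ∑ l, |mu2 l| := Finset.sum_nonneg fun _ _ => abs_nonneg _
    simp only [M]; linarith
  have hM' : ∀ l, |mu2 l| ≤ M := by
    intro l
    have h1 : |mu2 l| ≤ ∑ l, |mu2 l| :=
      Finset.single_le_sum (f := fun l => |mu2 l|) (fun _ _ => abs_nonneg _) (Finset.mem_univ l)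
    have h3 : 0 ≤ ∑ j, ∑ l, |mu j l| :=
      Finset.sum_nonneg fun _ _ => Finset.sum_nonneg fun _ _ => abs_nonneg _
    simp only [M]; linarith
  refine ⟨max (max M.toNat N) (b (Fin.last n)).leadingCoeff.natAbs,
    fun p hp hpP hap hfm 𝔪 h𝔪 hpm => ?_⟩
  simp only [max_lt_iff] at hpP
  obtain ⟨⟨hpM', hpN⟩, hpb⟩ := hpP
  have hpM : M < p := by omega
  obtain ⟨K, iF, iA, iC, iN, φ, h1⟩ := geo_countable hp.out hpm
  have hNK : (N : K) ≠ 0 := by
    rw [Ne, CharP.cast_eq_zero_iff K p]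
    intro hd
    exact absurd (Nat.le_of_dvd hN hd) (not_le.mpr hpN)
  have hinj : Function.Injective fun j => φ (α j) := by
    intro i j hij
    by_contra hne
    have h2 := (hD.unit i j hne).map φ
    simp only at hij
    rw [map_sub, hij, sub_self] at h2
    exact not_isUnit_zero h2
  have hcast : φ.comp (Int.castRingHom R) = Int.castRingHom K := RingHom.ext_int _ _
  have hbK : (b (Fin.last n)).map (Int.castRingHom K) ≠ 0 := by
    intro h0
    have h2 := congrArg (fun q => q.coeff (b (Fin.last n)).natDegree) h0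
    simp only [coeff_map, coeff_zero, eq_intCast] at h2
    have h3 := (CharP.intCast_eq_zero_iff K p _).mp h2
    have h4 := Int.natAbs_dvd_natAbs.mpr h3
    rw [Int.natAbs_natCast] at h4
    have h5 := Nat.le_of_dvd (Int.natAbs_pos.mpr (by
      rw [coeff_natDegree]; exact leadingCoeff_ne_zero.mpr hD.hb)) h4
    rw [coeff_natDegree] at h5
    omega
  have hfull : Full (fun j => φ (α j)) (comp (fun j => φ (α j)) fun k => (Q k).map φ) := by
    refine hfm.full (by simp only [hD.last, Polynomial.map_one]) (fun k => ?_) hbK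
    have h2 := congrArg (Polynomial.map φ) (hD.eq k)
    rw [Polynomial.map_mul, Polynomial.map_mul, Polynomial.map_pow, T_map, Polynomial.map_map,
      Polynomial.map_map, hcast] at h2
    exact h2
  have hdegK : ∀ k, ((Q k).map φ).natDegree ≤ (n - k) * (m - 1) := fun k =>
    natDegree_map_le.trans (hD.deg k)
  choose e he1 he2 t ht using fun j l => exists_rep hN (hmu j l) (lt_of_le_of_lt (hM j l) hpM) hap
  choose f hf1 hf2 s hs using fun l => exists_rep hN (hmu2' l) (lt_of_le_of_lt (hM' l) hpM) hap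
  have hA : ∀ j, (resMat (fun j => φ (α j)) (comp (fun j => φ (α j)) fun k => (Q k).map φ)
      j).charpoly = ∏ i, (X - C ((e j i : ℕ) : K)) := fun j =>
    (redExp_loc φ hinj hD.last (hD.loc j)).eq_prod hNK fun l => by
      have h9 := congrArg (fun x : ℤ => (x : K)) (ht j l)
      push_cast at h9
      rw [CharP.cast_eq_zero K p, zero_mul, add_zero] at h9
      exact h9
  have hAs : (infMat m (comp (fun j => φ (α j)) fun k => (Q k).map φ) (cw m n)).charpoly =
      ∏ i, (X - C ((f i : ℕ) : K)) :=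
    (redExp_inf φ hm hn hD.last hD.inf).eq_prod hNK fun l => by
      have h9 := congrArg (fun x : ℤ => (x : K)) (hs l)
      push_cast at h9
      rw [CharP.cast_eq_zero K p, zero_mul, add_zero] at h9
      rw [h9]
  obtain ⟨Y, e₁, P, z, k1, k2, k3, k4, k5, k6⟩ := charP_data hinj p (WDeg_comp hm _ hdegK) hfull
    e he1 hA f hf1 hAs
  have hcomp : (comp α Q).map (mapRingHom φ) = comp (fun j => φ (α j)) fun k => (Q k).map φ :=
    comp_map φ α Q
  refine ⟨K, iF, iA, iC, iN, φ, Y, e₁, P, z, h1, hinj, ?_, k2, k3, k4, ?_, ?_⟩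
  · rw [hcomp]
    exact k1
  · intro j
    obtain ⟨σ, hσ⟩ := k5 j
    refine ⟨σ, fun l => ?_⟩
    obtain ⟨v, hv⟩ := wt_congr a (lam j (σ l))
    refine ⟨v, ?_⟩
    rw [hσ l]
    have := congrArg (fun q : ℚ => (q : ℝ)) (he2 j (σ l))
    rw [hv] at this
    push_cast at this
    exact this
  · obtain ⟨ρ, hρ⟩ := k6
    refine ⟨ρ, fun l => ?_⟩
    obtain ⟨v, hv⟩ := wt_congr a (psi (ρ l))
    refine ⟨v + ((vdeg (cw m n) (Y l) / p : ℕ) : ℤ), ?_⟩
    have h6 := congrArg (fun q : ℚ => (q : ℝ)) (hf2 (ρ l))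
    rw [hv] at h6
    simp only [hpsi] at h6
    push_cast at h6
    have h7 : (vdeg (cw m n) (Y l) : ℝ) = (vdeg (cw m n) (Y l) % p : ℕ) +
        (p : ℝ) * (vdeg (cw m n) (Y l) / p : ℕ) := by
      exact_mod_cast (Nat.mod_add_div (vdeg (cw m n) (Y l)) p).symm
    rw [h7, hρ l, h6, Int.cast_add, Int.cast_natCast]
    push_cast
    ring

end point

end Pool.Agent.Y227.SO
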