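import Pool.Agent.Y227.SO.Final
import Pool.Agent.Y227.SS.Uniform
import Pool.Agent.Y227.UD.Final

set_option autoImplicit false

/-!
Uniform lower bounds for the proportion of the residue classes of bad primes, for scalar operators.
-/

open Polynomial Filter Topology Pool.Agent.W432.WB

namespace Pool.Agent.Y227.SO

open Pool.Agent.W432.TC Pool.Agent.W432.HK Pool.Agent.Y227.SS

section classes

variable {n : ℕ}

/-- The class of the primes `p` with `a p = -1` modulo `N` is bad. -/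
def BadAt (b : Fin (n + 1) → ℤ[X]) (N : ℕ) (a : ℤ) : Prop :=
  ∃ P₀ : ℕ, ∀ p : ℕ, P₀ < p → (N : ℤ) ∣ a * p + 1 → ∀ _hp : Fact p.Prime, ¬ FullMod b p

lemma BadPrimes.mono {b : Fin (n + 1) → ℤ[X]} {N : ℕ} {ε ε' : ℝ} (h : BadPrimes b N ε)
    (hε : ε' ≤ ε) : BadPrimes b N ε' := by
  obtain ⟨S, P₀, h1, h2⟩ := h
  exact ⟨S, P₀, (mul_le_mul_of_nonneg_right hε (Nat.cast_nonneg _)).trans h1, h2⟩

/-- Collecting the classes. -/
lemma collect (b : Fin (n + 1) → ℤ[X]) (N : ℕ) (hN : 0 < N) (ε : ℝ) (S : Finset (ZMod N)ˣ)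
    (hS : ε * N.totient ≤ S.card)
    (h : ∀ u ∈ S, ∃ a : ℤ, ((a : ℤ) : ZMod N) = ((u : (ZMod N)ˣ) : ZMod N) ∧ BadAt b N a) :
    BadPrimes b N ε := by
  classical
  have : NeZero N := ⟨hN.ne'⟩
  unfold BadAt at h
  choose! a ha P hP using h
  refine ⟨S.image (fun u => -u⁻¹), S.sup P, ?_, ?_⟩
  · rw [Finset.card_image_of_injective]
    · exact hS
    · intro u v huv
      have h1 : -u⁻¹ = -v⁻¹ := huv
      exact inv_injective (neg_injective h1)
  · rintro p hpP ⟨v, hv, hpv⟩ hp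
    obtain ⟨u, hu, rfl⟩ := Finset.mem_image.mp hv
    refine hP u hu p (lt_of_le_of_lt (Finset.le_sup hu) hpP) ?_ hp
    rw [← ZMod.intCast_zmod_eq_zero_iff_dvd]
    push_cast
    rw [ha u hu, hpv, Units.val_neg, mul_neg, Units.mul_inv, neg_add_cancel]

lemma rep_unit {N : ℕ} [NeZero N] (u : (ZMod N)ˣ) :
    (((((u : (ZMod N)ˣ) : ZMod N).val : ℤ)) : ZMod N) = ((u : (ZMod N)ˣ) : ZMod N) := by
  push_cast; rw [ZMod.natCast_zmod_val]

end classes

section ops

variable {m n : ℕ}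

/-- An operator with its exponents `x`, of common denominator `N`. -/
structure OpData (b : Fin (n + 1) → ℤ[X]) (α : Fin m → AlgebraicClosure ℚ)
    (Q : Fin (n + 1) → (AlgebraicClosure ℚ)[X]) (x : ExponentIndex m n → ℚ) (N : ℕ) : Prop where
  hb : b (Fin.last n) ≠ 0
  fuchs : IsFuchs b α Q
  exps : HasExps α Q (fun j l => x (Sum.inl (j, l))) (fun l => x (Sum.inr l))
  pos : 0 < N
  den : ∀ i, ∃ z : ℤ, (N : ℚ) * x i = z

lemma OpData.trace {b : Fin (n + 1) → ℤ[X]} {α : Fin m → AlgebraicClosure ℚ}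
    {Q : Fin (n + 1) → (AlgebraicClosure ℚ)[X]} {x : ExponentIndex m n → ℚ} {N : ℕ}
    (h : OpData b α Q x N) (hm : 1 ≤ m) (hn : 1 ≤ n) :
    ∃ z : ℤ, ∑ i, (traceRelation m n i : ℚ) * x i = z := by
  have htr := Pool.Agent.W432.WB.fuchs (by omega) hm h.fuchs.inj h.fuchs.last h.fuchs.deg
    h.exps.1 h.exps.2
  refine ⟨-(∑ i, ((cw m n i : ℕ) : ℤ)) + ∑ _l : Fin n, (((n - 1) * (m - 1) : ℕ) : ℤ), ?_⟩
  rw [tr_sum]
  rw [Finset.sum_add_distrib] at htr
  push_cast at htr ⊢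
  linarith

lemma OpData.bad {b : Fin (n + 1) → ℤ[X]} {α : Fin m → AlgebraicClosure ℚ}
    {Q : Fin (n + 1) → (AlgebraicClosure ℚ)[X]} {x : ExponentIndex m n → ℚ} {N : ℕ}
    (h : OpData b α Q x N) (hm : 1 ≤ m) (hn : 1 ≤ n) (a : ℤ)
    (hbad : ¬ SemistableWeights ℂ (fun j l => (a : ℝ) * x (Sum.inl (j, l)))
        (fun l => (a : ℝ) * x (Sum.inr l)) ∨
      (¬ Reducible b ∧ ¬ StableWeights ℂ (fun j l => (a : ℝ) * x (Sum.inl (j, l)))
        (fun l => (a : ℝ) * x (Sum.inr l)))) : BadAt b N a :=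
  bad_class hm hn (lam := fun j l => x (Sum.inl (j, l))) (phi := fun l => x (Sum.inr l))
    ⟨h.hb, Q, h.fuchs, h.exps⟩ ⟨h.pos, fun _ _ => h.den _, fun _ => h.den _⟩ a hbad

/-- Violations of the Weyl inequalities are bad. -/
lemma OpData.bad_weyl {b : Fin (n + 1) → ℤ[X]} {α : Fin m → AlgebraicClosure ℚ}
    {Q : Fin (n + 1) → (AlgebraicClosure ℚ)[X]} {x : ExponentIndex m n → ℚ} {N : ℕ}
    (h : OpData b α Q x N) (hm : 1 ≤ m) (a : ℤ)
    (hW : ¬ Weyl (fun j l => (a : ℝ) * x (Sum.inl (j, l))) (fun l => (a : ℝ) * x (Sum.inr l))) :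
    BadAt b N a := by
  unfold Weyl at hW
  push Not at hW
  obtain ⟨v, w, hvw, hlt⟩ := hW
  exact weyl_next_op hm b h.hb α Q h.fuchs _ _ h.exps N h.pos (fun j l => h.den _)
    (fun l => h.den _) a v w hvw hlt

/-- The gap theorem for all the conditions. -/
theorem gap_all (hm : 1 ≤ m) (hn : 1 ≤ n) :
    ∃ ε : ℝ, 0 < ε ∧ ∀ (b : Fin (n + 1) → ℤ[X]) (α : Fin m → AlgebraicClosure ℚ)
      (Q : Fin (n + 1) → (AlgebraicClosure ℚ)[X]) (x : ExponentIndex m n → ℚ) (N : ℕ),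
      OpData b α Q x N → ¬ BadPrimes b N ε → ∀ a : ℤ, IsCoprime a (N : ℤ) →
        WeylBoth (fun i => (a : ℝ) * x i) ∧
        SemistableWeights ℂ (fun j l => (a : ℝ) * x (Sum.inl (j, l)))
          (fun l => (a : ℝ) * x (Sum.inr l)) ∧
        (¬ Reducible b → StableWeights ℂ (fun j l => (a : ℝ) * x (Sum.inl (j, l)))
          (fun l => (a : ℝ) * x (Sum.inr l))) := by
  classical
  obtain ⟨ε₁, hε₁, hgap₁⟩ := Pool.Agent.Y227.UD.gap (I := ExponentIndex m n) (fun _ => 0)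
    {z | ¬ SemistableWeights ℂ (fun j l => z (Sum.inl (j, l))) (fun l => z (Sum.inr l))} (by
      intro y hy
      obtain ⟨δ, hδ, h⟩ := semistable_open y hy
      exact ⟨δ, hδ, fun x _ hx => h x hx⟩)
  obtain ⟨ε₂, hε₂, hgap₂⟩ := gap' (I := ExponentIndex m n) ((m + 1) * n)
    {z | ¬ StableWeights ℂ (fun j l => z (Sum.inl (j, l))) (fun l => z (Sum.inr l))} (by
      intro y hy
      exact stable_open y hy)
  obtain ⟨ε₃, hε₃, hgap₃⟩ := Pool.Agent.Y227.UD.gap (traceRelation m n)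
    {z : ExponentIndex m n → ℝ | (∃ e : ℤ, ∑ i, (traceRelation m n i : ℝ) * z i = e) ∧
      ¬ Weyl (fun j l => z (Sum.inl (j, l))) (fun l => z (Sum.inr l))} (by
    rintro z ⟨⟨e, he⟩, hz⟩
    rw [tr_sum] at he
    obtain ⟨δ, hδ, h⟩ := weyl_open _ _ ⟨e, he⟩ hz
    exact ⟨δ, hδ, fun x hx hnear => ⟨hx, h _ _ (fun j l => hnear _) (fun l => hnear _)⟩⟩)
  refine ⟨min ε₁ (min ε₂ ε₃), lt_min hε₁ (lt_min hε₂ hε₃), ?_⟩
  intro b α Q x N hop hnb
  have hNpos := hop.pos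
  have : NeZero N := ⟨hNpos.ne'⟩
  have hW : ∀ a : ℤ, IsCoprime a (N : ℤ) → Weyl (fun j l => (a : ℝ) * x (Sum.inl (j, l)))
      (fun l => (a : ℝ) * x (Sum.inr l)) := by
    intro a ha
    by_contra hcon
    obtain ⟨S, hS1, hS2⟩ := hgap₃ x (hop.trace hm hn) N hNpos hop.den ⟨a, ha, by
      obtain ⟨z, hz⟩ := hop.trace hm hn
      refine ⟨⟨a * z, ?_⟩, hcon⟩
      have hz' : ∑ i, (traceRelation m n i : ℝ) * x i = z := by
        have := congrArg (fun q : ℚ => (q : ℝ)) hz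
        push_cast at this
        exact this
      push_cast
      rw [← hz', Finset.mul_sum]
      exact Finset.sum_congr rfl fun i _ => by ring⟩
    exact hnb ((collect b N hNpos ε₃ S hS1 fun u hu => ⟨_, rep_unit u,
      hop.bad_weyl hm _ (hS2 u hu _ (rep_unit u)).2⟩).mono
        ((min_le_right _ _).trans (min_le_right _ _)))
  intro a ha
  refine ⟨⟨hW a ha, ?_⟩, ?_, fun hirr => ?_⟩
  · have h1 := hW (-a) ha.neg_left
    push_cast at h1
    simp only [neg_mul] at h1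
    exact h1
  · by_contra hcon
    obtain ⟨S, hS1, hS2⟩ := hgap₁ x ⟨0, by simp⟩ N hNpos hop.den ⟨a, ha, hcon⟩
    exact hnb ((collect b N hNpos ε₁ S hS1 fun u hu => ⟨_, rep_unit u,
      hop.bad hm hn _ (Or.inl (hS2 u hu _ (rep_unit u)))⟩).mono (min_le_left _ _))
  · by_contra hcon
    obtain ⟨S, hS1, hS2⟩ := hgap₂ x N hNpos hop.den ⟨a, ha, hcon⟩
    exact hnb ((collect b N hNpos ε₂ S hS1 fun u hu => ⟨_, rep_unit u,
      hop.bad hm hn _ (Or.inr ⟨hirr, hS2 u hu _ (rep_unit u)⟩)⟩).mono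
        ((min_le_right _ _).trans (min_le_left _ _)))

/-- A point near which the rank one part number `s` is forced. -/
lemma mon_or (hm : 1 ≤ m) {x : ExponentIndex m n → ℚ}
    {b : Fin (n + 1) → ℤ[X]} {α : Fin m → AlgebraicClosure ℚ}
    {Q : Fin (n + 1) → (AlgebraicClosure ℚ)[X]} {N : ℕ} (hop : OpData b α Q x N)
    (σ : Fin m → Fin n → Fin n) (hσ : ∀ j, Function.Injective (σ j))
    (hx : ∀ l, ∃ A : ℤ, ∑ j, (x (Sum.inl (j, σ j l)) : ℝ) - x (Sum.inr l) = A) (s : Fin n)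
    (y : ExponentIndex m n → ℝ) (δ : ℝ) (hδ1 : (m + 1 : ℕ) * δ ≤ 1)
    (hy0 : ∀ j, y (Sum.inl (j, σ j s)) = 0) (hy0' : y (Sum.inr s) = 0)
    (hy1 : ∀ j l, l ≠ σ j s → 2 * δ ≤ y (Sum.inl (j, l)) ∧ y (Sum.inl (j, l)) + 2 * δ ≤ 1)
    (hy2 : ∀ l, l ≠ s → y (Sum.inr l) + 2 * δ ≤ 0)
    (hy3 : ∀ l, l ≠ s → ∑ j, y (Sum.inl (j, σ j l)) - y (Sum.inr l) = 1)
    (a : ℤ) (hnear : ∀ i, ∃ z : ℤ, |(a : ℝ) * x i - y i - z| < δ) :
    (BadAt b N a ∨ HasMonSol α Q (fun j => x (Sum.inl (j, σ j s)))) ∧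
      ∀ j l, l ≠ σ j s → ∀ z : ℤ, x (Sum.inl (j, l)) - x (Sum.inl (j, σ j s)) ≠ z := by
  classical
  choose e he using hnear
  let Z : ExponentIndex m n → ℝ := fun i => (a : ℝ) * x i - e i
  have hZ : ∀ i, |Z i - y i| < δ := fun i => by
    have := he i
    simp only [Z]
    rwa [show (a : ℝ) * x i - e i - y i = (a : ℝ) * x i - y i - e i by ring]
  -- the class sums
  have hcls : ∀ l, ∑ j, Z (Sum.inl (j, σ j l)) - Z (Sum.inr l) = if l = s then 0 else 1 := by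
    intro l
    obtain ⟨A, hA⟩ := hx l
    have h1 : ∑ j, Z (Sum.inl (j, σ j l)) - Z (Sum.inr l) =
        ((a * A - ∑ j, e (Sum.inl (j, σ j l)) + e (Sum.inr l) : ℤ) : ℝ) := by
      simp only [Z, Finset.sum_sub_distrib, ← Finset.mul_sum]
      push_cast
      rw [← hA]
      ring
    have h2 : ∑ j, y (Sum.inl (j, σ j l)) - y (Sum.inr l) = (((if l = s then 0 else 1 : ℤ)) : ℝ) := by
      split_ifs with h
      · subst h; simp [hy0, hy0']
      · rw [hy3 l h]; simp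
    have h3 : |(∑ j, Z (Sum.inl (j, σ j l)) - Z (Sum.inr l)) -
        (∑ j, y (Sum.inl (j, σ j l)) - y (Sum.inr l))| < 1 := by
      have h4 : (∑ j, Z (Sum.inl (j, σ j l)) - Z (Sum.inr l)) -
          (∑ j, y (Sum.inl (j, σ j l)) - y (Sum.inr l)) =
          ∑ j, (Z (Sum.inl (j, σ j l)) - y (Sum.inl (j, σ j l))) -
            (Z (Sum.inr l) - y (Sum.inr l)) := by
        have h5 : ∑ j, (Z (Sum.inl (j, σ j l)) - y (Sum.inl (j, σ j l))) =
            ∑ j, Z (Sum.inl (j, σ j l)) - ∑ j, y (Sum.inl (j, σ j l)) :=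
          Finset.sum_sub_distrib _ _
        rw [h5]; ring
      rw [h4]
      calc |∑ j, (Z (Sum.inl (j, σ j l)) - y (Sum.inl (j, σ j l))) -
            (Z (Sum.inr l) - y (Sum.inr l))|
          ≤ |∑ j, (Z (Sum.inl (j, σ j l)) - y (Sum.inl (j, σ j l)))| +
            |Z (Sum.inr l) - y (Sum.inr l)| := abs_sub _ _
        _ < ∑ _j : Fin m, δ + δ := by
            refine add_lt_add_of_le_of_lt ?_ (hZ _)
            refine (Finset.abs_sum_le_sum_abs _ _).trans (Finset.sum_le_sum fun j _ => (hZ _).le)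
        _ ≤ 1 := by
            rw [Finset.sum_const, Finset.card_univ, Fintype.card_fin, nsmul_eq_mul]
            push_cast at hδ1
            linarith
    rw [h1, h2] at h3
    rw [h1]
    have h4 : |(a * A - ∑ j, e (Sum.inl (j, σ j l)) + e (Sum.inr l)) -
        (if l = s then 0 else 1 : ℤ)| < 1 := by exact_mod_cast h3
    have h5 := Int.abs_lt_one_iff.mp h4
    have h6 : (a * A - ∑ j, e (Sum.inl (j, σ j l)) + e (Sum.inr l)) =
        (if l = s then 0 else 1 : ℤ) := by linarith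
    rw [h6]
    split_ifs <;> simp
  have hδ0 : 0 < δ := lt_of_le_of_lt (abs_nonneg _) (hZ (Sum.inr s))
  have hv : ∀ j l, Z (Sum.inl (j, σ j s)) ≤ Z (Sum.inl (j, l)) := by
    intro j l
    by_cases h : l = σ j s
    · rw [h]
    · have h1 := abs_lt.mp (hZ (Sum.inl (j, l)))
      have h2 := abs_lt.mp (hZ (Sum.inl (j, σ j s)))
      have h3 := (hy1 j l h).1
      rw [hy0 j] at h2
      linarith
  have hw : ∀ l, Z (Sum.inr l) ≤ Z (Sum.inr s) := by
    intro l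
    by_cases h : l = s
    · rw [h]
    · have h1 := abs_lt.mp (hZ (Sum.inr l))
      have h2 := abs_lt.mp (hZ (Sum.inr s))
      have h3 := hy2 l h
      rw [hy0'] at h2
      linarith
  have hdiff : ∀ j l, l ≠ σ j s → ∀ z : ℤ, Z (Sum.inl (j, l)) - Z (Sum.inl (j, σ j s)) ≠ z := by
    intro j l h z hz
    have h1 := abs_lt.mp (hZ (Sum.inl (j, l)))
    have h2 := abs_lt.mp (hZ (Sum.inl (j, σ j s)))
    have h3 := hy1 j l h
    rw [hy0 j] at h2
    have h4 : (0 : ℝ) < z := by rw [← hz]; linarith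
    have h5 : (z : ℝ) < 1 := by rw [← hz]; linarith
    have h6 : 0 < z := by exact_mod_cast h4
    have h7 : z < 1 := by exact_mod_cast h5
    omega
  have hsub : ∀ j l, l ≠ σ j s → ∀ z : ℤ, x (Sum.inl (j, l)) - x (Sum.inl (j, σ j s)) ≠ z := by
    intro j l h z hz
    apply hdiff j l h (a * z - e (Sum.inl (j, l)) + e (Sum.inl (j, σ j s)))
    simp only [Z]
    push_cast
    have hz' : (x (Sum.inl (j, l)) : ℝ) - x (Sum.inl (j, σ j s)) = z := by
      have := congrArg (fun q : ℚ => (q : ℝ)) hz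
      push_cast at this
      exact this
    rw [← hz']
    ring
  refine ⟨?_, hsub⟩
  have hlt : ∑ j, ∑ l, nextGe (Z (Sum.inl (j, σ j s))) ((a : ℝ) * x (Sum.inl (j, l))) <
      ∑ l, nextGt (Z (Sum.inr s)) ((a : ℝ) * x (Sum.inr l)) := by
    have h1 : ∀ j l, nextGe (Z (Sum.inl (j, σ j s))) ((a : ℝ) * x (Sum.inl (j, l))) ≤
        Z (Sum.inl (j, l)) := by
      intro j l
      have h2 : (a : ℝ) * x (Sum.inl (j, l)) = Z (Sum.inl (j, l)) + (e (Sum.inl (j, l)) : ℤ) := by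
        simp only [Z]; ring
      rw [h2, nextGe_add_int]
      unfold nextGe
      have h3 : ⌈Z (Sum.inl (j, σ j s)) - Z (Sum.inl (j, l))⌉ ≤ 0 := Int.ceil_le.mpr (by
        have := hv j l
        push_cast; linarith)
      have h5 : (⌈Z (Sum.inl (j, σ j s)) - Z (Sum.inl (j, l))⌉ : ℝ) ≤ 0 := by exact_mod_cast h3
      linarith
    have h2 : ∀ l, Z (Sum.inr l) + 1 ≤ nextGt (Z (Sum.inr s)) ((a : ℝ) * x (Sum.inr l)) := by
      intro l
      have h2 : (a : ℝ) * x (Sum.inr l) = Z (Sum.inr l) + (e (Sum.inr l) : ℤ) := by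
        simp only [Z]; ring
      rw [h2, nextGt_add_int]
      unfold nextGt
      have h3 : 0 ≤ ⌊Z (Sum.inr s) - Z (Sum.inr l)⌋ := Int.floor_nonneg.mpr (by
        have := hw l
        linarith)
      have h5 : (0 : ℝ) ≤ ⌊Z (Sum.inr s) - Z (Sum.inr l)⌋ := by exact_mod_cast h3
      linarith
    have h3 : ∑ j, ∑ l, Z (Sum.inl (j, l)) - ∑ l, Z (Sum.inr l) = n - 1 := by
      have h4 : ∀ j, ∑ l, Z (Sum.inl (j, l)) = ∑ l, Z (Sum.inl (j, σ j l)) := by
        intro j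
        have hbij : Function.Bijective (σ j) := Finite.injective_iff_bijective.mp (hσ j)
        exact (Function.Bijective.sum_comp hbij (fun l => Z (Sum.inl (j, l)))).symm
      rw [Finset.sum_congr rfl fun j _ => h4 j, Finset.sum_comm, ← Finset.sum_sub_distrib,
        Finset.sum_congr rfl fun l _ => hcls l]
      have h5 : ∀ l : Fin n, (if l = s then (0 : ℝ) else 1) = 1 - if l = s then 1 else 0 := by
        intro l; split_ifs <;> ring
      rw [Finset.sum_congr rfl fun l _ => h5 l, Finset.sum_sub_distrib, Finset.sum_ite_eq',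
        if_pos (Finset.mem_univ _)]
      simp
    calc ∑ j, ∑ l, nextGe (Z (Sum.inl (j, σ j s))) ((a : ℝ) * x (Sum.inl (j, l)))
        ≤ ∑ j, ∑ l, Z (Sum.inl (j, l)) :=
          Finset.sum_le_sum fun j _ => Finset.sum_le_sum fun l _ => h1 j l
      _ < ∑ l, (Z (Sum.inr l) + 1) := by
          rw [Finset.sum_add_distrib, Finset.sum_const, Finset.card_univ, Fintype.card_fin,
            nsmul_eq_mul, mul_one]
          linarith
      _ ≤ _ := Finset.sum_le_sum fun l _ => h2 l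
  have hsum := hcls s
  rw [if_pos rfl] at hsum
  rcases weyl_next_mon hm b hop.hb α Q hop.fuchs _ _ hop.exps N hop.pos (fun j l => hop.den _)
      (fun l => hop.den _) a (fun j => Z (Sum.inl (j, σ j s))) (Z (Sum.inr s)) (by linarith) hlt with
    h | ⟨κ, hκ, hmon⟩
  · exact Or.inl h
  · right
    have hκσ : ∀ j, κ j = σ j s := by
      intro j
      by_contra hne
      obtain ⟨z, hz⟩ := hκ j
      apply hdiff j (κ j) hne (z - e (Sum.inl (j, κ j)))
      simp only [Z] at hz ⊢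
      push_cast
      rw [hz]
      ring
    simpa only [hκσ] using hmon

end ops

end Pool.Agent.Y227.SO
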